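import Pool.Agent.N649.SV.Stm
import Pool.Agent.W889.SD.Deg

set_option autoImplicit false
set_option linter.unusedVariables false
set_option linter.unusedSectionVars false

/-!
# Rees matrix semigroups over `ZMod p` are faithfully complete
-/

namespace Pool.Agent.N649.SV

open Pool.Agent.N649.SG.Light
open Pool.Agent.W889.VC (BinStr BIso Faithful BP IsGraph)
open Pool.Agent.W889.SD (dc dc_iso dc_iso' measurable_dc equiv_of_rel nth_equiv faithful_interp K3
  target_K3 rel Big)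

namespace CC

section gen

variable {M N : Type} {p : ℕ}

/-- columns relative to the idempotent `c` -/
def Cl (o : M → M → M) (c g : M) : Prop := o g c = g ∧ o c g = c

/-- rows relative to the idempotent `c` -/
def Rw (o : M → M → M) (c f : M) : Prop := o f c = c ∧ o c f = f

/-- well formed codes relative to a copy `t` of the group -/
structure Wt (p : ℕ) (o : M → M → M) (t : ZMod p → M) : Prop where
  as : ∀ x y z, o (o x y) z = o x (o y z)
  add : ∀ a b, o (t a) (t b) = t (a + b)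
  ex : ∀ s, ∃ g a f, Cl o (t 0) g ∧ Rw o (t 0) f ∧ o (o g (t a)) f = s
  un : ∀ g a f g' a' f', Cl o (t 0) g → Rw o (t 0) f → Cl o (t 0) g' → Rw o (t 0) f' →
    o (o g (t a)) f = o (o g' (t a')) f' → g = g' ∧ a = a' ∧ f = f'
  v01 : ∀ g f, Cl o (t 0) g → Rw o (t 0) f → o f g = t 0 ∨ o f g = t 1
  two : ∀ f, Rw o (t 0) f → f ≠ t 0 → ∃ u v, Cl o (t 0) u ∧ Cl o (t 0) v ∧ u ≠ v ∧
    ∀ g, Cl o (t 0) g → (o f g = t 1 ↔ g = u ∨ g = v)
  ext : ∀ f f', Rw o (t 0) f → Rw o (t 0) f' → (∀ g, Cl o (t 0) g → (o f g = o f' g)) → f = f'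
  dis : ∀ f, Rw o (t 0) f → f ≠ t 0 → ∃ f', Rw o (t 0) f' ∧ f' ≠ t 0 ∧
    ∀ g, Cl o (t 0) g → ¬ (o f g = t 1 ∧ o f' g = t 1)
  cov : ∀ g, Cl o (t 0) g → g ≠ t 0 → ∃ f, Rw o (t 0) f ∧ o f g = t 1
  inf : Infinite {u // Cl o (t 0) u ∧ u ≠ t 0}

section map

variable {y : M → M → M} {z : N → N → N} {σ : M ≃ N}

theorem cl_map (h : ∀ a b, z (σ a) (σ b) = σ (y a b)) (c g : M) : Cl z (σ c) (σ g) ↔ Cl y c g := by
  unfold Cl
  simp only [h, σ.apply_eq_iff_eq]

theorem rw_map (h : ∀ a b, z (σ a) (σ b) = σ (y a b)) (c g : M) : Rw z (σ c) (σ g) ↔ Rw y c g := by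
  unfold Rw
  simp only [h, σ.apply_eq_iff_eq]

theorem Wt.map {t : ZMod p → M} (h : ∀ a b, z (σ a) (σ b) = σ (y a b)) (w : Wt p y t) :
    Wt p z (fun a => σ (t a)) := by
  refine ⟨fun a b c => ?_, fun a b => ?_, fun s => ?_, fun g a f g' a' f' h1 h2 h3 h4 h5 => ?_,
    fun g f h1 h2 => ?_, fun f h1 h2 => ?_, fun f f' h1 h2 h3 => ?_, fun f h1 h2 => ?_,
    fun g h1 h2 => ?_, ?_⟩
  · obtain ⟨a, rfl⟩ := σ.surjective a
    obtain ⟨b, rfl⟩ := σ.surjective b
    obtain ⟨c, rfl⟩ := σ.surjective c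
    simp only [h, w.as]
  · simp only [h, w.add]
  · obtain ⟨s, rfl⟩ := σ.surjective s
    obtain ⟨g, a, f, h1, h2, h3⟩ := w.ex s
    exact ⟨σ g, a, σ f, (cl_map h _ _).2 h1, (rw_map h _ _).2 h2, by rw [h, h, h3]⟩
  · obtain ⟨g, rfl⟩ := σ.surjective g
    obtain ⟨f, rfl⟩ := σ.surjective f
    obtain ⟨g', rfl⟩ := σ.surjective g'
    obtain ⟨f', rfl⟩ := σ.surjective f'
    rw [cl_map h] at h1 h3
    rw [rw_map h] at h2 h4
    rw [h, h, h, h] at h5
    obtain ⟨h6, h7, h8⟩ := w.un g a f g' a' f' h1 h2 h3 h4 (σ.injective h5)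
    exact ⟨by rw [h6], h7, by rw [h8]⟩
  · obtain ⟨g, rfl⟩ := σ.surjective g
    obtain ⟨f, rfl⟩ := σ.surjective f
    rw [cl_map h] at h1
    rw [rw_map h] at h2
    rw [h, σ.apply_eq_iff_eq, σ.apply_eq_iff_eq]
    exact w.v01 g f h1 h2
  · obtain ⟨f, rfl⟩ := σ.surjective f
    rw [rw_map h] at h1
    obtain ⟨u, v, h3, h4, h5, h6⟩ := w.two f h1 (fun e => h2 (by rw [e]))
    refine ⟨σ u, σ v, (cl_map h _ _).2 h3, (cl_map h _ _).2 h4, fun e => h5 (σ.injective e),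
      fun g hg => ?_⟩
    obtain ⟨g, rfl⟩ := σ.surjective g
    rw [cl_map h] at hg
    rw [h, σ.apply_eq_iff_eq, σ.apply_eq_iff_eq, σ.apply_eq_iff_eq]
    exact h6 g hg
  · obtain ⟨f, rfl⟩ := σ.surjective f
    obtain ⟨f', rfl⟩ := σ.surjective f'
    rw [rw_map h] at h1 h2
    rw [w.ext f f' h1 h2 fun g hg => ?_]
    have := h3 (σ g) ((cl_map h _ _).2 hg)
    rw [h, h] at this
    exact σ.injective this
  · obtain ⟨f, rfl⟩ := σ.surjective f
    rw [rw_map h] at h1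
    obtain ⟨f', h3, h4, h5⟩ := w.dis f h1 (fun e => h2 (by rw [e]))
    refine ⟨σ f', (rw_map h _ _).2 h3, fun e => h4 (σ.injective e), fun g hg => ?_⟩
    obtain ⟨g, rfl⟩ := σ.surjective g
    rw [cl_map h] at hg
    rw [h, h, σ.apply_eq_iff_eq, σ.apply_eq_iff_eq]
    exact h5 g hg
  · obtain ⟨g, rfl⟩ := σ.surjective g
    rw [cl_map h] at h1
    obtain ⟨f, h3, h4⟩ := w.cov g h1 (fun e => h2 (by rw [e]))
    exact ⟨σ f, (rw_map h _ _).2 h3, by rw [h, h4]⟩
  · have := w.inf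
    exact Infinite.of_injective (fun u : {u // Cl y (t 0) u ∧ u ≠ t 0} =>
      (⟨σ u, (cl_map h _ _).2 u.2.1, fun e => u.2.2 (σ.injective e)⟩ :
        {u // Cl z (σ (t 0)) u ∧ u ≠ σ (t 0)})) fun u v huv =>
        Subtype.ext (σ.injective (congrArg Subtype.val huv))

end map

/-- vertices -/
def Vx (p : ℕ) (o : M → M → M) (u : M) : Prop := ∃ t, Wt p o t ∧ Cl o (t 0) u ∧ u ≠ t 0

/-- adjacency -/
def Aj (p : ℕ) (o : M → M → M) (u v : M) : Prop :=
  ∃ t, Wt p o t ∧ u ≠ v ∧ ∃ f, Rw o (t 0) f ∧ o f u = t 1 ∧ o f v = t 1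

/-- well formed codes -/
def W (p : ℕ) (o : M → M → M) : Prop := ∃ t, Wt p o t

section map2

variable {y : M → M → M} {z : N → N → N} {σ : M ≃ N}

theorem inv_map (h : ∀ a b, z (σ a) (σ b) = σ (y a b)) :
    ∀ a b, y (σ.symm a) (σ.symm b) = σ.symm (z a b) := by
  intro a b
  obtain ⟨a, rfl⟩ := σ.surjective a
  obtain ⟨b, rfl⟩ := σ.surjective b
  rw [h]
  simp only [σ.symm_apply_apply]

theorem vx_map1 (h : ∀ a b, z (σ a) (σ b) = σ (y a b)) {u : M} (hu : Vx p y u) : Vx p z (σ u) := by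
  obtain ⟨t, h1, h2, h3⟩ := hu
  exact ⟨_, h1.map h, (cl_map h _ _).2 h2, fun e => h3 (σ.injective e)⟩

theorem vx_map (h : ∀ a b, z (σ a) (σ b) = σ (y a b)) (u : M) : Vx p z (σ u) ↔ Vx p y u := by
  refine ⟨fun hu => ?_, vx_map1 h⟩
  have := vx_map1 (inv_map h) hu
  rwa [σ.symm_apply_apply] at this

theorem aj_map1 (h : ∀ a b, z (σ a) (σ b) = σ (y a b)) {u v : M} (hu : Aj p y u v) :
    Aj p z (σ u) (σ v) := by
  obtain ⟨t, h1, h2, f, h3, h4, h5⟩ := hu
  exact ⟨_, h1.map h, fun e => h2 (σ.injective e), σ f, (rw_map h _ _).2 h3, by rw [h, h4],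
    by rw [h, h5]⟩

theorem aj_map (h : ∀ a b, z (σ a) (σ b) = σ (y a b)) (u v : M) :
    Aj p z (σ u) (σ v) ↔ Aj p y u v := by
  refine ⟨fun hu => ?_, aj_map1 h⟩
  have := aj_map1 (inv_map h) hu
  rwa [σ.symm_apply_apply, σ.symm_apply_apply] at this

theorem w_map (h : ∀ a b, z (σ a) (σ b) = σ (y a b)) (hy : W p y) : W p z := by
  obtain ⟨t, h1⟩ := hy
  exact ⟨_, h1.map h⟩

end map2

/-! ### good matrices -/

/-- incidence matrices -/
structure GM {I K : Type} (P : K → I → ZMod p) (k0 : K) (i0 : I) : Prop where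
  n1 : ∀ i, P k0 i = 0
  n2 : ∀ k, P k i0 = 0
  v01 : ∀ k i, P k i = 0 ∨ P k i = 1
  two : ∀ k, k ≠ k0 → ∃ u v, u ≠ v ∧ ∀ i, (P k i = 1 ↔ i = u ∨ i = v)
  ext : ∀ k l, (∀ i, P k i = P l i) → k = l
  dis : ∀ k, k ≠ k0 → ∃ l, l ≠ k0 ∧ ∀ i, ¬ (P k i = 1 ∧ P l i = 1)
  cov : ∀ i, i ≠ i0 → ∃ k, P k i = 1
  inf : Infinite I

variable {I K : Type} {P : K → I → ZMod p} {k0 : K} {i0 : I}

theorem cl_rm (h : GM P k0 i0) (g : I × ZMod p × K) :
    Cl (rm p P) (i0, 0, k0) g ↔ ∃ i, g = (i, 0, k0) := by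
  obtain ⟨i, a, k⟩ := g
  unfold Cl rm
  constructor
  · rintro ⟨h1, h2⟩
    simp only [Prod.mk.injEq] at h1 h2
    obtain ⟨-, h3, h4⟩ := h2
    rw [h.n1, zero_add, zero_add] at h3
    exact ⟨i, by rw [h3, h4]⟩
  · rintro ⟨j, hj⟩
    simp only [Prod.mk.injEq] at hj
    obtain ⟨rfl, rfl, rfl⟩ := hj
    simp [h.n1]

theorem rw_rm (h : GM P k0 i0) (g : I × ZMod p × K) :
    Rw (rm p P) (i0, 0, k0) g ↔ ∃ k, g = (i0, 0, k) := by
  obtain ⟨i, a, k⟩ := g
  unfold Rw rm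
  constructor
  · rintro ⟨h1, h2⟩
    simp only [Prod.mk.injEq] at h1 h2
    obtain ⟨h4, h3, -⟩ := h1
    rw [h.n2, add_zero, add_zero] at h3
    exact ⟨k, by rw [h3, h4]⟩
  · rintro ⟨j, hj⟩
    simp only [Prod.mk.injEq] at hj
    obtain ⟨rfl, rfl, rfl⟩ := hj
    simp [h.n2, h.n1]

theorem wt_rm [Fact p.Prime] (h : GM P k0 i0) : Wt p (rm p P) (fun a => (i0, a, k0)) := by
  have hc := cl_rm h
  have hr := rw_rm h
  refine ⟨fun a b c => ?_, fun a b => ?_, fun s => ?_, fun g a f g' a' f' h1 h2 h3 h4 h5 => ?_,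
    fun g f h1 h2 => ?_, fun f h1 h2 => ?_, fun f f' h1 h2 h3 => ?_, fun f h1 h2 => ?_,
    fun g h1 h2 => ?_, ?_⟩
  · unfold rm
    simp only [Prod.mk.injEq, true_and, and_true]
    ring
  · unfold rm
    simp [h.n1]
  · obtain ⟨i, a, k⟩ := s
    refine ⟨(i, 0, k0), a, (i0, 0, k), (hc _).2 ⟨i, rfl⟩, (hr _).2 ⟨k, rfl⟩, ?_⟩
    unfold rm
    simp [h.n1]
  · obtain ⟨i, rfl⟩ := (hc _).1 h1
    obtain ⟨j, rfl⟩ := (hc _).1 h3
    obtain ⟨k, rfl⟩ := (hr _).1 h2
    obtain ⟨l, rfl⟩ := (hr _).1 h4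
    unfold rm at h5
    simp only [Prod.mk.injEq, h.n1, zero_add, add_zero] at h5
    obtain ⟨rfl, rfl, rfl⟩ := h5
    exact ⟨rfl, rfl, rfl⟩
  · obtain ⟨i, rfl⟩ := (hc _).1 h1
    obtain ⟨k, rfl⟩ := (hr _).1 h2
    rcases h.v01 k i with h3 | h3
    · left
      unfold rm
      simp [h3]
    · right
      unfold rm
      simp [h3]
  · obtain ⟨k, rfl⟩ := (hr _).1 h1
    obtain ⟨u, v, h3, h4⟩ := h.two k (fun e => h2 (by rw [e]))
    refine ⟨(u, 0, k0), (v, 0, k0), (hc _).2 ⟨u, rfl⟩, (hc _).2 ⟨v, rfl⟩, fun e => h3 ?_,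
      fun g hg => ?_⟩
    · simp only [Prod.mk.injEq] at e
      exact e.1
    · obtain ⟨i, rfl⟩ := (hc _).1 hg
      unfold rm
      simp [h4]
  · obtain ⟨k, rfl⟩ := (hr _).1 h1
    obtain ⟨l, rfl⟩ := (hr _).1 h2
    rw [h.ext k l fun i => ?_]
    have := h3 (i, 0, k0) ((hc _).2 ⟨i, rfl⟩)
    unfold rm at this
    simpa using this
  · obtain ⟨k, rfl⟩ := (hr _).1 h1
    obtain ⟨l, h3, h4⟩ := h.dis k (fun e => h2 (by rw [e]))
    refine ⟨(i0, 0, l), (hr _).2 ⟨l, rfl⟩, fun e => h3 ?_, fun g hg => ?_⟩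
    · simp only [Prod.mk.injEq] at e
      exact e.2.2
    · obtain ⟨i, rfl⟩ := (hc _).1 hg
      unfold rm
      simpa using h4 i
  · obtain ⟨i, rfl⟩ := (hc _).1 h1
    obtain ⟨k, h3⟩ := h.cov i (fun e => h2 (by rw [e]))
    refine ⟨(i0, 0, k), (hr _).2 ⟨k, rfl⟩, ?_⟩
    unfold rm
    simp [h3]
  · have := h.inf
    have h1 : Infinite {i : I // i ≠ i0} := by
      have : ({i0}ᶜ : Set I).Infinite := (Set.finite_singleton i0).infinite_compl
      exact Set.infinite_coe_iff.2 this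
    refine Infinite.of_injective (fun i : {i : I // i ≠ i0} =>
      (⟨(i.1, 0, k0), (hc _).2 ⟨i.1, rfl⟩, fun e => i.2 ?_⟩ :
        {u : I × ZMod p × K // Cl (rm p P) (i0, 0, k0) u ∧ u ≠ (i0, 0, k0)})) fun u v huv => ?_
    · simp only [Prod.mk.injEq] at e
      exact e.1
    · have := congrArg Subtype.val huv
      simp only [Prod.mk.injEq] at this
      exact Subtype.ext this.1

theorem star [Fact p.Prime] {τ : ZMod p → I × ZMod p × K} (w : Wt p (rm p P) τ) :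
    ∃ i1 k1 a2, τ 0 = (i1, - P k1 i1, k1) ∧ τ 1 = (i1, a2, k1) ∧
      ∀ k, k ≠ k1 → ∃ j1 j2, ∀ j, (P k j - P k1 j = a2 + P k i1 ↔ j = j1 ∨ j = j2) ∧
        (P k j - P k1 j = - P k1 i1 + P k i1 ∨ P k j - P k1 j = a2 + P k i1) := by
  obtain ⟨⟨i1, a1, k1⟩, e0⟩ : ∃ q, τ 0 = q := ⟨_, rfl⟩
  obtain ⟨⟨i2, a2, k2⟩, e1⟩ : ∃ q, τ 1 = q := ⟨_, rfl⟩
  have h1 := w.add 0 0
  have h2 := w.add 0 1
  have h3 := w.add 1 0
  rw [add_zero] at h1 h3
  rw [zero_add] at h2
  rw [e0, e1] at h2 h3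
  rw [e0] at h1
  unfold rm at h1 h2 h3
  simp only [Prod.mk.injEq] at h1 h2 h3
  obtain ⟨-, h1, -⟩ := h1
  obtain ⟨h2, -, -⟩ := h2
  obtain ⟨-, -, h3⟩ := h3
  subst h2
  subst h3
  have ha : a1 = - P k1 i1 := by linear_combination h1
  subst ha
  refine ⟨i1, k1, a2, e0, e1, fun k hk => ?_⟩
  have cl : ∀ j, Cl (rm p P) (τ 0) (j, - P k1 j, k1) := fun j => by
    rw [e0]
    unfold Cl rm
    simp
  have cl' : ∀ g, Cl (rm p P) (τ 0) g → ∃ j, g = (j, - P k1 j, k1) := by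
    rintro ⟨j, b, l⟩ hg
    rw [e0] at hg
    unfold Cl rm at hg
    simp only [Prod.mk.injEq] at hg
    obtain ⟨⟨-, h4, h5⟩, -, h6, -⟩ := hg
    subst h5
    refine ⟨j, ?_⟩
    rw [show b = - P k1 j by linear_combination h6]
  have hr : Rw (rm p P) (τ 0) (i1, - P k i1, k) := by
    rw [e0]
    unfold Rw rm
    simp
  have val : ∀ j, rm p P (i1, - P k i1, k) (j, - P k1 j, k1) =
      (i1, - P k i1 + P k j - P k1 j, k1) := fun j => by
    unfold rm
    simp only [Prod.mk.injEq, true_and, and_true]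
    ring
  obtain ⟨u, v, hu, hv, huv, h4⟩ := w.two _ hr (fun e => hk (by
    rw [e0] at e
    simp only [Prod.mk.injEq] at e
    exact e.2.2))
  obtain ⟨j1, rfl⟩ := cl' u hu
  obtain ⟨j2, rfl⟩ := cl' v hv
  refine ⟨j1, j2, fun j => ⟨?_, ?_⟩⟩
  · have h5 := h4 _ (cl j)
    rw [val, e1] at h5
    simp only [Prod.mk.injEq, true_and, and_true] at h5
    constructor
    · intro h6
      have h7 := h5.1 (by linear_combination h6)
      rcases h7 with h7 | h7
      · exact Or.inl h7.1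
      · exact Or.inr h7.1
    · intro h6
      have h7 := h5.2 (by
        rcases h6 with rfl | rfl
        · exact Or.inl ⟨rfl, rfl⟩
        · exact Or.inr ⟨rfl, rfl⟩)
      linear_combination h7
  · have h5 := w.v01 _ _ (cl j) hr
    rw [val, e1, e0] at h5
    simp only [Prod.mk.injEq, true_and, and_true] at h5
    rcases h5 with h5 | h5
    · left
      linear_combination h5
    · right
      linear_combination h5

theorem uniq [Fact p.Prime] (h : GM P k0 i0) {τ : ZMod p → I × ZMod p × K}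
    (w : Wt p (rm p P) τ) : τ 0 = (i0, 0, k0) ∧ τ 1 = (i0, 1, k0) := by
  classical
  have h10 : (1 : ZMod p) ≠ 0 := one_ne_zero
  have hI := h.inf
  obtain ⟨i1, k1, a2, e0, e1, hs⟩ := star w
  by_cases hk : k1 = k0
  · subst hk
    have h1 : ∀ k, k ≠ k1 → P k i1 = 0 := by
      intro k hk
      obtain ⟨j1, j2, hj⟩ := hs k hk
      obtain ⟨u, v, huv, h2⟩ := h.two k hk
      obtain ⟨w, hw⟩ := Infinite.exists_notMem_finset ({u, v, j1, j2} : Finset I)
      simp only [Finset.mem_insert, Finset.mem_singleton, not_or] at hw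
      obtain ⟨w1, w2, w3, w4⟩ := hw
      have h3 : P k w = 0 := by
        rcases h.v01 k w with h4 | h4
        · exact h4
        · rcases (h2 w).1 h4 with h5 | h5
          · exact absurd h5 w1
          · exact absurd h5 w2
      obtain ⟨h4, h5⟩ := hj w
      rcases h5 with h5 | h5
      · rw [h3, h.n1, h.n1] at h5
        linear_combination -h5
      · rcases h4.1 h5 with h6 | h6
        · exact absurd h6 w3
        · exact absurd h6 w4
    have h2 : i1 = i0 := by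
      by_contra hne
      obtain ⟨k, hk⟩ := h.cov i1 hne
      by_cases hk1 : k = k1
      · rw [hk1, h.n1] at hk
        exact h10 hk.symm
      · rw [h1 k hk1] at hk
        exact h10 hk.symm
    subst h2
    obtain ⟨i, hi⟩ := Infinite.exists_notMem_finset ({i1} : Finset I)
    simp only [Finset.mem_singleton] at hi
    obtain ⟨k, hk⟩ := h.cov i hi
    have hk1 : k ≠ k1 := by
      rintro rfl
      rw [h.n1] at hk
      exact h10 hk.symm
    obtain ⟨j1, j2, hj⟩ := hs k hk1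
    have h3 := ((hj j1).1).2 (Or.inl rfl)
    rw [h.n1, h1 k hk1, sub_zero, add_zero] at h3
    have h4 : a2 = 1 := by
      rcases h.v01 k j1 with h5 | h5
      · exfalso
        obtain ⟨u, v, huv, h2⟩ := h.two k hk1
        obtain ⟨w, hw⟩ := Infinite.exists_notMem_finset ({u, v, j1, j2} : Finset I)
        simp only [Finset.mem_insert, Finset.mem_singleton, not_or] at hw
        obtain ⟨w1, w2, w3, w4⟩ := hw
        have h6 : P k w = 0 := by
          rcases h.v01 k w with h4 | h4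
          · exact h4
          · rcases (h2 w).1 h4 with h5 | h5
            · exact absurd h5 w1
            · exact absurd h5 w2
        have h7 := ((hj w).1).1 (by rw [h6, h.n1, h1 k hk1, sub_zero, add_zero, ← h3, h5])
        rcases h7 with h7 | h7
        · exact w3 h7
        · exact w4 h7
      · rw [← h3, h5]
    refine ⟨?_, ?_⟩
    · rw [e0, h.n1, neg_zero]
    · rw [e1, h4]
  · exfalso
    obtain ⟨l, hl, hd⟩ := h.dis k1 hk
    obtain ⟨u, v, huv, h1⟩ := h.two k1 hk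
    obtain ⟨u', v', huv', h2⟩ := h.two l hl
    have hlk : l ≠ k1 := by
      rintro rfl
      exact hd u ⟨(h1 u).2 (Or.inl rfl), (h1 u).2 (Or.inl rfl)⟩
    have z1 : ∀ w, w ≠ u → w ≠ v → P k1 w = 0 := fun w w1 w2 => by
      rcases h.v01 k1 w with h4 | h4
      · exact h4
      · rcases (h1 w).1 h4 with h5 | h5
        · exact absurd h5 w1
        · exact absurd h5 w2
    have z2 : ∀ w, w ≠ u' → w ≠ v' → P l w = 0 := fun w w1 w2 => by
      rcases h.v01 l w with h4 | h4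
      · exact h4
      · rcases (h2 w).1 h4 with h5 | h5
        · exact absurd h5 w1
        · exact absurd h5 w2
    obtain ⟨j1, j2, hj⟩ := hs l hlk
    obtain ⟨w, hw⟩ := Infinite.exists_notMem_finset ({u, v, u', v', j1, j2} : Finset I)
    simp only [Finset.mem_insert, Finset.mem_singleton, not_or] at hw
    obtain ⟨w1, w2, w3, w4, w5, w6⟩ := hw
    have h3 : - P k1 i1 + P l i1 = 0 := by
      obtain ⟨h4, h5⟩ := hj w
      rcases h5 with h5 | h5
      · rw [z1 w w1 w2, z2 w w3 w4] at h5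
        linear_combination -h5
      · rcases h4.1 h5 with h6 | h6
        · exact absurd h6 w5
        · exact absurd h6 w6
    have k1' : ∀ j, P l j - P k1 j ≠ 0 → j = j1 ∨ j = j2 := fun j hne => by
      obtain ⟨h4, h5⟩ := hj j
      rcases h5 with h5 | h5
      · rw [h3] at h5
        exact absurd h5 hne
      · exact h4.1 h5
    have p1 : P l u' = 1 := (h2 u').2 (Or.inl rfl)
    have p2 : P l v' = 1 := (h2 v').2 (Or.inr rfl)
    have p3 : P k1 u = 1 := (h1 u).2 (Or.inl rfl)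
    have q1 : P k1 u' = 0 := by
      rcases h.v01 k1 u' with h4 | h4
      · exact h4
      · exact absurd ⟨h4, p1⟩ (hd u')
    have q2 : P k1 v' = 0 := by
      rcases h.v01 k1 v' with h4 | h4
      · exact h4
      · exact absurd ⟨h4, p2⟩ (hd v')
    have q3 : P l u = 0 := by
      rcases h.v01 l u with h4 | h4
      · exact h4
      · exact absurd ⟨p3, h4⟩ (hd u)
    have n1 : u' ≠ u := by
      rintro rfl
      rw [q1] at p3
      exact h10 p3.symm
    have n2 : v' ≠ u := by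
      rintro rfl
      rw [q2] at p3
      exact h10 p3.symm
    have r1 := k1' u' (by rw [p1, q1, sub_zero]; exact h10)
    have r2 := k1' v' (by rw [p2, q2, sub_zero]; exact h10)
    have r3 := k1' u (by rw [q3, p3, zero_sub]; exact neg_ne_zero.2 h10)
    rcases r1 with r1 | r1 <;> rcases r2 with r2 | r2 <;> rcases r3 with r3 | r3
    · exact huv' (r1.trans r2.symm)
    · exact huv' (r1.trans r2.symm)
    · exact n1 (r1.trans r3.symm)
    · exact n2 (r2.trans r3.symm)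
    · exact n2 (r2.trans r3.symm)
    · exact n1 (r1.trans r3.symm)
    · exact huv' (r1.trans r2.symm)
    · exact huv' (r1.trans r2.symm)

/-! ### the matrix of a code -/

section rees

variable {o : M → M → M} {t t' : ZMod p → M}

open Classical in
/-- the matrix -/
noncomputable def Pm (p : ℕ) (o : M → M → M) (t : ZMod p → M) (k : {f // Rw o (t 0) f})
    (i : {g // Cl o (t 0) g}) : ZMod p :=
  if o k.1 i.1 = t 1 then 1 else 0

theorem Wt.c0 (w : Wt p o t) : Cl o (t 0) (t 0) := by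
  have := w.add 0 0
  rw [add_zero] at this
  exact ⟨this, this⟩

theorem Wt.r0 (w : Wt p o t) : Rw o (t 0) (t 0) := by
  have := w.add 0 0
  rw [add_zero] at this
  exact ⟨this, this⟩

theorem Wt.inj (w : Wt p o t) {a b : ZMod p} (h : t a = t b) : a = b := by
  have h1 : ∀ a, o (o (t 0) (t a)) (t 0) = t a := fun a => by
    rw [w.add, w.add, zero_add, add_zero]
  exact (w.un _ a _ _ b _ w.c0 w.r0 w.c0 w.r0 (by rw [h])).2.1

theorem Wt.ne [Fact p.Prime] (w : Wt p o t) : t 0 ≠ t 1 := fun h => zero_ne_one (w.inj h)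

theorem Wt.val [Fact p.Prime] (w : Wt p o t) (k : {f // Rw o (t 0) f})
    (i : {g // Cl o (t 0) g}) : o k.1 i.1 = t (Pm p o t k i) := by
  unfold Pm
  split_ifs with h
  · exact h
  · exact (w.v01 _ _ i.2 k.2).resolve_right h

theorem pm_one [Fact p.Prime] {k : {f // Rw o (t 0) f}}
    {i : {g // Cl o (t 0) g}} : Pm p o t k i = 1 ↔ o k.1 i.1 = t 1 := by
  unfold Pm
  split_ifs with h
  · simp [h]
  · simp [h]

theorem Wt.rees [Fact p.Prime] (w : Wt p o t) :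
    ∃ F : {g // Cl o (t 0) g} × ZMod p × {f // Rw o (t 0) f} ≃ M,
      (∀ g a f, F (g, a, f) = o (o g.1 (t a)) f.1) ∧
      ∀ x y, o (F x) (F y) = F (rm p (Pm p o t) x y) := by
  let F : {g // Cl o (t 0) g} × ZMod p × {f // Rw o (t 0) f} → M :=
    fun q => o (o q.1.1 (t q.2.1)) q.2.2.1
  have hF : Function.Bijective F := by
    constructor
    · rintro ⟨⟨g, hg⟩, a, ⟨f, hf⟩⟩ ⟨⟨g', hg'⟩, a', ⟨f', hf'⟩⟩ h
      obtain ⟨rfl, rfl, rfl⟩ := w.un _ _ _ _ _ _ hg hf hg' hf' h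
      rfl
    · intro s
      obtain ⟨g, a, f, h1, h2, h3⟩ := w.ex s
      exact ⟨(⟨g, h1⟩, a, ⟨f, h2⟩), h3⟩
  refine ⟨Equiv.ofBijective F hF, fun _ _ _ => rfl, ?_⟩
  rintro ⟨g, a, f⟩ ⟨g', b, f'⟩
  show o (o (o g.1 (t a)) f.1) (o (o g'.1 (t b)) f'.1) =
    o (o g.1 (t (a + Pm p o t f g' + b))) f'.1
  have h1 : ∀ x, o f.1 (o g'.1 x) = o (t (Pm p o t f g')) x := fun x => by
    rw [← w.as, w.val]
  rw [w.as, w.as, w.as g'.1, h1, ← w.as (t _) (t _), w.add, ← w.as (t _) (t _), w.add, ← w.as]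

theorem Wt.gm [Fact p.Prime] (w : Wt p o t) :
    GM (Pm p o t) ⟨t 0, w.r0⟩ ⟨t 0, w.c0⟩ := by
  have n1 : ∀ i, Pm p o t ⟨t 0, w.r0⟩ i = 0 := fun i => by
    unfold Pm
    rw [if_neg]
    show ¬ o (t 0) i.1 = t 1
    rw [i.2.2]
    exact w.ne
  have v01 : ∀ k i, Pm p o t k i = 0 ∨ Pm p o t k i = 1 := fun k i => by
    unfold Pm
    split_ifs
    · exact Or.inr rfl
    · exact Or.inl rfl
  refine ⟨n1, fun k => ?_, v01, fun k hk => ?_, fun k l h => ?_, fun k hk => ?_, fun i hi => ?_,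
    ?_⟩
  · unfold Pm
    rw [if_neg]
    show ¬ o k.1 (t 0) = t 1
    rw [k.2.1]
    exact w.ne
  · obtain ⟨u, v, hu, hv, huv, h⟩ := w.two k.1 k.2 (fun e => hk (Subtype.ext e))
    refine ⟨⟨u, hu⟩, ⟨v, hv⟩, fun e => huv (congrArg Subtype.val e), fun i => ?_⟩
    rw [pm_one, h i.1 i.2]
    refine or_congr ⟨fun e => Subtype.ext e, fun e => by rw [e]⟩
      ⟨fun e => Subtype.ext e, fun e => by rw [e]⟩
  · refine Subtype.ext (w.ext _ _ k.2 l.2 fun g hg => ?_)
    have := h ⟨g, hg⟩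
    have h1 := w.val k ⟨g, hg⟩
    have h2 := w.val l ⟨g, hg⟩
    rw [this] at h1
    exact h1.trans h2.symm
  · obtain ⟨f', h1, h2, h3⟩ := w.dis k.1 k.2 (fun e => hk (Subtype.ext e))
    refine ⟨⟨f', h1⟩, fun e => h2 (congrArg Subtype.val e), fun i => ?_⟩
    rw [pm_one, pm_one]
    exact h3 i.1 i.2
  · obtain ⟨f, h1, h2⟩ := w.cov i.1 i.2 (fun e => hi (Subtype.ext e))
    exact ⟨⟨f, h1⟩, pm_one.2 h2⟩
  · have := w.inf
    exact Infinite.of_injective (fun u : {u // Cl o (t 0) u ∧ u ≠ t 0} =>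
      (⟨u.1, u.2.1⟩ : {g // Cl o (t 0) g})) fun u v huv => by
        have h1 := congrArg Subtype.val huv
        exact Subtype.ext h1

theorem Wt.uniq [Fact p.Prime] (w : Wt p o t) (w' : Wt p o t') : t' 0 = t 0 ∧ t' 1 = t 1 := by
  obtain ⟨F, h1, h2⟩ := w.rees
  have h3 : ∀ a b, rm p (Pm p o t) (F.symm a) (F.symm b) = F.symm (o a b) := fun a b => by
    rw [Equiv.eq_symm_apply, ← h2, F.apply_symm_apply, F.apply_symm_apply]
  have h4 := w'.map h3
  obtain ⟨h5, h6⟩ := CC.uniq w.gm h4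
  have h7 : ∀ a, o (o (t 0) (t a)) (t 0) = t a := fun a => by
    rw [w.add, w.add, zero_add, add_zero]
  refine ⟨?_, ?_⟩
  · have := congrArg F h5
    rw [F.apply_symm_apply, h1] at this
    rw [this]
    exact h7 0
  · have := congrArg F h6
    rw [F.apply_symm_apply, h1] at this
    rw [this]
    exact h7 1

theorem Wt.vx_iff [Fact p.Prime] (w : Wt p o t) (u : M) :
    Vx p o u ↔ Cl o (t 0) u ∧ u ≠ t 0 := by
  constructor
  · rintro ⟨t', w', h⟩
    rw [(w.uniq w').1] at h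
    exact h
  · intro h
    exact ⟨t, w, h⟩

theorem Wt.aj_iff [Fact p.Prime] (w : Wt p o t) (u v : M) :
    Aj p o u v ↔ u ≠ v ∧ ∃ f, Rw o (t 0) f ∧ o f u = t 1 ∧ o f v = t 1 := by
  constructor
  · rintro ⟨t', w', h⟩
    rw [(w.uniq w').1, (w.uniq w').2] at h
    exact h
  · intro h
    exact ⟨t, w, h⟩

end rees

/-- adjacency of columns -/
def Ad {I K : Type} (P : K → I → ZMod p) (u v : I) : Prop := u ≠ v ∧ ∃ k, P k u = 1 ∧ P k v = 1

theorem row_lift [Fact p.Prime] {J L : Type} {Q : L → J → ZMod p} {l0 : L} {j0 : J}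
    (hP : GM P k0 i0) (hQ : GM Q l0 j0) (ι : I ≃ J)
    (h : ∀ u v, Ad P u v → Ad Q (ι u) (ι v)) (k : K) : ∃ l, ∀ i, Q l (ι i) = P k i := by
  have h10 : (1 : ZMod p) ≠ 0 := one_ne_zero
  by_cases hk : k = k0
  · subst hk
    exact ⟨l0, fun i => by rw [hQ.n1, hP.n1]⟩
  · obtain ⟨u, v, huv, h1⟩ := hP.two k hk
    obtain ⟨-, l, h2, h3⟩ := h u v ⟨huv, k, (h1 u).2 (Or.inl rfl), (h1 v).2 (Or.inr rfl)⟩
    have hl : l ≠ l0 := by
      rintro rfl
      rw [hQ.n1] at h2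
      exact h10 h2.symm
    obtain ⟨u', v', huv', h4⟩ := hQ.two l hl
    have h5 : ∀ i, Q l (ι i) = 1 ↔ P k i = 1 := fun i => by
      rw [h4, h1]
      have e1 := (h4 _).1 h2
      have e2 := (h4 _).1 h3
      have hne : ι u ≠ ι v := fun e => huv (ι.injective e)
      rcases e1 with e1 | e1 <;> rcases e2 with e2 | e2
      · exact absurd (e1.trans e2.symm) hne
      · rw [← e1, ← e2, ι.apply_eq_iff_eq, ι.apply_eq_iff_eq]
      · rw [← e1, ← e2, ι.apply_eq_iff_eq, ι.apply_eq_iff_eq]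
        exact or_comm
      · exact absurd (e1.trans e2.symm) hne
    refine ⟨l, fun i => ?_⟩
    rcases hP.v01 k i with h6 | h6
    · rcases hQ.v01 l (ι i) with h7 | h7
      · rw [h6, h7]
      · rw [(h5 i).1 h7, h7]
    · rw [h6, (h5 i).2 h6]

theorem gm_iso [Fact p.Prime] {J L : Type} {Q : L → J → ZMod p} {l0 : L} {j0 : J}
    (hP : GM P k0 i0) (hQ : GM Q l0 j0) (ι : I ≃ J)
    (h : ∀ u v, Ad P u v ↔ Ad Q (ι u) (ι v)) : ∃ κ : K ≃ L, ∀ k i, Q (κ k) (ι i) = P k i := by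
  refine equiv_of_rel (fun k l => ∀ i, Q l (ι i) = P k i)
    (row_lift hP hQ ι fun u v => (h u v).1) (fun l => ?_) (fun k l l' h1 h2 => ?_)
    (fun k k' l h1 h2 => ?_)
  · obtain ⟨k, hk⟩ := row_lift hQ hP ι.symm (fun u v huv => by
      rw [h, ι.apply_symm_apply, ι.apply_symm_apply]
      exact huv) l
    refine ⟨k, fun i => ?_⟩
    have := hk (ι i)
    rw [ι.symm_apply_apply] at this
    exact this.symm
  · refine hQ.ext _ _ fun j => ?_
    obtain ⟨i, rfl⟩ := ι.surjective j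
    rw [h1, h2]
  · refine hP.ext _ _ fun i => ?_
    rw [← h1, ← h2]

theorem rm_iso {J L : Type} {Q : L → J → ZMod p} (ι : I ≃ J) (κ : K ≃ L)
    (h : ∀ k i, Q (κ k) (ι i) = P k i) : ∃ σ : I × ZMod p × K ≃ J × ZMod p × L,
      ∀ x y, rm p Q (σ x) (σ y) = σ (rm p P x y) := by
  refine ⟨ι.prodCongr ((Equiv.refl _).prodCongr κ), ?_⟩
  rintro ⟨i, a, k⟩ ⟨j, b, l⟩
  show (ι i, a + Q (κ k) (ι j) + b, κ l) = (ι i, a + P k j + b, κ l)
  rw [h]

/-- isomorphic graphs of vertices give isomorphic codes -/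
theorem lift_iso [Fact p.Prime] {y : M → M → M} {z : N → N → N} {t : ZMod p → M}
    {t' : ZMod p → N} (wy : Wt p y t) (wz : Wt p z t')
    (π : {u // Vx p y u} ≃ {u // Vx p z u})
    (hπ : ∀ u v : {u // Vx p y u}, Aj p y u v ↔ Aj p z (π u) (π v)) :
    ∃ σ : M ≃ N, ∀ a b, z (σ a) (σ b) = σ (y a b) := by
  have vy := wy.vx_iff
  have vz := wz.vx_iff
  obtain ⟨ι, hι⟩ := equiv_of_rel (fun (g : {g // Cl y (t 0) g}) (g' : {g // Cl z (t' 0) g}) =>
    (g.1 = t 0 ∧ g'.1 = t' 0) ∨ ∃ h : Vx p y g.1, (π ⟨g.1, h⟩).1 = g'.1)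
    (fun g => by
      by_cases hg : g.1 = t 0
      · exact ⟨⟨t' 0, wz.c0⟩, Or.inl ⟨hg, rfl⟩⟩
      · exact ⟨⟨_, ((vz _).1 (π ⟨g.1, (vy _).2 ⟨g.2, hg⟩⟩).2).1⟩, Or.inr ⟨(vy _).2 ⟨g.2, hg⟩, rfl⟩⟩)
    (fun g' => by
      by_cases hg : g'.1 = t' 0
      · exact ⟨⟨t 0, wy.c0⟩, Or.inl ⟨rfl, hg⟩⟩
      · obtain ⟨u, hu⟩ := π.surjective ⟨g'.1, (vz _).2 ⟨g'.2, hg⟩⟩
        refine ⟨⟨u.1, ((vy _).1 u.2).1⟩, Or.inr ⟨u.2, ?_⟩⟩
        show (π u).1 = g'.1
        rw [hu])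
    (fun g g' g'' h1 h2 => by
      rcases h1 with ⟨h1, h3⟩ | ⟨h1, h3⟩ <;> rcases h2 with ⟨h2, h4⟩ | ⟨h2, h4⟩
      · exact Subtype.ext (h3.trans h4.symm)
      · exact absurd h1 ((vy _).1 h2).2
      · exact absurd h2 ((vy _).1 h1).2
      · exact Subtype.ext (h3.symm.trans h4))
    (fun g g' g'' h1 h2 => by
      rcases h1 with ⟨h1, h3⟩ | ⟨h1, h3⟩ <;> rcases h2 with ⟨h2, h4⟩ | ⟨h2, h4⟩
      · exact Subtype.ext (h1.trans h2.symm)
      · exact absurd (h4.trans h3) ((vz _).1 (π ⟨g'.1, h2⟩).2).2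
      · exact absurd (h3.trans h4) ((vz _).1 (π ⟨g.1, h1⟩).2).2
      · have h5 := π.injective (Subtype.ext (h3.trans h4.symm))
        have h6 := congrArg Subtype.val h5
        exact Subtype.ext h6)
  have hb : ∀ g : {g // Cl y (t 0) g}, g.1 = t 0 ↔ (ι g).1 = t' 0 := fun g => by
    rcases hι g with ⟨h1, h2⟩ | ⟨h1, h2⟩
    · exact ⟨fun _ => h2, fun _ => h1⟩
    · constructor
      · intro h3
        exact absurd h3 ((vy _).1 h1).2
      · intro h3
        exact absurd (h2.trans h3) ((vz _).1 (π ⟨g.1, h1⟩).2).2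
  have hv : ∀ (g : {g // Cl y (t 0) g}) (h : Vx p y g.1), (ι g).1 = (π ⟨g.1, h⟩).1 :=
    fun g h => by
      rcases hι g with ⟨h1, h2⟩ | ⟨h1, h2⟩
      · exact absurd h1 ((vy _).1 h).2
      · exact h2.symm
  have key : ∀ u v, Ad (Pm p y t) u v ↔ Ad (Pm p z t') (ι u) (ι v) := by
    intro u v
    have hy0 : ∀ f, Rw y (t 0) f → y f (t 0) ≠ t 1 := fun f hf => by
      rw [hf.1]
      exact wy.ne
    have hz0 : ∀ f, Rw z (t' 0) f → z f (t' 0) ≠ t' 1 := fun f hf => by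
      rw [hf.1]
      exact wz.ne
    by_cases hu : u.1 = t 0
    · refine iff_of_false ?_ ?_
      · rintro ⟨-, k, h1, -⟩
        rw [pm_one, hu] at h1
        exact hy0 _ k.2 h1
      · rintro ⟨-, k, h1, -⟩
        rw [pm_one, (hb u).1 hu] at h1
        exact hz0 _ k.2 h1
    by_cases hv' : v.1 = t 0
    · refine iff_of_false ?_ ?_
      · rintro ⟨-, k, -, h1⟩
        rw [pm_one, hv'] at h1
        exact hy0 _ k.2 h1
      · rintro ⟨-, k, -, h1⟩
        rw [pm_one, (hb v).1 hv'] at h1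
        exact hz0 _ k.2 h1
    have xu := (vy _).2 ⟨u.2, hu⟩
    have xv := (vy _).2 ⟨v.2, hv'⟩
    have h1 := hπ ⟨u.1, xu⟩ ⟨v.1, xv⟩
    rw [wy.aj_iff, wz.aj_iff, ← hv u xu, ← hv v xv] at h1
    have e1 : Ad (Pm p y t) u v ↔
        (u.1 ≠ v.1 ∧ ∃ f, Rw y (t 0) f ∧ y f u.1 = t 1 ∧ y f v.1 = t 1) := by
      refine and_congr (not_congr ⟨fun e => by rw [e], fun e => Subtype.ext e⟩) ?_
      constructor
      · rintro ⟨k, h1, h2⟩
        exact ⟨k.1, k.2, pm_one.1 h1, pm_one.1 h2⟩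
      · rintro ⟨k, h0, h1, h2⟩
        exact ⟨⟨k, h0⟩, pm_one.2 h1, pm_one.2 h2⟩
    have e2 : Ad (Pm p z t') (ι u) (ι v) ↔
        ((ι u).1 ≠ (ι v).1 ∧ ∃ f, Rw z (t' 0) f ∧ z f (ι u).1 = t' 1 ∧ z f (ι v).1 = t' 1) := by
      refine and_congr (not_congr ⟨fun e => by rw [e], fun e => Subtype.ext e⟩) ?_
      constructor
      · rintro ⟨k, h1, h2⟩
        exact ⟨k.1, k.2, pm_one.1 h1, pm_one.1 h2⟩
      · rintro ⟨k, h0, h1, h2⟩
        exact ⟨⟨k, h0⟩, pm_one.2 h1, pm_one.2 h2⟩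
    rw [e1, e2]
    exact h1
  obtain ⟨κ, hκ⟩ := gm_iso wy.gm wz.gm ι key
  obtain ⟨τ, hτ⟩ := rm_iso ι κ hκ
  obtain ⟨F, -, hF⟩ := wy.rees
  obtain ⟨F', -, hF'⟩ := wz.rees
  refine ⟨(F.symm.trans τ).trans F', fun a b => ?_⟩
  obtain ⟨a, rfl⟩ := F.surjective a
  obtain ⟨b, rfl⟩ := F.surjective b
  simp only [Equiv.trans_apply, F.symm_apply_apply, hF, hF', hτ]

end gen

/-! ### measurability -/

section meas

theorem meas_app {F G : Bin → ℕ} (hF : Measurable F) (hG : Measurable G) :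
    Measurable (fun o : Bin => o (F o) (G o)) := by
  refine measurable_to_countable' fun n => ?_
  have h0 : ∀ a b, BP (fun o : Bin => o a b = n) := fun a b => by
    have h : Measurable fun o : Bin => o a b := (measurable_pi_apply b).comp (measurable_pi_apply a)
    exact h (measurableSet_singleton n)
  have h1 : BP (fun o : Bin => ∃ a b, F o = a ∧ G o = b ∧ o a b = n) :=
    BP.ex fun a => BP.ex fun b => (show BP _ from hF (measurableSet_singleton a)).and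
      ((show BP _ from hG (measurableSet_singleton b)).and (h0 a b))
  refine (congrArg MeasurableSet (Set.ext fun o => ?_)).mp h1
  constructor
  · rintro ⟨a, b, h2, h3, h4⟩
    have h2' : F o = a := h2
    have h3' : G o = b := h3
    subst h2'
    subst h3'
    exact h4
  · intro h
    exact ⟨_, _, rfl, rfl, h⟩

theorem bpe {F G : Bin → ℕ} (hF : Measurable F) (hG : Measurable G) :
    BP (fun o : Bin => F o = G o) := measurableSet_eq_fun hF hG

theorem mc (n : ℕ) : Measurable (fun _ : Bin => n) := measurable_const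

theorem bp_cl (c g : ℕ) : BP (fun o : Bin => Cl o c g) :=
  (bpe (meas_app (mc g) (mc c)) (mc g)).and (bpe (meas_app (mc c) (mc g)) (mc c))

theorem bp_rw (c g : ℕ) : BP (fun o : Bin => Rw o c g) :=
  (bpe (meas_app (mc g) (mc c)) (mc c)).and (bpe (meas_app (mc c) (mc g)) (mc g))

theorem bp_wt {p : ℕ} (t : ZMod p → ℕ) [Fact p.Prime] : BP (fun o : Bin => Wt p o t) := by
  have mx : ∀ f g, Measurable fun o : Bin => o f g := fun f g => meas_app (mc f) (mc g)
  have m3 : ∀ g a f, Measurable fun o : Bin => o (o g (t a)) f := fun g a f =>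
    meas_app (mx _ _) (mc f)
  have : BP (fun o : Bin => (∀ x y z, o (o x y) z = o x (o y z)) ∧
      (∀ a b, o (t a) (t b) = t (a + b)) ∧
      (∀ s, ∃ g a f, Cl o (t 0) g ∧ Rw o (t 0) f ∧ o (o g (t a)) f = s) ∧
      (∀ g a f g' a' f', Cl o (t 0) g → Rw o (t 0) f → Cl o (t 0) g' → Rw o (t 0) f' →
        o (o g (t a)) f = o (o g' (t a')) f' → g = g' ∧ a = a' ∧ f = f') ∧
      (∀ g f, Cl o (t 0) g → Rw o (t 0) f → o f g = t 0 ∨ o f g = t 1) ∧
      (∀ f, Rw o (t 0) f → f ≠ t 0 → ∃ u v, Cl o (t 0) u ∧ Cl o (t 0) v ∧ u ≠ v ∧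
        ∀ g, Cl o (t 0) g → (o f g = t 1 ↔ g = u ∨ g = v)) ∧
      (∀ f f', Rw o (t 0) f → Rw o (t 0) f' → (∀ g, Cl o (t 0) g → (o f g = o f' g)) → f = f') ∧
      (∀ f, Rw o (t 0) f → f ≠ t 0 → ∃ f', Rw o (t 0) f' ∧ f' ≠ t 0 ∧
        ∀ g, Cl o (t 0) g → ¬ (o f g = t 1 ∧ o f' g = t 1)) ∧
      (∀ g, Cl o (t 0) g → g ≠ t 0 → ∃ f, Rw o (t 0) f ∧ o f g = t 1) ∧
      ∀ N, ∃ u, N ≤ u ∧ (Cl o (t 0) u ∧ u ≠ t 0)) :=
    (BP.all fun x => BP.all fun y => BP.all fun z => bpe (meas_app (mx x y) (mc z))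
      (meas_app (mc x) (mx y z))).and <|
    (BP.all fun a => BP.all fun b => bpe (mx _ _) (mc _)).and <|
    (BP.all fun s => BP.ex fun g => BP.ex fun a => BP.ex fun f => (bp_cl _ _).and <|
      (bp_rw _ _).and (bpe (m3 _ _ _) (mc _))).and <|
    (BP.all fun g => BP.all fun a => BP.all fun f => BP.all fun g' => BP.all fun a' =>
      BP.all fun f' => (bp_cl _ _).imp <| (bp_rw _ _).imp <| (bp_cl _ _).imp <|
      (bp_rw _ _).imp <| (bpe (m3 _ _ _) (m3 _ _ _)).imp (BP.const _)).and <|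
    (BP.all fun g => BP.all fun f => (bp_cl _ _).imp <| (bp_rw _ _).imp <|
      (bpe (mx _ _) (mc _)).or (bpe (mx _ _) (mc _))).and <|
    (BP.all fun f => (bp_rw _ _).imp <| (BP.const _).imp <| BP.ex fun u => BP.ex fun v =>
      (bp_cl _ _).and <| (bp_cl _ _).and <| (BP.const _).and <| BP.all fun g => (bp_cl _ _).imp <|
        (bpe (mx _ _) (mc _)).iff (BP.const _)).and <|
    (BP.all fun f => BP.all fun f' => (bp_rw _ _).imp <| (bp_rw _ _).imp <|
      (BP.all fun g => (bp_cl _ _).imp (bpe (mx _ _) (mx _ _))).imp (BP.const _)).and <|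
    (BP.all fun f => (bp_rw _ _).imp <| (BP.const _).imp <| BP.ex fun f' => (bp_rw _ _).and <|
      (BP.const _).and <| BP.all fun g => (bp_cl _ _).imp <|
        ((bpe (mx _ _) (mc _)).and (bpe (mx _ _) (mc _))).not).and <|
    (BP.all fun g => (bp_cl _ _).imp <| (BP.const _).imp <| BP.ex fun f => (bp_rw _ _).and
      (bpe (mx _ _) (mc _))).and <|
    BP.all fun N => BP.ex fun u => (BP.const _).and ((bp_cl _ _).and (BP.const _))
  refine this.congr fun o => ⟨?_, ?_⟩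
  · rintro ⟨h1, h2, h3, h4, h5, h6, h7, h8, h9, h10⟩
    exact ⟨h1, h2, h3, h4, h5, h6, h7, h8, h9, Pool.Agent.W889.SD.inf_of h10⟩
  · intro h
    exact ⟨h.as, h.add, h.ex, h.un, h.v01, h.two, h.ext, h.dis, h.cov,
      Pool.Agent.W889.SD.of_inf h.inf⟩

theorem bp_vx {p : ℕ} [Fact p.Prime] (u : ℕ) : BP (fun o : Bin => Vx p o u) :=
  BP.ex fun t => (bp_wt t).and ((bp_cl _ _).and (BP.const _))

theorem bp_aj {p : ℕ} [Fact p.Prime] (u v : ℕ) : BP (fun o : Bin => Aj p o u v) :=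
  BP.ex fun t => (bp_wt t).and ((BP.const _).and (BP.ex fun f => (bp_rw _ _).and
    ((bpe (meas_app (mc _) (mc _)) (mc _)).and (bpe (meas_app (mc _) (mc _)) (mc _)))))

theorem bp_W {p : ℕ} [Fact p.Prime] : BP (fun o : Bin => W p o) :=
  BP.ex fun t => bp_wt t

end meas

/-! ### the code of a graph -/

section graph

/-- edges -/
abbrev Ed (g : BinStr) : Type := {q : ℕ × ℕ // q.1 < q.2 ∧ g q.1 q.2 = true}

/-- the incidence matrix -/
def Pg (p : ℕ) (g : BinStr) : Option (Ed g) → Option ℕ → ZMod p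
  | some q, some v => if v = q.1.1 ∨ v = q.1.2 then 1 else 0
  | _, _ => 0

theorem ed_ex {g : BinStr} (hg : IsGraph g) {v w : ℕ} (h : g v w = true) :
    ∃ q : Ed g, ∀ u, (u = q.1.1 ∨ u = q.1.2) ↔ (u = v ∨ u = w) := by
  rcases lt_trichotomy v w with h1 | h1 | h1
  · exact ⟨⟨(v, w), h1, h⟩, fun u => Iff.rfl⟩
  · subst h1
    rw [hg.irrefl] at h
    exact absurd h (by decide)
  · exact ⟨⟨(w, v), h1, hg.symm _ _ h⟩, fun u => or_comm⟩

theorem pg_one {p : ℕ} [Fact p.Prime] {g : BinStr} (q : Ed g) (v : ℕ) :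
    Pg p g (some q) (some v) = 1 ↔ (v = q.1.1 ∨ v = q.1.2) := by
  show (if v = q.1.1 ∨ v = q.1.2 then (1 : ZMod p) else 0) = 1 ↔ _
  split_ifs with h
  · simp [h]
  · simp [h]

theorem pg_n2 {p : ℕ} {g : BinStr} (k : Option (Ed g)) : Pg p g k none = 0 := by
  rcases k with _ | k <;> rfl

theorem gm_pg {p : ℕ} [Fact p.Prime] {g : BinStr} (hg : IsGraph g) (hB : ∀ u, Big (rel g) u) :
    GM (Pg p g) none none := by
  have h10 : (1 : ZMod p) ≠ 0 := one_ne_zero
  have n2 := pg_n2 (p := p) (g := g)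
  have v01 : ∀ k i, Pg p g k i = 0 ∨ Pg p g k i = 1 := by
    rintro (_ | k) (_ | i)
    · exact Or.inl rfl
    · exact Or.inl rfl
    · exact Or.inl rfl
    · show (if _ then (1 : ZMod p) else 0) = 0 ∨ (if _ then (1 : ZMod p) else 0) = 1
      split_ifs
      · exact Or.inr rfl
      · exact Or.inl rfl
  refine ⟨fun i => rfl, n2, v01, fun k hk => ?_, fun k l h => ?_, fun k hk => ?_, fun i hi => ?_,
    inferInstance⟩
  · obtain ⟨q, rfl⟩ := Option.ne_none_iff_exists'.1 hk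
    refine ⟨some q.1.1, some q.1.2, fun e => ?_, ?_⟩
    · have := q.2.1
      rw [Option.some.inj e] at this
      exact lt_irrefl _ this
    · rintro (_ | i)
      · rw [n2]
        constructor
        · intro h
          exact absurd h.symm h10
        · rintro (h | h)
          · exact absurd h (by simp)
          · exact absurd h (by simp)
      · rw [pg_one, Option.some_inj, Option.some_inj]
  · rcases k with _ | q <;> rcases l with _ | q'
    · rfl
    · exfalso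
      have := h (some q'.1.1)
      rw [(pg_one q' _).2 (Or.inl rfl)] at this
      exact h10 this.symm
    · exfalso
      have := h (some q.1.1)
      rw [(pg_one q _).2 (Or.inl rfl)] at this
      exact h10 this
    · have h1 : ∀ v, (v = q.1.1 ∨ v = q.1.2) ↔ (v = q'.1.1 ∨ v = q'.1.2) := fun v => by
        rw [← pg_one (p := p), ← pg_one (p := p), h]
      have a1 := (h1 q.1.1).1 (Or.inl rfl)
      have a2 := (h1 q.1.2).1 (Or.inr rfl)
      have a3 := q.2.1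
      have a4 := q'.2.1
      congr 1
      refine Subtype.ext (Prod.ext ?_ ?_) <;> omega
  · obtain ⟨q, rfl⟩ := Option.ne_none_iff_exists'.1 hk
    obtain ⟨⟨a, b⟩, hq⟩ := q
    have hab : a < b := hq.1
    obtain ⟨x, y, z, h1, h2, h3, h4, h5, h6⟩ := hB (b + 1)
    have h7 : ∃ w, g (b + 1) w = true ∧ w ≠ a ∧ w ≠ b := by
      by_cases hx : x = a ∨ x = b
      · by_cases hy : y = a ∨ y = b
        · refine ⟨z, h6, ?_, ?_⟩ <;> omega
        · exact ⟨y, h5, fun e => hy (Or.inl e), fun e => hy (Or.inr e)⟩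
      · exact ⟨x, h4, fun e => hx (Or.inl e), fun e => hx (Or.inr e)⟩
    obtain ⟨w, hw, w1, w2⟩ := h7
    obtain ⟨q', hq'⟩ := ed_ex hg hw
    refine ⟨some q', by simp, ?_⟩
    rintro (_ | i)
    · rintro ⟨h, -⟩
      rw [n2] at h
      exact h10 h.symm
    · rw [pg_one, pg_one, hq']
      show ¬ ((i = a ∨ i = b) ∧ _)
      omega
  · obtain ⟨v, rfl⟩ := Option.ne_none_iff_exists'.1 hi
    obtain ⟨x, -, -, -, -, -, h, -⟩ := hB v
    obtain ⟨q, hq⟩ := ed_ex hg h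
    exact ⟨some q, (pg_one _ _).2 ((hq v).2 (Or.inl rfl))⟩

end graph

/-- the graph of a code -/
noncomputable def gr (p : ℕ) : Bin → BinStr :=
  dc (fun y u => Vx p y u) (fun y u v => Aj p y u v)

theorem W.inf {p : ℕ} [Fact p.Prime] {y : Bin} (h : W p y) : ∀ N, ∃ u, N ≤ u ∧ Vx p y u := by
  obtain ⟨t, w⟩ := h
  intro N
  obtain ⟨u, h1, h2⟩ := Pool.Agent.W889.SD.of_inf w.inf N
  exact ⟨u, h1, (w.vx_iff u).2 h2⟩

theorem gr_iso {p : ℕ} [Fact p.Prime] {y z : Bin} (wy : W p y) (wz : W p z) :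
    OIso y z ↔ BIso (gr p y) (gr p z) := by
  unfold gr
  rw [dc_iso (P := fun y u => Vx p y u) (A := fun y u v => Aj p y u v) wy.inf wz.inf]
  constructor
  · rintro ⟨σ, h⟩
    refine ⟨σ.subtypeEquiv fun u => (vx_map h u).symm, fun u v => ?_⟩
    exact (aj_map h _ _).symm
  · rintro ⟨π, hπ⟩
    obtain ⟨t, wy⟩ := wy
    obtain ⟨t', wz⟩ := wz
    exact lift_iso wy wz π hπ

theorem gr_ex {p : ℕ} [Fact p.Prime] {g : BinStr} (hg : IsGraph g)
    (hB : ∀ u, Big (rel g) u) : ∃ y : Bin, W p y ∧ BIso (gr p y) g := by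
  have hG := gm_pg (p := p) hg hB
  have w := wt_rm hG
  have hc := cl_rm hG
  have hr := rw_rm hG
  obtain ⟨σ⟩ : Nonempty (Option ℕ × ZMod p × Option (Ed g) ≃ ℕ) := nonempty_equiv_of_countable
  let y : Bin := fun m n => σ (rm p (Pg p g) (σ.symm m) (σ.symm n))
  have h : ∀ a b, y (σ a) (σ b) = σ (rm p (Pg p g) a b) := fun a b => by
    show σ (rm p (Pg p g) (σ.symm (σ a)) (σ.symm (σ b))) = _
    rw [σ.symm_apply_apply, σ.symm_apply_apply]
  have wy : W p y := ⟨_, w.map h⟩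
  refine ⟨y, wy, ?_⟩
  have hV : ∀ v : ℕ, Vx p y (σ (some v, 0, none)) := fun v =>
    (vx_map h _).2 ((w.vx_iff _).2 ⟨(hc _).2 ⟨some v, rfl⟩, by simp⟩)
  have hb : Function.Bijective (fun v : ℕ =>
      (⟨σ (some v, 0, none), hV v⟩ : {u // Vx p y u})) := by
    constructor
    · intro v v' hvv
      have := σ.injective (congrArg Subtype.val hvv)
      simpa using this
    · rintro ⟨u, hu⟩
      obtain ⟨o, rfl⟩ := σ.surjective u
      obtain ⟨h1, h2⟩ := (w.vx_iff _).1 ((vx_map h o).1 hu)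
      obtain ⟨i, rfl⟩ := (hc _).1 h1
      rcases i with _ | v
      · exact absurd rfl h2
      · exact ⟨v, rfl⟩
  unfold gr
  refine dc_iso' (P := fun y u => Vx p y u) (A := fun y u v => Aj p y u v) wy.inf
    (Equiv.ofBijective _ hb) fun v v' => ?_
  show g v v' = true ↔ Aj p y (σ _) (σ _)
  rw [aj_map h, w.aj_iff]
  constructor
  · intro h1
    refine ⟨fun e => ?_, ?_⟩
    · have : v = v' := by simpa using e
      rw [this, hg.irrefl] at h1
      exact absurd h1 (by decide)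
    · obtain ⟨q, hq⟩ := ed_ex hg h1
      have e1 := (pg_one (p := p) q v).2 ((hq v).2 (Or.inl rfl))
      have e2 := (pg_one (p := p) q v').2 ((hq v').2 (Or.inr rfl))
      refine ⟨(none, 0, some q), (hr _).2 ⟨some q, rfl⟩, ?_, ?_⟩
      · unfold rm
        simp [e1]
      · unfold rm
        simp [e2]
  · rintro ⟨h1, f, h2, h3, h4⟩
    obtain ⟨k, rfl⟩ := (hr _).1 h2
    have hne : v ≠ v' := fun e => h1 (by rw [e])
    unfold rm at h3 h4
    simp only [Prod.mk.injEq, true_and, and_true, zero_add, add_zero] at h3 h4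
    rcases k with _ | q
    · exact absurd h3.symm one_ne_zero
    · rw [pg_one] at h3 h4
      have h5 := q.2.2
      rcases h3 with h3 | h3 <;> rcases h4 with h4 | h4
      · exact absurd (h3.trans h4.symm) hne
      · rw [h3, h4]
        exact h5
      · rw [h3, h4]
        exact hg.symm _ _ h5
      · exact absurd (h3.trans h4.symm) hne

theorem w_kc {p : ℕ} [Fact p.Prime] {y : Bin} (h : W p y) : KC p y := by
  obtain ⟨t, w⟩ := h
  obtain ⟨F, -, hF⟩ := w.rees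
  refine ⟨_, _, Pm p y t, F.symm, fun a b => ?_⟩
  rw [Equiv.symm_apply_eq, ← hF, F.apply_symm_apply, F.apply_symm_apply]

theorem oiso_symm {x y : Bin} (h : OIso x y) : OIso y x := by
  obtain ⟨σ, h⟩ := h
  exact ⟨σ.symm, inv_map h⟩

end CC

open CC in
/-- Rees matrix semigroups over `ZMod p` are faithfully complete -/
theorem leaf_C : Leaf_C := by
  intro p hp
  haveI : Fact p.Prime := ⟨hp⟩
  exact faithful_interp (K0 := K3) target_K3.faithful (W := fun y => W p y) (δ := gr p)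
    (fun _ _ h => oiso_symm h) bp_W (measurable_dc (fun u => bp_vx u) (fun u v => bp_aj u v))
    (fun _ _ ⟨_, h⟩ w => w_map h w) (fun _ _ wy wz => gr_iso wy wz)
    (fun g hg => gr_ex hg.1 hg.2) fun _ w => w_kc w

end Pool.Agent.N649.SV
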