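import Pool.Agent.N649.SV.Stm
import Pool.Agent.W889.SD.Deg

set_option autoImplicit false
set_option linter.unusedSectionVars false

/-! # Inflations of elementary abelian `p`-groups are faithfully complete (helper306) -/

namespace Pool.Agent.N649.SV.I

open Pool.Agent.N649.SV
open Pool.Agent.W889.VC (BinStr BIso Faithful BP IsGraph)
open Pool.Agent.W889.SD (dc dc_iso dc_iso' measurable_dc equiv_of_rel nth_equiv faithful_interp K3
  target_K3 rel)

/-! ### Vertices and edges -/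

section gen

variable {M N : Type}

/-- not a product -/
def Np (o : M → M → M) (x : M) : Prop := ∀ a b, o a b ≠ x

/-- vertices -/
def Vx (o : M → M → M) (u : M) : Prop := Np o u ∧ ∀ w, Np o w → (∀ s, o w s = o u s) → w = u

/-- adjacency -/
def Aj (o : M → M → M) (u v : M) : Prop :=
  u ≠ v ∧ ∃ y y', y ≠ y' ∧ Np o y ∧ Np o y' ∧ (∀ s, o y s = o (o u v) s) ∧
    ∀ s, o y' s = o (o u v) s

section map

variable {y : M → M → M} {z : N → N → N} {σ : M ≃ N}

theorem np_map (h : ∀ m n, z (σ m) (σ n) = σ (y m n)) (x : M) : Np z (σ x) ↔ Np y x := by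
  constructor
  · intro h1 a b hab
    exact h1 (σ a) (σ b) (by rw [h, hab])
  · intro h1 a b hab
    obtain ⟨a, rfl⟩ := σ.surjective a
    obtain ⟨b, rfl⟩ := σ.surjective b
    rw [h] at hab
    exact h1 a b (σ.injective hab)

theorem same_map (h : ∀ m n, z (σ m) (σ n) = σ (y m n)) (a b : M) :
    (∀ s, z (σ a) s = z (σ b) s) ↔ ∀ s, y a s = y b s := by
  constructor
  · intro h1 s
    have := h1 (σ s)
    rw [h, h] at this
    exact σ.injective this
  · intro h1 s
    obtain ⟨s, rfl⟩ := σ.surjective s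
    rw [h, h, h1]

theorem vx_map (h : ∀ m n, z (σ m) (σ n) = σ (y m n)) (u : M) : Vx z (σ u) ↔ Vx y u := by
  unfold Vx
  rw [np_map h]
  refine and_congr Iff.rfl ?_
  constructor
  · intro h1 w h2 h3
    exact σ.injective (h1 (σ w) ((np_map h w).2 h2) ((same_map h w u).2 h3))
  · intro h1 w h2 h3
    obtain ⟨w, rfl⟩ := σ.surjective w
    rw [h1 w ((np_map h w).1 h2) ((same_map h w u).1 h3)]

theorem aj_map (h : ∀ m n, z (σ m) (σ n) = σ (y m n)) (u v : M) :
    Aj z (σ u) (σ v) ↔ Aj y u v := by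
  unfold Aj
  rw [h]
  refine and_congr (not_congr σ.apply_eq_iff_eq) ?_
  constructor
  · rintro ⟨a, b, h1, h2, h3, h4, h5⟩
    obtain ⟨a, rfl⟩ := σ.surjective a
    obtain ⟨b, rfl⟩ := σ.surjective b
    exact ⟨a, b, fun e => h1 (by rw [e]), (np_map h a).1 h2, (np_map h b).1 h3,
      (same_map h _ _).1 h4, (same_map h _ _).1 h5⟩
  · rintro ⟨a, b, h1, h2, h3, h4, h5⟩
    exact ⟨σ a, σ b, fun e => h1 (σ.injective e), (np_map h a).2 h2, (np_map h b).2 h3,
      (same_map h _ _).2 h4, (same_map h _ _).2 h5⟩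

end map

/-! ### Inflations -/

/-- inflations of groups -/
structure Infl {G : Type} [AddCommGroup G] (o : M → M → M) (f : M → G) (g : G → M) : Prop where
  fg : ∀ a, f (g a) = a
  mul : ∀ x y, o x y = g (f x + f y)

section infl

variable {G : Type} [AddCommGroup G] {o : M → M → M} {f : M → G} {g : G → M}

theorem Infl.f_mul (h : Infl o f g) (x y : M) : f (o x y) = f x + f y := by rw [h.mul, h.fg]

theorem Infl.g_inj (h : Infl o f g) {a b : G} (hab : g a = g b) : a = b := by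
  rw [← h.fg a, hab, h.fg]

theorem Infl.np (h : Infl o f g) (x : M) : Np o x ↔ x ≠ g (f x) := by
  constructor
  · intro h1 h2
    refine h1 x (g 0) ?_
    rw [h.mul, h.fg, add_zero, ← h2]
  · intro h1 a b hab
    apply h1
    rw [← hab, h.f_mul, h.mul]

theorem Infl.same (h : Infl o f g) (w u : M) : (∀ s, o w s = o u s) ↔ f w = f u := by
  constructor
  · intro h1
    have h2 := h1 (g 0)
    rw [h.mul, h.mul, h.fg, add_zero, add_zero] at h2
    exact h.g_inj h2
  · intro h1 s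
    rw [h.mul, h.mul, h1]

theorem Infl.vx (h : Infl o f g) (u : M) :
    Vx o u ↔ u ≠ g (f u) ∧ ∀ w, w ≠ g (f w) → f w = f u → w = u := by
  unfold Vx
  simp only [h.np, h.same]

theorem Infl.aj (h : Infl o f g) (u v : M) :
    Aj o u v ↔ u ≠ v ∧ ∃ y y', y ≠ y' ∧ y ≠ g (f y) ∧ y' ≠ g (f y') ∧ f y = f u + f v ∧
      f y' = f u + f v := by
  unfold Aj
  simp only [h.np, h.same, h.f_mul]

/-- bijections of the groups and of the fibres give isomorphisms -/
theorem Infl.lift (h : Infl o f g) {G' : Type} [AddCommGroup G'] {o' : N → N → N} {f' : N → G'}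
    {g' : G' → N} (h' : Infl o' f' g') (s : G ≃+ G')
    (hs : ∀ a, Nonempty ({x // f x = a ∧ x ≠ g a} ≃ {x // f' x = s a ∧ x ≠ g' (s a)})) :
    ∃ σ : M ≃ N, ∀ a b, o' (σ a) (σ b) = σ (o a b) := by
  have hs' := fun a => (hs a).some
  let R : M → N → Prop := fun x x' => ∃ a, (x = g a ∧ x' = g' (s a)) ∨
    ∃ t : {x // f x = a ∧ x ≠ g a}, x = t.1 ∧ x' = (hs' a t).1
  have hRf : ∀ x x', R x x' → f' x' = s (f x) := by
    rintro x x' ⟨a, ⟨rfl, rfl⟩ | ⟨t, rfl, rfl⟩⟩
    · rw [h.fg, h'.fg]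
    · rw [(hs' a t).2.1, t.2.1]
  have k3 : ∀ m m' m'', R m m' → R m m'' → m' = m'' := by
    rintro m m' m'' ⟨a, ⟨rfl, rfl⟩ | ⟨t, rfl, rfl⟩⟩ ⟨b, ⟨h1, rfl⟩ | ⟨t', h1, rfl⟩⟩
    · rw [h.g_inj h1]
    · exfalso
      have e : a = b := by rw [← h.fg a, h1, t'.2.1]
      subst e
      exact t'.2.2 h1.symm
    · exfalso
      have e : a = b := by rw [← h.fg b, ← h1, t.2.1]
      subst e
      exact t.2.2 h1
    · have e : a = b := by rw [← t.2.1, h1, t'.2.1]
      subst e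
      rw [Subtype.ext h1]
  have k4 : ∀ m m' m'', R m m'' → R m' m'' → m = m' := by
    rintro m m' m'' ⟨a, ⟨rfl, rfl⟩ | ⟨t, rfl, rfl⟩⟩ ⟨b, ⟨rfl, h1⟩ | ⟨t', rfl, h1⟩⟩
    · rw [s.injective (h'.g_inj h1)]
    · exfalso
      have e : a = b := s.injective (by rw [← h'.fg (s a), h1, (hs' b t').2.1])
      subst e
      exact (hs' a t').2.2 h1.symm
    · exfalso
      have e : a = b := s.injective (by rw [← h'.fg (s b), ← h1, (hs' a t).2.1])
      subst e
      exact (hs' a t).2.2 h1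
    · have e : a = b := s.injective (by rw [← (hs' a t).2.1, h1, (hs' b t').2.1])
      subst e
      rw [(hs' a).injective (Subtype.ext h1)]
  obtain ⟨σ, hσ⟩ := equiv_of_rel R
    (fun m => by
      by_cases hm : m = g (f m)
      · exact ⟨g' (s (f m)), f m, Or.inl ⟨hm, rfl⟩⟩
      · exact ⟨(hs' (f m) ⟨m, rfl, hm⟩).1, f m, Or.inr ⟨⟨m, rfl, hm⟩, rfl, rfl⟩⟩)
    (fun m' => by
      obtain ⟨a, ha⟩ := s.surjective (f' m')
      by_cases hm : m' = g' (s a)
      · exact ⟨g a, a, Or.inl ⟨rfl, hm⟩⟩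
      · refine ⟨((hs' a).symm ⟨m', ha.symm, hm⟩).1, a,
          Or.inr ⟨(hs' a).symm ⟨m', ha.symm, hm⟩, rfl, ?_⟩⟩
        rw [Equiv.apply_symm_apply]) k3 k4
  refine ⟨σ, fun x y => ?_⟩
  have e1 : R (o x y) (o' (σ x) (σ y)) := by
    refine ⟨f x + f y, Or.inl ⟨h.mul x y, ?_⟩⟩
    rw [h'.mul, hRf _ _ (hσ x), hRf _ _ (hσ y), map_add]
  exact k3 _ _ _ e1 (hσ _)

end infl

/-! ### Well formed structures -/

/-- well formed inflations -/
structure Core (p : ℕ) {G : Type} [AddCommGroup G] [Module (ZMod p) G] (o : M → M → M) (f : M → G)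
    (g : G → M) : Prop where
  infl : Infl o f g
  li : LinearIndependent (ZMod p) (fun u : {u // Vx o u} => f u)
  sp : ⊤ ≤ Submodule.span (ZMod p) (Set.range (fun u : {u // Vx o u} => f u))
  out : ∀ x, x ≠ g (f x) → Vx o x ∨ ∃ u v, Vx o u ∧ Vx o v ∧ Aj o u v ∧ f x = f u + f v
  two : ∀ u v x y z, Vx o u → Vx o v → Aj o u v → x ≠ g (f x) → y ≠ g (f y) → z ≠ g (f z) →
    f x = f u + f v → f y = f u + f v → f z = f u + f v → x = y ∨ x = z ∨ y = z
  inf : Infinite {u // Vx o u}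

/-- well formed structures -/
def WF (p : ℕ) (o : M → M → M) : Prop :=
  ∃ (G : Type) (_ : AddCommGroup G) (_ : Module (ZMod p) G) (f : M → G) (g : G → M), Core p o f g

theorem WF.ki {p : ℕ} {o : M → M → M} (h : WF p o) : KI p o := by
  obtain ⟨G, i1, i2, f, g, h⟩ := h
  exact ⟨G, i1, f, g, fun a => ZModModule.char_nsmul_eq_zero p a, h.infl.fg, h.infl.mul⟩

theorem WF.map {p : ℕ} {y : M → M → M} {z : N → N → N} {σ : M ≃ N}
    (h : ∀ m n, z (σ m) (σ n) = σ (y m n)) (w : WF p y) : WF p z := by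
  obtain ⟨G, i1, i2, f, g, w⟩ := w
  have hi : Infl z (fun x => f (σ.symm x)) (fun a => σ (g a)) := by
    refine ⟨fun a => ?_, fun a b => ?_⟩
    · show f (σ.symm (σ (g a))) = a
      rw [σ.symm_apply_apply, w.infl.fg]
    · obtain ⟨a, rfl⟩ := σ.surjective a
      obtain ⟨b, rfl⟩ := σ.surjective b
      show z (σ a) (σ b) = σ (g (f (σ.symm (σ a)) + f (σ.symm (σ b))))
      rw [σ.symm_apply_apply, σ.symm_apply_apply, h, w.infl.mul]
  let e : {u // Vx z u} ≃ {u // Vx y u} := (σ.subtypeEquiv fun u => (vx_map h u).symm).symm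
  have hne : ∀ x, σ x ≠ σ (g (f (σ.symm (σ x)))) → x ≠ g (f x) := fun x hx hx' => by
    apply hx
    rw [σ.symm_apply_apply, ← hx']
  refine ⟨G, i1, i2, fun x => f (σ.symm x), fun a => σ (g a), hi, ?_, ?_, ?_, ?_, ?_⟩
  · have := w.li.comp e e.injective
    exact this
  · refine w.sp.trans (Submodule.span_mono ?_)
    rintro _ ⟨u, rfl⟩
    refine ⟨e.symm u, ?_⟩
    show f (e (e.symm u)).1 = f u.1
    rw [Equiv.apply_symm_apply]
  · intro x hx
    obtain ⟨x, rfl⟩ := σ.surjective x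
    rcases w.out x (hne x hx) with h1 | ⟨u, v, h1, h2, h3, h4⟩
    · exact Or.inl ((vx_map h x).2 h1)
    · refine Or.inr ⟨σ u, σ v, (vx_map h u).2 h1, (vx_map h v).2 h2, (aj_map h u v).2 h3, ?_⟩
      simp only [σ.symm_apply_apply]
      exact h4
  · intro u v a b c h1 h2 h3 h4 h5 h6 h7 h8 h9
    obtain ⟨u, rfl⟩ := σ.surjective u
    obtain ⟨v, rfl⟩ := σ.surjective v
    obtain ⟨a, rfl⟩ := σ.surjective a
    obtain ⟨b, rfl⟩ := σ.surjective b
    obtain ⟨c, rfl⟩ := σ.surjective c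
    simp only [σ.symm_apply_apply] at h7 h8 h9
    have := w.two u v a b c ((vx_map h u).1 h1) ((vx_map h v).1 h2) ((aj_map h u v).1 h3)
      (hne a h4) (hne b h5) (hne c h6) h7 h8 h9
    simpa only [σ.apply_eq_iff_eq] using this
  · have := w.inf
    exact Infinite.of_injective e.symm e.symm.injective

section lift

variable {G : Type} [AddCommGroup G] {p : ℕ} [Module (ZMod p) G] {o : M → M → M} {f : M → G}
  {g : G → M}

theorem Core.fib1 (h : Core p o f g) {u : M} (hu : Vx o u) :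
    Nonempty (Unique {x // f x = f u ∧ x ≠ g (f u)}) := by
  obtain ⟨h1, h2⟩ := (h.infl.vx u).1 hu
  refine ⟨⟨⟨⟨u, rfl, h1⟩⟩, fun x => Subtype.ext ?_⟩⟩
  exact h2 x.1 (by rw [x.2.1]; exact x.2.2) x.2.1

theorem Core.fib2 (h : Core p o f g) {u v : M} (hu : Vx o u) (hv : Vx o v) (hA : Aj o u v) :
    Nat.card {x // f x = f u + f v ∧ x ≠ g (f u + f v)} = 2 := by
  rw [Nat.card_eq_two_iff]
  obtain ⟨-, a, b, h1, h2, h3, h4, h5⟩ := (h.infl.aj u v).1 hA
  refine ⟨⟨a, h4, by rw [← h4]; exact h2⟩, ⟨b, h5, by rw [← h5]; exact h3⟩,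
    fun e => h1 (congrArg Subtype.val e), ?_⟩
  ext x
  simp only [Set.mem_insert_iff, Set.mem_singleton_iff, Set.mem_univ, iff_true]
  rcases h.two u v x.1 a b hu hv hA (by rw [x.2.1]; exact x.2.2) h2 h3 x.2.1 h4 h5 with e | e | e
  · exact Or.inl (Subtype.ext e)
  · exact Or.inr (Subtype.ext e)
  · exact absurd e h1

/-- isomorphic graphs of vertices give isomorphic structures -/
theorem lift_iso {G' : Type} [AddCommGroup G'] [Module (ZMod p) G'] {o' : N → N → N} {f' : N → G'}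
    {g' : G' → N} (h : Core p o f g) (h' : Core p o' f' g') (π : {u // Vx o u} ≃ {u // Vx o' u})
    (hπ : ∀ u v : {u // Vx o u}, Aj o u v ↔ Aj o' (π u) (π v)) :
    ∃ σ : M ≃ N, ∀ a b, o' (σ a) (σ b) = σ (o a b) := by
  let s : G ≃ₗ[ZMod p] G' := (Module.Basis.mk h.li h.sp).equiv (Module.Basis.mk h'.li h'.sp) π
  have hs : ∀ u : {u // Vx o u}, s (f u) = f' (π u) := fun u => by
    have := Module.Basis.equiv_apply (Module.Basis.mk h.li h.sp) u (Module.Basis.mk h'.li h'.sp) π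
    rw [Module.Basis.mk_apply, Module.Basis.mk_apply] at this
    exact this
  refine h.infl.lift h'.infl s.toAddEquiv fun a => ?_
  show Nonempty ({x // f x = a ∧ x ≠ g a} ≃ {x // f' x = s a ∧ x ≠ g' (s a)})
  by_cases h1 : ∃ u : {u // Vx o u}, f u = a
  · obtain ⟨u, rfl⟩ := h1
    rw [hs]
    obtain ⟨i1⟩ := h.fib1 u.2
    obtain ⟨i2⟩ := h'.fib1 (π u).2
    exact ⟨Equiv.ofUnique _ _⟩
  by_cases h2 : ∃ u v : {u // Vx o u}, Aj o u v ∧ f u + f v = a
  · obtain ⟨u, v, hA, rfl⟩ := h2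
    rw [map_add, hs, hs]
    have c1 := h.fib2 u.2 v.2 hA
    have c2 := h'.fib2 (π u).2 (π v).2 ((hπ u v).1 hA)
    have i1 : Finite {x // f x = f u + f v ∧ x ≠ g (f u + f v)} :=
      Nat.finite_of_card_ne_zero (by rw [c1]; norm_num)
    have i2 : Finite {x // f' x = f' (π u) + f' (π v) ∧ x ≠ g' (f' (π u) + f' (π v))} :=
      Nat.finite_of_card_ne_zero (by rw [c2]; norm_num)
    exact ⟨(Finite.equivFinOfCardEq c1).trans (Finite.equivFinOfCardEq c2).symm⟩
  · have i1 : IsEmpty {x // f x = a ∧ x ≠ g a} := by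
      refine ⟨fun x => ?_⟩
      rcases h.out x.1 (by rw [x.2.1]; exact x.2.2) with h3 | ⟨u, v, h3, h4, h5, h6⟩
      · exact h1 ⟨⟨x.1, h3⟩, x.2.1⟩
      · exact h2 ⟨⟨u, h3⟩, ⟨v, h4⟩, h5, by rw [← x.2.1, h6]⟩
    have i2 : IsEmpty {x // f' x = s a ∧ x ≠ g' (s a)} := by
      refine ⟨fun x => ?_⟩
      rcases h'.out x.1 (by rw [x.2.1]; exact x.2.2) with h3 | ⟨u, v, h3, h4, h5, h6⟩
      · obtain ⟨u, hu⟩ := π.surjective ⟨x.1, h3⟩
        refine h1 ⟨u, s.injective ?_⟩
        rw [hs, hu]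
        exact x.2.1
      · obtain ⟨u, hu⟩ := π.surjective ⟨u, h3⟩
        obtain ⟨v, hv⟩ := π.surjective ⟨v, h4⟩
        refine h2 ⟨u, v, (hπ u v).2 ?_, s.injective ?_⟩
        · rw [hu, hv]
          exact h5
        · rw [map_add, hs, hs, hu, hv]
          exact h6.symm.trans x.2.1
    exact ⟨Equiv.equivOfIsEmpty _ _⟩

end lift

/-! ### Linear combinations -/

section cmb

variable {p : ℕ}

/-- sums of lists -/
def lsum (o : M → M → M) (c : M) : List M → M
  | [] => c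
  | x :: l => o x (lsum o c l)

/-- the list of a combination -/
noncomputable def lst (φ : M →₀ ZMod p) : List M :=
  φ.support.toList.flatMap fun u => List.replicate (φ u).val u

/-- linear combinations -/
noncomputable def cmb (o : M → M → M) (c : M) (φ : M →₀ ZMod p) : M := lsum o c (lst φ)

theorem cmb_zero (o : M → M → M) (c : M) : cmb o c (0 : M →₀ ZMod p) = c := by
  rw [cmb, lst, Finsupp.support_zero, Finset.toList_empty]
  rfl

variable {G : Type} [AddCommGroup G] {o : M → M → M} {f : M → G} {g : G → M}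

theorem Infl.lsum (h : Infl o f g) (l : List M) : lsum o (g 0) l = g ((l.map f).sum) := by
  induction l with
  | nil => rfl
  | cons x l ih =>
    show o x (I.lsum o (g 0) l) = _
    rw [ih, h.mul, h.fg, List.map_cons, List.sum_cons]

theorem sum_lst [NeZero p] [Module (ZMod p) G] (f : M → G) (φ : M →₀ ZMod p) :
    ((lst φ).map f).sum = Finsupp.linearCombination (ZMod p) f φ := by
  have h : ∀ L : List M, ((L.flatMap fun u => List.replicate (φ u).val u).map f).sum =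
      (L.map fun u => φ u • f u).sum := by
    intro L
    induction L with
    | nil => rfl
    | cons u L ih =>
      rw [List.flatMap_cons, List.map_append, List.sum_append, ih, List.map_cons, List.sum_cons,
        List.map_replicate, List.sum_replicate]
      congr 1
      rw [← Nat.cast_smul_eq_nsmul (ZMod p), ZMod.natCast_zmod_val]
  rw [lst, h, Finset.sum_map_toList, Finsupp.linearCombination_apply]
  rfl

/-- well formed structures, in terms of the operation only -/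
structure WFm (p : ℕ) (o : M → M → M) (c : M) : Prop where
  hom : ∀ φ ψ : M →₀ ZMod p, (∀ u, u ∈ φ.support → Vx o u) → (∀ u, u ∈ ψ.support → Vx o u) →
    o (cmb o c φ) (cmb o c ψ) = cmb o c (φ + ψ)
  red : ∀ x y, o (o x c) (o y c) = o x y
  gen : ∀ s, ∃ φ : M →₀ ZMod p, (∀ u, u ∈ φ.support → Vx o u) ∧ cmb o c φ = o s c
  inj : ∀ φ ψ : M →₀ ZMod p, (∀ u, u ∈ φ.support → Vx o u) → (∀ u, u ∈ ψ.support → Vx o u) →
    cmb o c φ = cmb o c ψ → φ = ψ
  one : ∀ u, Vx o u → cmb o c (Finsupp.single u (1 : ZMod p)) = o u c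
  out : ∀ x, Np o x → Vx o x ∨ ∃ u v, Vx o u ∧ Vx o v ∧ Aj o u v ∧ o x c = o u v
  two : ∀ u v x y z, Vx o u → Vx o v → Aj o u v → Np o x → Np o y → Np o z →
    o x c = o u v → o y c = o u v → o z c = o u v → x = y ∨ x = z ∨ y = z
  inf : Infinite {u // Vx o u}

theorem Core.wfm [NeZero p] [Module (ZMod p) G] (h : Core p o f g) : WFm p o (g 0) := by
  have hc : ∀ φ : M →₀ ZMod p, cmb o (g 0) φ = g (Finsupp.linearCombination (ZMod p) f φ) :=
    fun φ => by rw [cmb, h.infl.lsum, sum_lst]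
  have hx : ∀ x, o x (g 0) = g (f x) := fun x => by rw [h.infl.mul, h.infl.fg, add_zero]
  have hxy : ∀ x u v, o x (g 0) = o u v → f x = f u + f v := fun x u v e => by
    rw [hx, h.infl.mul] at e
    exact h.infl.g_inj e
  refine ⟨fun φ ψ _ _ => ?_, fun x y => ?_, fun s => ?_, fun φ ψ h1 h2 h3 => ?_, fun u _ => ?_,
    fun x hx1 => ?_, ?_, h.inf⟩
  · rw [hc, hc, hc, h.infl.mul, h.infl.fg, h.infl.fg, map_add]
  · rw [hx, hx, h.infl.mul, h.infl.fg, h.infl.fg, h.infl.mul]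
  · have h1 := h.sp (show f s ∈ (⊤ : Submodule (ZMod p) G) from trivial)
    have e : Set.range (fun u : {u // Vx o u} => f u) = f '' {u | Vx o u} := by
      ext a
      simp
    rw [e, Finsupp.mem_span_image_iff_linearCombination] at h1
    obtain ⟨φ, h1, h2⟩ := h1
    refine ⟨φ, fun u hu => (Finsupp.mem_supported _ _).1 h1 hu, ?_⟩
    rw [hc, h2, hx]
  · have h4 := h.infl.g_inj ((hc φ).symm.trans (h3.trans (hc ψ)))
    have h5 : LinearIndepOn (ZMod p) f {u | Vx o u} := h.li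
    rw [linearIndepOn_iff] at h5
    have h6 := h5 (φ - ψ) (Submodule.sub_mem _ ((Finsupp.mem_supported _ _).2 fun u hu => h1 u hu)
      ((Finsupp.mem_supported _ _).2 fun u hu => h2 u hu)) (by rw [map_sub, h4, sub_self])
    exact sub_eq_zero.1 h6
  · rw [hc, hx, Finsupp.linearCombination_single, one_smul]
  · rcases h.out x ((h.infl.np x).1 hx1) with h1 | ⟨u, v, h1, h2, h3, h4⟩
    · exact Or.inl h1
    · refine Or.inr ⟨u, v, h1, h2, h3, ?_⟩
      rw [hx, h.infl.mul, h4]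
  · intro u v x y z h1 h2 h3 h4 h5 h6 h7 h8 h9
    exact h.two u v x y z h1 h2 h3 ((h.infl.np x).1 h4) ((h.infl.np y).1 h5) ((h.infl.np z).1 h6)
      (hxy _ _ _ h7) (hxy _ _ _ h8) (hxy _ _ _ h9)

theorem WFm.wf {c : M} (h : WFm p o c) : WF p o := by
  classical
  let S : Submodule (ZMod p) (M →₀ ZMod p) := Finsupp.supported (ZMod p) (ZMod p) {u | Vx o u}
  have hS : ∀ φ : S, ∀ u, u ∈ φ.1.support → Vx o u :=
    fun φ u hu => (Finsupp.mem_supported _ _).1 φ.2 hu
  have hS' : ∀ φ : M →₀ ZMod p, (∀ u, u ∈ φ.support → Vx o u) → φ ∈ S :=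
    fun φ hφ => (Finsupp.mem_supported _ _).2 fun u hu => hφ u hu
  choose F hF1 hF2 using h.gen
  let f : M → S := fun x => ⟨F x, hS' _ (hF1 x)⟩
  let g : S → M := fun φ => cmb o c φ.1
  have hgf : ∀ x, g (f x) = o x c := hF2
  have hgi : ∀ φ ψ : S, g φ = g ψ → φ = ψ :=
    fun φ ψ e => Subtype.ext (h.inj _ _ (hS φ) (hS ψ) e)
  have hhom : ∀ φ ψ : S, o (g φ) (g ψ) = g (φ + ψ) := fun φ ψ => h.hom φ.1 ψ.1 (hS _) (hS _)
  have hg0 : g 0 = c := cmb_zero o c
  have hi : Infl o f g := by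
    refine ⟨fun φ => hgi _ _ ?_, fun x y => ?_⟩
    · rw [hgf]
      have := hhom φ 0
      rw [add_zero, hg0] at this
      exact this
    · rw [← hhom, hgf, hgf, h.red]
  have hv : ∀ u : {u // Vx o u}, (f u).1 = Finsupp.single u.1 (1 : ZMod p) := by
    intro u
    have h1 : Finsupp.single u.1 (1 : ZMod p) ∈ S := by
      refine hS' _ fun w hw => ?_
      have := Finsupp.support_single_subset hw
      rw [Finset.mem_singleton] at this
      rw [this]
      exact u.2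
    have h2 : f u = ⟨_, h1⟩ := by
      refine hgi _ _ ?_
      rw [hgf]
      exact (h.one u.1 u.2).symm
    rw [h2]
  have li : LinearIndependent (ZMod p) (fun u : {u // Vx o u} => f u) := by
    refine LinearIndependent.of_comp S.subtype ?_
    have e : (S.subtype ∘ fun u : {u // Vx o u} => f u) =
        (fun u : {u // Vx o u} => Finsupp.single u.1 (1 : ZMod p)) := by
      funext u
      exact hv u
    rw [e]
    exact (Finsupp.linearIndependent_single_one (ZMod p) M).comp Subtype.val Subtype.val_injective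
  have sp : ⊤ ≤ Submodule.span (ZMod p) (Set.range (fun u : {u // Vx o u} => f u)) := by
    intro φ _
    have h1 : φ.1 ∈ Submodule.span (ZMod p)
        ((fun i => Finsupp.single i (1 : ZMod p)) '' {u | Vx o u}) := by
      rw [← Finsupp.supported_eq_span_single]
      exact φ.2
    have h2 : (fun i => Finsupp.single i (1 : ZMod p)) '' {u | Vx o u} =
        S.subtype '' Set.range (fun u : {u // Vx o u} => f u) := by
      ext ψ
      constructor
      · rintro ⟨u, hu, rfl⟩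
        exact ⟨f u, ⟨⟨u, hu⟩, rfl⟩, hv ⟨u, hu⟩⟩
      · rintro ⟨_, ⟨u, rfl⟩, rfl⟩
        exact ⟨u.1, u.2, (hv u).symm⟩
    rw [h2, ← Submodule.map_span] at h1
    obtain ⟨ψ, h3, h4⟩ := h1
    have : ψ = φ := Subtype.ext h4
    rw [← this]
    exact h3
  have hxy : ∀ x u v, f x = f u + f v → o x c = o u v := fun x u v e => by
    rw [← hgf, hi.mul, e]
  refine ⟨S, inferInstance, inferInstance, f, g, hi, li, sp, fun x hx => ?_, ?_, h.inf⟩
  · rcases h.out x ((hi.np x).2 hx) with h1 | ⟨u, v, h1, h2, h3, h4⟩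
    · exact Or.inl h1
    · refine Or.inr ⟨u, v, h1, h2, h3, hi.g_inj ?_⟩
      rw [hgf, ← hi.mul, h4]
  · intro u v x y z h1 h2 h3 h4 h5 h6 h7 h8 h9
    exact h.two u v x y z h1 h2 h3 ((hi.np x).2 h4) ((hi.np y).2 h5) ((hi.np z).2 h6)
      (hxy _ _ _ h7) (hxy _ _ _ h8) (hxy _ _ _ h9)

theorem wf_iff [NeZero p] : WF p o ↔ ∃ c, WFm p o c := by
  constructor
  · rintro ⟨G, i1, i2, f, g, h⟩
    exact ⟨g 0, h.wfm⟩
  · rintro ⟨c, h⟩
    exact h.wf

end cmb

end gen

/-! ### Measurability -/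

section meas

theorem inf_iff {P : ℕ → Prop} : Infinite {u // P u} ↔ ∀ N, ∃ u, N ≤ u ∧ P u := by
  constructor
  · intro h N
    have h2 : {u | P u}.Infinite := Set.infinite_coe_iff.1 h
    obtain ⟨u, hu, hN⟩ := h2.exists_gt N
    exact ⟨u, hN.le, hu⟩
  · intro h
    obtain ⟨e, -⟩ := nth_equiv h
    exact Infinite.of_injective e e.injective

/-- measurable terms -/
def Tm (F : Bin → ℕ) : Prop := ∀ k, BP (fun o => F o = k)

theorem bp_at (m n k : ℕ) : BP (fun o : Bin => o m n = k) := by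
  have h : Measurable fun o : Bin => o m n := (measurable_pi_apply n).comp (measurable_pi_apply m)
  exact h (measurableSet_singleton k)

theorem tm_const (k : ℕ) : Tm (fun _ => k) := fun _ => BP.const _

theorem Tm.app {F G : Bin → ℕ} (hF : Tm F) (hG : Tm G) : Tm (fun o => o (F o) (G o)) := by
  intro k
  have h : BP (fun o : Bin => ∃ m n, F o = m ∧ G o = n ∧ o m n = k) :=
    BP.ex fun m => BP.ex fun n => (hF m).and ((hG n).and (bp_at m n k))
  refine h.congr fun o => ⟨?_, fun h => ⟨_, _, rfl, rfl, h⟩⟩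
  rintro ⟨m, n, h1, h2, h3⟩
  show o (F o) (G o) = k
  rw [h1, h2]
  exact h3

theorem Tm.eq {F G : Bin → ℕ} (hF : Tm F) (hG : Tm G) : BP (fun o => F o = G o) := by
  have h : BP (fun o : Bin => ∃ k, F o = k ∧ G o = k) := BP.ex fun k => (hF k).and (hG k)
  exact h.congr fun o => ⟨fun ⟨k, h1, h2⟩ => h1.trans h2.symm, fun h => ⟨_, h, rfl⟩⟩

theorem tm2 (m n : ℕ) : Tm (fun o => o m n) := (tm_const m).app (tm_const n)

theorem tm3 (a b c : ℕ) : Tm (fun o => o (o a b) c) := (tm2 a b).app (tm_const c)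

theorem bp_np (x : ℕ) : BP (fun o : Bin => Np o x) :=
  BP.all fun a => BP.all fun b => (bp_at a b x).not

theorem bp_vx (u : ℕ) : BP (fun o : Bin => Vx o u) :=
  (bp_np u).and <| BP.all fun w => (bp_np w).imp <|
    (BP.all fun s => (tm2 w s).eq (tm2 u s)).imp (BP.const _)

theorem bp_aj (u v : ℕ) : BP (fun o : Bin => Aj o u v) :=
  (BP.const _).and <| BP.ex fun y => BP.ex fun y' => (BP.const _).and <| (bp_np y).and <|
    (bp_np y').and <| (BP.all fun s => (tm2 y s).eq (tm3 u v s)).and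
    (BP.all fun s => (tm2 y' s).eq (tm3 u v s))

theorem tm_lsum (c : ℕ) (l : List ℕ) : Tm (fun o => lsum o c l) := by
  induction l with
  | nil => exact tm_const c
  | cons x l ih => exact (tm_const x).app ih

theorem tm_cmb {p : ℕ} (c : ℕ) (φ : ℕ →₀ ZMod p) : Tm (fun o => cmb o c φ) := tm_lsum c _

theorem bp_wfm (p : ℕ) [Fact p.Prime] (c : ℕ) : BP (fun o : Bin => WFm p o c) := by
  have hct : Countable (ℕ →₀ ZMod p) := inferInstance
  have hs : ∀ φ : ℕ →₀ ZMod p, BP (fun o : Bin => ∀ u, u ∈ φ.support → Vx o u) := fun φ =>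
    BP.all fun u => (BP.const _).imp (bp_vx u)
  have : BP (fun o : Bin =>
      (∀ φ ψ : ℕ →₀ ZMod p, (∀ u, u ∈ φ.support → Vx o u) → (∀ u, u ∈ ψ.support → Vx o u) →
        o (cmb o c φ) (cmb o c ψ) = cmb o c (φ + ψ)) ∧
      (∀ x y, o (o x c) (o y c) = o x y) ∧
      (∀ s, ∃ φ : ℕ →₀ ZMod p, (∀ u, u ∈ φ.support → Vx o u) ∧ cmb o c φ = o s c) ∧
      (∀ φ ψ : ℕ →₀ ZMod p, (∀ u, u ∈ φ.support → Vx o u) → (∀ u, u ∈ ψ.support → Vx o u) →
        cmb o c φ = cmb o c ψ → φ = ψ) ∧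
      (∀ u, Vx o u → cmb o c (Finsupp.single u (1 : ZMod p)) = o u c) ∧
      (∀ x, Np o x → Vx o x ∨ ∃ u v, Vx o u ∧ Vx o v ∧ Aj o u v ∧ o x c = o u v) ∧
      (∀ u v x y z, Vx o u → Vx o v → Aj o u v → Np o x → Np o y → Np o z →
        o x c = o u v → o y c = o u v → o z c = o u v → x = y ∨ x = z ∨ y = z) ∧
      ∀ N, ∃ u, N ≤ u ∧ Vx o u) :=
    (BP.all fun φ => BP.all fun ψ => (hs φ).imp <| (hs ψ).imp <|
      ((tm_cmb c φ).app (tm_cmb c ψ)).eq (tm_cmb c _)).and <|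
    (BP.all fun x => BP.all fun y => ((tm2 x c).app (tm2 y c)).eq (tm2 x y)).and <|
    (BP.all fun s => BP.ex fun φ => (hs φ).and ((tm_cmb c φ).eq (tm2 s c))).and <|
    (BP.all fun φ => BP.all fun ψ => (hs φ).imp <| (hs ψ).imp <|
      ((tm_cmb c φ).eq (tm_cmb c ψ)).imp (BP.const _)).and <|
    (BP.all fun u => (bp_vx u).imp <| (tm_cmb c _).eq (tm2 u c)).and <|
    (BP.all fun x => (bp_np x).imp <| (bp_vx x).or <| BP.ex fun u => BP.ex fun v =>
      (bp_vx u).and <| (bp_vx v).and <| (bp_aj u v).and <| (tm2 x c).eq (tm2 u v)).and <|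
    (BP.all fun u => BP.all fun v => BP.all fun x => BP.all fun y => BP.all fun z =>
      (bp_vx u).imp <| (bp_vx v).imp <| (bp_aj u v).imp <| (bp_np x).imp <| (bp_np y).imp <|
      (bp_np z).imp <| ((tm2 x c).eq (tm2 u v)).imp <| ((tm2 y c).eq (tm2 u v)).imp <|
      ((tm2 z c).eq (tm2 u v)).imp (BP.const _)).and <|
    BP.all fun N => BP.ex fun u => (BP.const _).and (bp_vx u)
  refine this.congr fun o => ⟨?_, ?_⟩
  · rintro ⟨h1, h2, h3, h4, h5, h6, h7, h8⟩
    exact ⟨h1, h2, h3, h4, h5, h6, h7, inf_iff.2 h8⟩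
  · intro h
    exact ⟨h.hom, h.red, h.gen, h.inj, h.one, h.out, h.two, inf_iff.1 h.inf⟩

theorem bp_WF (p : ℕ) [Fact p.Prime] : BP (fun o : Bin => WF p o) := by
  have : BP (fun o : Bin => ∃ c, WFm p o c) := BP.ex fun c => bp_wfm p c
  exact this.congr fun o => wf_iff.symm

end meas

/-! ### The structure of a graph -/

section code

variable {p : ℕ} [Fact p.Prime]

/-- unit vectors -/
noncomputable def dl (p : ℕ) (v : ℕ) : ℕ →₀ ZMod p := Finsupp.single v 1

theorem dl_iff (u w : ℕ) : dl p u w ≠ 0 ↔ w = u := by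
  unfold dl
  rw [Finsupp.single_apply]
  by_cases h : u = w
  · rw [if_pos h]
    exact ⟨fun _ => h.symm, fun _ => one_ne_zero⟩
  · rw [if_neg h]
    exact ⟨fun h' => absurd rfl h', fun h' => absurd h'.symm h⟩

theorem dl_inj {u v : ℕ} (h : dl p u = dl p v) : u = v := by
  rw [← dl_iff (p := p), ← h, dl_iff]

theorem dl2_iff {a b : ℕ} (hab : a ≠ b) (w : ℕ) : (dl p a + dl p b) w ≠ 0 ↔ w = a ∨ w = b := by
  rw [Finsupp.add_apply]
  by_cases h1 : w = a
  · subst h1
    have h2 : dl p b w = 0 := by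
      by_contra h
      exact hab ((dl_iff b w).1 h)
    rw [h2, add_zero, dl_iff]
    exact ⟨fun _ => Or.inl rfl, fun _ => rfl⟩
  · have h2 : dl p a w = 0 := by
      by_contra h
      exact h1 ((dl_iff a w).1 h)
    rw [h2, zero_add, dl_iff]
    exact ⟨Or.inr, fun h => h.resolve_left h1⟩

theorem dl2_ne {a b u : ℕ} (hab : a ≠ b) : dl p a + dl p b ≠ dl p u := by
  intro h
  have h1 := (dl2_iff (p := p) hab a).2 (Or.inl rfl)
  have h2 := (dl2_iff (p := p) hab b).2 (Or.inr rfl)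
  rw [h, dl_iff] at h1 h2
  exact hab (h1.trans h2.symm)

theorem dl2_eq {a b u v : ℕ} (hab : a ≠ b) (huv : u ≠ v) (h : dl p a + dl p b = dl p u + dl p v) :
    (a = u ∧ b = v) ∨ (a = v ∧ b = u) := by
  have h1 := (dl2_iff (p := p) hab a).2 (Or.inl rfl)
  have h2 := (dl2_iff (p := p) hab b).2 (Or.inr rfl)
  rw [h, dl2_iff huv] at h1 h2
  rcases h1 with h1 | h1 <;> rcases h2 with h2 | h2
  · exact absurd (h1.trans h2.symm) hab
  · exact Or.inl ⟨h1, h2⟩
  · exact Or.inr ⟨h1, h2⟩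
  · exact absurd (h1.trans h2.symm) hab

/-- edges -/
abbrev Ed (g : BinStr) : Type := {q : ℕ × ℕ // q.1 < q.2 ∧ g q.1 q.2 = true}

/-- the structure of a graph -/
abbrev Mo (p : ℕ) (g : BinStr) : Type := (ℕ →₀ ZMod p) ⊕ (ℕ ⊕ (Ed g × Bool))

/-- values -/
noncomputable def fo (p : ℕ) (g : BinStr) : Mo p g → (ℕ →₀ ZMod p)
  | Sum.inl a => a
  | Sum.inr (Sum.inl v) => dl p v
  | Sum.inr (Sum.inr e) => dl p e.1.1.1 + dl p e.1.1.2

/-- the operation -/
noncomputable def oo (p : ℕ) (g : BinStr) (x y : Mo p g) : Mo p g := Sum.inl (fo p g x + fo p g y)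

theorem infl_o (g : BinStr) : Infl (oo p g) (fo p g) Sum.inl := ⟨fun _ => rfl, fun _ _ => rfl⟩

theorem vx_o (g : BinStr) (u : Mo p g) : Vx (oo p g) u ↔ ∃ v, u = Sum.inr (Sum.inl v) := by
  rw [(infl_o g).vx]
  constructor
  · rintro ⟨h1, h2⟩
    rcases u with a | v | ⟨e, b⟩
    · exact absurd rfl h1
    · exact ⟨v, rfl⟩
    · exfalso
      have h3 := h2 (Sum.inr (Sum.inr (e, !b))) (fun h => Sum.inr_ne_inl h) rfl
      have h4 := Sum.inr.inj (Sum.inr.inj h3)
      have h5 : (!b) = b := congrArg Prod.snd h4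
      cases b
      · exact absurd h5 (by decide)
      · exact absurd h5 (by decide)
  · rintro ⟨v, rfl⟩
    refine ⟨fun h => Sum.inr_ne_inl h, fun w h1 h2 => ?_⟩
    rcases w with a | v' | ⟨e, b⟩
    · exact absurd rfl h1
    · have h3 : dl p v' = dl p v := h2
      rw [dl_inj h3]
    · exact absurd h2 (dl2_ne e.2.1.ne)

theorem aj_o {g : BinStr} (hg : IsGraph g) (u v : ℕ) :
    Aj (oo p g) (Sum.inr (Sum.inl u)) (Sum.inr (Sum.inl v)) ↔ g u v = true := by
  rw [(infl_o g).aj]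
  constructor
  · rintro ⟨h1, y, y', h2, h3, h4, h5, h6⟩
    have huv : u ≠ v := fun e => h1 (by rw [e])
    rcases y with a | w | ⟨e, b⟩
    · exact absurd rfl h3
    · have h7 : dl p w = dl p u + dl p v := h5
      exact absurd h7.symm (dl2_ne huv)
    · have h7 : dl p e.1.1 + dl p e.1.2 = dl p u + dl p v := h5
      rcases dl2_eq e.2.1.ne huv h7 with ⟨h8, h9⟩ | ⟨h8, h9⟩
      · rw [← h8, ← h9]
        exact e.2.2
      · rw [← h8, ← h9]
        exact hg.symm _ _ e.2.2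
  · intro h
    have huv : u ≠ v := by
      rintro rfl
      rw [hg.irrefl] at h
      exact absurd h (by decide)
    have key : ∃ e : Ed g, dl p e.1.1 + dl p e.1.2 = dl p u + dl p v := by
      rcases lt_or_gt_of_ne huv with h1 | h1
      · exact ⟨⟨(u, v), h1, h⟩, rfl⟩
      · exact ⟨⟨(v, u), h1, hg.symm _ _ h⟩, add_comm _ _⟩
    obtain ⟨e, he⟩ := key
    refine ⟨fun h1 => huv (Sum.inl.inj (Sum.inr.inj h1)), Sum.inr (Sum.inr (e, false)),
      Sum.inr (Sum.inr (e, true)), fun h1 => ?_, fun h => Sum.inr_ne_inl h,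
      fun h => Sum.inr_ne_inl h, he, he⟩
    have h2 : false = true := congrArg Prod.snd (Sum.inr.inj (Sum.inr.inj h1))
    exact absurd h2 (by decide)

theorem ed_eq {g : BinStr} {e e' : Ed g}
    (h : dl p e.1.1 + dl p e.1.2 = dl p e'.1.1 + dl p e'.1.2) : e = e' := by
  have h1 := e.2.1
  have h2 := e'.2.1
  rcases dl2_eq e.2.1.ne e'.2.1.ne h with ⟨h3, h4⟩ | ⟨h3, h4⟩
  · exact Subtype.ext (Prod.ext h3 h4)
  · omega

theorem fib_o {g : BinStr} {u v : ℕ} (huv : u ≠ v) {x : Mo p g} (hx : x ≠ Sum.inl (fo p g x))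
    (h : fo p g x = dl p u + dl p v) :
    ∃ (e : Ed g) (b : Bool), x = Sum.inr (Sum.inr (e, b)) ∧
      dl p e.1.1 + dl p e.1.2 = dl p u + dl p v := by
  rcases x with a | w | ⟨e, b⟩
  · exact absurd rfl hx
  · have h7 : dl p w = dl p u + dl p v := h
    exact absurd h7.symm (dl2_ne huv)
  · exact ⟨e, b, rfl, h⟩

/-- the vertices of the structure of a graph -/
noncomputable def vo (p : ℕ) [Fact p.Prime] (g : BinStr) : ℕ ≃ {u // Vx (oo p g) u} :=
  Equiv.ofBijective (fun v => ⟨Sum.inr (Sum.inl v), (vx_o g _).2 ⟨v, rfl⟩⟩) (by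
    constructor
    · intro v v' h
      exact Sum.inl.inj (Sum.inr.inj (congrArg Subtype.val h))
    · rintro ⟨u, hu⟩
      obtain ⟨v, rfl⟩ := (vx_o g u).1 hu
      exact ⟨v, rfl⟩)

theorem core_o {g : BinStr} (hg : IsGraph g) : Core p (oo p g) (fo p g) Sum.inl := by
  refine ⟨infl_o g, ?_, ?_, ?_, ?_, ?_⟩
  · rw [← linearIndependent_equiv (vo p g)]
    exact Finsupp.linearIndependent_single_one (ZMod p) ℕ
  · have h := (Finsupp.basisSingleOne (R := ZMod p) (ι := ℕ)).span_eq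
    rw [← h]
    refine Submodule.span_mono ?_
    rintro _ ⟨v, rfl⟩
    refine ⟨vo p g v, ?_⟩
    rw [Finsupp.coe_basisSingleOne]
    rfl
  · intro x hx
    rcases x with a | v | ⟨e, b⟩
    · exact absurd rfl hx
    · exact Or.inl ((vx_o g _).2 ⟨v, rfl⟩)
    · exact Or.inr ⟨Sum.inr (Sum.inl e.1.1), Sum.inr (Sum.inl e.1.2), (vx_o g _).2 ⟨_, rfl⟩,
        (vx_o g _).2 ⟨_, rfl⟩, (aj_o hg _ _).2 e.2.2, rfl⟩
  · intro u v x y z h1 h2 h3 h4 h5 h6 h7 h8 h9
    obtain ⟨u, rfl⟩ := (vx_o g u).1 h1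
    obtain ⟨v, rfl⟩ := (vx_o g v).1 h2
    have huv : u ≠ v := by
      rintro rfl
      have := (aj_o (p := p) hg u u).1 h3
      rw [hg.irrefl] at this
      exact absurd this (by decide)
    obtain ⟨e, b, rfl, k1⟩ := fib_o huv h4 h7
    obtain ⟨e', b', rfl, k2⟩ := fib_o huv h5 h8
    obtain ⟨e'', b'', rfl, k3⟩ := fib_o huv h6 h9
    obtain rfl := ed_eq (k1.trans k2.symm)
    obtain rfl := ed_eq (k1.trans k3.symm)
    rcases b <;> rcases b' <;> rcases b'' <;> simp
  · exact Infinite.of_injective (vo p g) (vo p g).injective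

end code

/-! ### The result -/

theorem oiso_symm {x y : Bin} (h : OIso x y) : OIso y x := by
  obtain ⟨σ, h⟩ := h
  refine ⟨σ.symm, fun m n => ?_⟩
  obtain ⟨m, rfl⟩ := σ.surjective m
  obtain ⟨n, rfl⟩ := σ.surjective n
  rw [h, σ.symm_apply_apply, σ.symm_apply_apply, σ.symm_apply_apply]

/-- the graph of a structure -/
noncomputable def gr : Bin → BinStr := dc (fun y u => Vx y u) (fun y u v => Aj y u v)

theorem WF.inf {p : ℕ} {y : Bin} (w : WF p y) : ∀ N, ∃ u, N ≤ u ∧ Vx y u := by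
  obtain ⟨G, i1, i2, f, g, h⟩ := w
  exact inf_iff.1 h.inf

theorem gr_iso {p : ℕ} {y z : Bin} (wy : WF p y) (wz : WF p z) :
    OIso y z ↔ BIso (gr y) (gr z) := by
  unfold gr
  rw [dc_iso wy.inf wz.inf]
  constructor
  · rintro ⟨σ, h⟩
    refine ⟨σ.subtypeEquiv fun u => (vx_map h u).symm, fun u v => ?_⟩
    exact (aj_map h _ _).symm
  · rintro ⟨π, hπ⟩
    obtain ⟨G, i1, i2, f, g, h⟩ := wy
    obtain ⟨G', i1', i2', f', g', h'⟩ := wz
    exact lift_iso h h' π hπ

theorem gr_ex {p : ℕ} [Fact p.Prime] {g : BinStr} (hg : IsGraph g) :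
    ∃ y : Bin, WF p y ∧ BIso (gr y) g := by
  have hi : Infinite (Mo p g) := Infinite.of_injective (fun v : ℕ => Sum.inr (Sum.inl v))
    fun v v' h => Sum.inl.inj (Sum.inr.inj h)
  have hc : Countable (Mo p g) := inferInstance
  obtain ⟨σ⟩ : Nonempty (Mo p g ≃ ℕ) := nonempty_equiv_of_countable
  let y : Bin := fun m n => σ (oo p g (σ.symm m) (σ.symm n))
  have h : ∀ a b, y (σ a) (σ b) = σ (oo p g a b) := fun a b => by
    show σ (oo p g (σ.symm (σ a)) (σ.symm (σ b))) = _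
    rw [σ.symm_apply_apply, σ.symm_apply_apply]
  have wy : WF p y := WF.map h ⟨_, _, _, _, _, core_o hg⟩
  refine ⟨y, wy, ?_⟩
  unfold gr
  refine dc_iso' wy.inf ((vo p g).trans (σ.subtypeEquiv fun u => (vx_map h u).symm)) fun v v' => ?_
  show g v v' = true ↔ Aj y (σ (Sum.inr (Sum.inl v))) (σ (Sum.inr (Sum.inl v')))
  rw [aj_map h, aj_o hg]

/-- inflations of elementary abelian groups are faithfully complete -/
theorem leaf_I : Leaf_I := by
  intro p hp
  have : Fact p.Prime := ⟨hp⟩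
  exact faithful_interp (K0 := K3) target_K3.faithful (W := fun y => WF p y) (δ := gr)
    (fun _ _ h => oiso_symm h) (bp_WF p)
    (measurable_dc (fun u => bp_vx u) (fun u v => bp_aj u v))
    (fun _ _ ⟨_, h⟩ w => w.map h) (fun _ _ wy wz => gr_iso wy wz)
    (fun g hg => gr_ex hg.1) fun _ w => w.ki

end Pool.Agent.N649.SV.I
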