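import Pool.Agent.N649.SV.Main

set_option autoImplicit false

/-!
# Operations as ternary relations; rectangular groups with trivial subgroups
-/

namespace Pool.Agent.N649.SV

open Pool.Agent.N649.SG.Light
open Pool.Agent.W889.VC (Faithful BP VCof Dich Str Iso)

/-- the relational language with one ternary relation -/
abbrev A3 : ℕ → ℕ := fun _ => 3

/-- the triple -/
def tri (m n k : ℕ) : Fin 3 → ℕ := ![m, n, k]

/-- `x` is the graph of an operation, in all places -/
def IsGr (x : Str A3) : Prop :=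
  (∀ m n, ∃ k, x 0 (tri m n k) = true) ∧
  (∀ m n k l, x 0 (tri m n k) = true → x 0 (tri m n l) = true → k = l) ∧
  ∀ i v, x i v = x 0 v

open Classical in
/-- the operation of a graph -/
noncomputable def dec (x : Str A3) : Bin := fun m n =>
  if h : ∃ k, x 0 (tri m n k) = true then Nat.find h else 0

theorem dec_spec {x : Str A3} (h : IsGr x) (m n k : ℕ) :
    dec x m n = k ↔ x 0 (tri m n k) = true := by
  classical
  have h1 : ∃ k, x 0 (tri m n k) = true := h.1 m n
  have h2 : dec x m n = Nat.find h1 := by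
    unfold dec
    rw [dif_pos h1]
  rw [h2]
  constructor
  · rintro rfl
    exact Nat.find_spec h1
  · intro h3
    exact h.2.1 m n _ _ (Nat.find_spec h1) h3

/-- the graph of an operation -/
def gph (o : Bin) : Str A3 := fun _ v => decide (o (v 0) (v 1) = v 2)

theorem gph_tri (o : Bin) (i m n k : ℕ) : gph o i (tri m n k) = true ↔ o m n = k := by
  exact decide_eq_true_iff

theorem gph_gr (o : Bin) : IsGr (gph o) := by
  refine ⟨fun m n => ⟨o m n, (gph_tri o 0 m n _).2 rfl⟩, fun m n k l h1 h2 => ?_, fun i v => rfl⟩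
  rw [← (gph_tri o 0 m n k).1 h1, (gph_tri o 0 m n l).1 h2]

theorem dec_gph (o : Bin) : dec (gph o) = o := by
  funext m n
  exact (dec_spec (gph_gr o) m n _).2 ((gph_tri o 0 m n _).2 rfl)

theorem tri_eta (v : Fin 3 → ℕ) : v = tri (v 0) (v 1) (v 2) := by
  funext i
  fin_cases i <;> rfl

theorem bp_at (i : ℕ) (v : Fin 3 → ℕ) : BP (fun x : Str A3 => x i v = true) := by
  have h : Measurable fun x : Str A3 => x i v :=
    (measurable_pi_apply v).comp (measurable_pi_apply i)
  exact h (measurableSet_singleton true)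

theorem bp_gr : BP IsGr := by
  refine (BP.all fun m => BP.all fun n => BP.ex fun k => bp_at 0 _).and
    ((BP.all fun m => BP.all fun n => BP.all fun k => BP.all fun l =>
      (bp_at 0 _).imp ((bp_at 0 _).imp (BP.const _))).and ?_)
  refine BP.all fun i => BP.all fun v => ?_
  refine ((bp_at i v).iff (bp_at 0 v)).congr fun x => ?_
  cases x i v <;> cases x 0 v <;> simp

theorem measurable_dec : Measurable fun x : Str A3 => dec x := by
  refine measurable_pi_iff.2 fun m => measurable_pi_iff.2 fun n => ?_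
  refine measurable_to_countable' fun k => ?_
  classical
  have h : (fun x : Str A3 => dec x m n) ⁻¹' {k} = {x : Str A3 |
      (x 0 (tri m n k) = true ∧ ∀ l, l < k → ¬ x 0 (tri m n l) = true) ∨
        ((∀ l, ¬ x 0 (tri m n l) = true) ∧ k = 0)} := by
    ext x
    simp only [Set.mem_preimage, Set.mem_singleton_iff, Set.mem_ofPred_eq]
    unfold dec
    by_cases h1 : ∃ k, x 0 (tri m n k) = true
    · rw [dif_pos h1, Nat.find_eq_iff]
      constructor
      · intro h2
        exact Or.inl h2
      · rintro (h2 | ⟨h2, -⟩)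
        · exact h2
        · obtain ⟨l, hl⟩ := h1
          exact absurd hl (h2 l)
    · rw [dif_neg h1]
      constructor
      · rintro rfl
        exact Or.inr ⟨fun l hl => h1 ⟨l, hl⟩, rfl⟩
      · rintro (⟨h2, -⟩ | ⟨-, h2⟩)
        · exact absurd ⟨k, h2⟩ h1
        · exact h2.symm
  rw [h]
  exact ((bp_at 0 _).and (BP.all fun l => (BP.const _).imp (bp_at 0 _).not)).or
    ((BP.all fun l => (bp_at 0 _).not).and (BP.const _))

theorem iso_dec {x y : Str A3} (hx : IsGr x) (hy : IsGr y) : Iso x y ↔ OIso (dec x) (dec y) := by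
  constructor
  · rintro ⟨σ, h⟩
    refine ⟨σ, fun m n => ?_⟩
    rw [dec_spec hy]
    have h1 := h 0 (tri m n (dec x m n))
    have h2 : (⇑σ ∘ tri m n (dec x m n) : Fin 3 → ℕ) = tri (σ m) (σ n) (σ (dec x m n)) := by
      funext i
      fin_cases i <;> rfl
    rw [h2] at h1
    rw [h1]
    exact (dec_spec hx m n _).1 rfl
  · rintro ⟨σ, h⟩
    refine ⟨σ, fun i v => ?_⟩
    rw [hy.2.2 i, hx.2.2 i]
    have h2 : (⇑σ ∘ v : Fin 3 → ℕ) = tri (σ (v 0)) (σ (v 1)) (σ (v 2)) := by
      funext i
      fin_cases i <;> rfl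
    have h3 : y 0 (⇑σ ∘ v) = true ↔ x 0 v = true := by
      rw [h2, ← dec_spec hy, h]
      conv_rhs => rw [tri_eta v]
      rw [← dec_spec hx]
      exact σ.injective.eq_iff
    cases hxx : x 0 v <;> cases hyy : y 0 (⇑σ ∘ v) <;> simp_all

/-- Vaught's conjecture for ternary relations implies it for operations. -/
theorem vc_of_rel (h : VCof True (Iso (a := A3)) (fun _ => True)) (K : Bin → Prop) :
    VCof True OIso K := by
  intro B hB hinv _
  let B' : Set (Str A3) := {x | IsGr x ∧ dec x ∈ B}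
  have hB' : MeasurableSet B' := MeasurableSet.inter bp_gr (measurable_dec hB)
  have hgr : ∀ x y : Str A3, Iso x y → IsGr x → IsGr y := by
    rintro x y ⟨σ, h⟩ ⟨h1, h2, h3⟩
    have e : ∀ m n k, y 0 (tri m n k) = x 0 (tri (σ.symm m) (σ.symm n) (σ.symm k)) := by
      intro m n k
      rw [← h]
      congr 1
      funext i
      fin_cases i <;> simp [tri]
    refine ⟨fun m n => ?_, fun m n k l hk hl => ?_, fun i v => ?_⟩
    · obtain ⟨k, hk⟩ := h1 (σ.symm m) (σ.symm n)
      exact ⟨σ k, by rw [e, σ.symm_apply_apply]; exact hk⟩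
    · rw [e] at hk hl
      exact σ.symm.injective (h2 _ _ _ _ hk hl)
    · have hv : v = ⇑σ ∘ (⇑σ.symm ∘ v) := by
        funext i
        simp
      rw [hv, h, h, h3]
  have hsymm : ∀ x y : Str A3, Iso x y → Iso y x := fun x y h => W889.VC.Iso.symm h
  have hinv' : ∀ x y : Str A3, Iso x y → (x ∈ B' ↔ y ∈ B') := by
    have key : ∀ x y : Str A3, Iso x y → x ∈ B' → y ∈ B' := by
      rintro x y hxy ⟨h1, h2⟩
      have h3 := hgr x y hxy h1
      exact ⟨h3, (hinv _ _ ((iso_dec h1 h3).1 hxy)).1 h2⟩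
    exact fun x y hxy => ⟨key x y hxy, key y x (hsymm x y hxy)⟩
  rcases h B' hB' hinv' (fun _ _ => trivial) with ⟨f, hf⟩ | ⟨g, h1, h2, h3⟩
  · left
    refine ⟨fun n => dec (f n), fun o ho => ?_⟩
    have h1 : gph o ∈ B' := ⟨gph_gr o, by rw [dec_gph]; exact ho⟩
    obtain ⟨n, hn⟩ := hf _ h1
    have h2 : f n ∈ B' := (hinv' _ _ hn).2 h1
    refine ⟨n, ?_⟩
    have h3 := (iso_dec h2.1 (gph_gr o)).1 hn
    rwa [dec_gph] at h3
  · right
    refine ⟨fun c => dec (g c), fun _ => ?_, fun c => (h2 c).2, fun c d hcd => ?_⟩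
    · have h1 := h1 trivial
      refine continuous_pi fun m => continuous_pi fun n => ?_
      refine continuous_discrete_rng.2 fun k => ?_
      have h4 : (fun c => dec (g c) m n) ⁻¹' {k} = (fun c => g c 0 (tri m n k)) ⁻¹' {true} := by
        ext c
        exact dec_spec (h2 c).1 m n k
      rw [h4]
      have h5 : Continuous fun c => g c 0 (tri m n k) :=
        (continuous_apply (tri m n k)).comp ((continuous_apply 0).comp h1)
      exact h5.isOpen_preimage _ (isOpen_discrete _)
    · exact h3 c d ((iso_dec (h2 c).1 (h2 d).1).2 hcd)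

/-- rectangular groups with trivial subgroups are bands -/
theorem rect_band {E : Set (T × T)}
    (hg : ∀ (M : Type) (o : M → M → M), SG o → Sa E o →
      (∀ a b : M, (∃ x, o a x = b) ∧ ∃ x, o x a = b) → Subsingleton M)
    {M : Type} {o : M → M → M} (hE : Sa E o) (hr : RectGp o) (a : M) : o a a = a := by
  obtain ⟨has, hreg, hid⟩ := hr
  obtain ⟨a', ha'⟩ := hreg a
  obtain ⟨e, he⟩ : ∃ e, e = o a a' := ⟨_, rfl⟩
  rw [← he] at ha'
  have hee : o e e = e := by
    calc o e e = o (o e a) a' := by rw [has, ← he]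
      _ = e := by rw [ha', ← he]
  have hea : o e a = a := ha'
  have hclosed : ∀ x y : M, (o e x = x ∧ o x e = x) → (o e y = y ∧ o y e = y) →
      o e (o x y) = o x y ∧ o (o x y) e = o x y := by
    rintro x y ⟨h1, h2⟩ ⟨h3, h4⟩
    exact ⟨by rw [← has, h1], by rw [has, h4]⟩
  let H : Type := {x : M // o e x = x ∧ o x e = x}
  let oH : H → H → H := fun x y => ⟨o x.1 y.1, hclosed _ _ x.2 y.2⟩
  have hsg : SG oH := fun x y z => Subtype.ext (has x.1 y.1 z.1)
  have hs : Sa E oH := sa_inj (fun x : H => x.1) Subtype.val_injective (fun x y => rfl) hE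
  have huniq : ∀ x : M, (o e x = x ∧ o x e = x) → o x x = x → x = e := by
    rintro x ⟨h1, h2⟩ h3
    have := hid e x hee h3
    rwa [h1, h2] at this
  have hgp : ∀ x y : H, (∃ z, oH x z = y) ∧ ∃ z, oH z x = y := by
    intro x y
    obtain ⟨x', hx'⟩ := hreg x.1
    obtain ⟨h1, h2⟩ := x.2
    let z : M := o (o e x') e
    have hz : o e z = z ∧ o z e = z := by
      refine ⟨?_, ?_⟩
      · change o e (o (o e x') e) = o (o e x') e
        rw [← has, ← has, hee]
      · change o (o (o e x') e) e = o (o e x') e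
        rw [has, hee]
    have hxz : o (o x.1 z) x.1 = x.1 := by
      change o (o x.1 (o (o e x') e)) x.1 = x.1
      rw [← has, ← has, h2, has (o x.1 x'), h1, hx']
    have k1 : o x.1 z = e := by
      refine huniq _ (hclosed _ _ x.2 hz) ?_
      rw [← has, hxz]
    have k2 : o z x.1 = e := by
      refine huniq _ (hclosed _ _ hz x.2) ?_
      rw [has, ← has x.1, hxz]
    refine ⟨⟨oH ⟨z, hz⟩ y, Subtype.ext ?_⟩, ⟨oH y ⟨z, hz⟩, Subtype.ext ?_⟩⟩
    · change o x.1 (o z y.1) = y.1
      rw [← has, k1, y.2.1]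
    · change o (o y.1 z) x.1 = y.1
      rw [has, k2, y.2.2]
  have hsub := hg H oH hsg hs hgp
  have h5 : o (o e a) e = e := by
    have h6 : (o e (o (o e a) e) = o (o e a) e ∧ o (o (o e a) e) e = o (o e a) e) :=
      ⟨by rw [← has, ← has, hee], by rw [has, hee]⟩
    exact congrArg Subtype.val (Subsingleton.elim (⟨_, h6⟩ : H) ⟨e, hee, hee⟩)
  calc o a a = o (o (o e a) e) a := by rw [hea, has, hea]
    _ = a := by rw [h5, hea]

end Pool.Agent.N649.SV
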