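import Pool.Agent.N649.SV.Stm
import Pool.Agent.W889.SD.Deg

set_option autoImplicit false
set_option linter.unusedSectionVars false

/-!
# Semigroups with `x y z = x y` are faithfully complete
-/

namespace Pool.Agent.N649.SV.P

open Pool.Agent.W889.VC (BinStr BIso Faithful BP IsGraph)
open Pool.Agent.W889.SD (dc dc_iso dc_iso' measurable_dc equiv_of_rel nth_equiv faithful_interp K3
  target_K3 rel Big inf_of of_inf)

variable {M N : Type}

/-- vertices -/
def Vx (o : M → M → M) (u : M) : Prop := o u u ≠ u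

/-- adjacency of vertices -/
def Aj (o : M → M → M) (u v : M) : Prop :=
  Vx o u ∧ Vx o v ∧ u ≠ v ∧ ∃ a s, ¬ Vx o a ∧ o u u = s ∧ o u a ≠ s ∧ o v a ≠ s

/-- codes of edges -/
def Ed (o : M → M → M) (p q a : M) : Prop := ¬ Vx o a ∧ a ≠ p ∧ a ≠ q

/-- well formed operations -/
structure W (o : M → M → M) (p q : M) : Prop where
  ne : p ≠ q
  np : ¬ Vx o p
  nq : ¬ Vx o q
  lz : ∀ a, ¬ Vx o a → ∀ s, o a s = a
  vv : ∀ u v, Vx o u → Vx o v → o u v = p
  vp : ∀ u, Vx o u → o u p = p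
  vq : ∀ u, Vx o u → o u q = p
  va : ∀ u a, Vx o u → ¬ Vx o a → o u a = p ∨ o u a = q
  two : ∀ a, Ed o p q a → ∃ u v, Vx o u ∧ Vx o v ∧ u ≠ v ∧ ∀ w, Vx o w → (o w a = q ↔ w = u ∨ w = v)
  inj : ∀ a b u v, Ed o p q a → Ed o p q b → Vx o u → Vx o v → u ≠ v → o u a = q → o v a = q →
    o u b = q → o v b = q → a = b
  inf : Infinite {u // Vx o u}

theorem W.kp {o : M → M → M} {p q : M} (w : W o p q) : KP o := by
  have h1 : ∀ x y, ¬ Vx o (o x y) := fun x y => by
    by_cases hx : Vx o x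
    · by_cases hy : Vx o y
      · rw [w.vv x y hx hy]
        exact w.np
      · rcases w.va x y hx hy with h | h <;> rw [h]
        · exact w.np
        · exact w.nq
    · rw [w.lz x hx]
      exact hx
  refine ⟨fun x y z => w.lz _ (h1 x y) z, fun x y z => ?_⟩
  by_cases hy : Vx o y
  · by_cases hx : Vx o x
    · rw [w.vv x y hx hy]
      by_cases hz : Vx o z
      · rw [w.vv y z hy hz, w.vp x hx]
      · rcases w.va y z hy hz with h | h <;> rw [h]
        · exact w.vp x hx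
        · exact w.vq x hx
    · rw [w.lz x hx, w.lz x hx]
  · rw [w.lz y hy]

section map

variable {y : M → M → M} {z : N → N → N} {σ : M ≃ N}

theorem vx_map (h : ∀ m n, z (σ m) (σ n) = σ (y m n)) (u : M) : Vx z (σ u) ↔ Vx y u := by
  unfold Vx
  rw [h, Ne, Ne, σ.apply_eq_iff_eq]

theorem ed_map (h : ∀ m n, z (σ m) (σ n) = σ (y m n)) (p q a : M) :
    Ed z (σ p) (σ q) (σ a) ↔ Ed y p q a := by
  unfold Ed
  rw [vx_map h, Ne, Ne, σ.apply_eq_iff_eq, σ.apply_eq_iff_eq]

theorem aj_map (h : ∀ m n, z (σ m) (σ n) = σ (y m n)) (u v : M) :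
    Aj z (σ u) (σ v) ↔ Aj y u v := by
  unfold Aj
  rw [vx_map h, vx_map h, Ne, Ne, σ.apply_eq_iff_eq]
  refine and_congr Iff.rfl (and_congr Iff.rfl (and_congr Iff.rfl ?_))
  constructor
  · rintro ⟨a, s, h1, h2, h3, h4⟩
    obtain ⟨a, rfl⟩ := σ.surjective a
    obtain ⟨s, rfl⟩ := σ.surjective s
    rw [vx_map h] at h1
    rw [h, σ.apply_eq_iff_eq] at h2
    rw [h, Ne, σ.apply_eq_iff_eq] at h3 h4
    exact ⟨a, s, h1, h2, h3, h4⟩
  · rintro ⟨a, s, h1, h2, h3, h4⟩
    refine ⟨σ a, σ s, (vx_map h a).not.2 h1, by rw [h, h2], ?_, ?_⟩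
    · rw [h, Ne, σ.apply_eq_iff_eq]
      exact h3
    · rw [h, Ne, σ.apply_eq_iff_eq]
      exact h4

theorem W.map (h : ∀ m n, z (σ m) (σ n) = σ (y m n)) {p q : M} (w : W y p q) :
    W z (σ p) (σ q) := by
  refine ⟨fun e => w.ne (σ.injective e), (vx_map h p).not.2 w.np, (vx_map h q).not.2 w.nq,
    fun a h1 s => ?_, fun u v hu hv => ?_, fun u hu => ?_, fun u hu => ?_, fun u a hu ha => ?_,
    fun a ha => ?_, fun a b u v ha hb hu hv h1 h2 h3 h4 h5 => ?_, ?_⟩
  · obtain ⟨a, rfl⟩ := σ.surjective a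
    obtain ⟨s, rfl⟩ := σ.surjective s
    rw [h, w.lz a ((vx_map h a).not.1 h1)]
  · obtain ⟨u, rfl⟩ := σ.surjective u
    obtain ⟨v, rfl⟩ := σ.surjective v
    rw [h, w.vv u v ((vx_map h u).1 hu) ((vx_map h v).1 hv)]
  · obtain ⟨u, rfl⟩ := σ.surjective u
    rw [h, w.vp u ((vx_map h u).1 hu)]
  · obtain ⟨u, rfl⟩ := σ.surjective u
    rw [h, w.vq u ((vx_map h u).1 hu)]
  · obtain ⟨u, rfl⟩ := σ.surjective u
    obtain ⟨a, rfl⟩ := σ.surjective a
    rw [h, σ.apply_eq_iff_eq, σ.apply_eq_iff_eq]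
    exact w.va u a ((vx_map h u).1 hu) ((vx_map h a).not.1 ha)
  · obtain ⟨a, rfl⟩ := σ.surjective a
    obtain ⟨u, v, hu, hv, huv, hw⟩ := w.two a ((ed_map h p q a).1 ha)
    refine ⟨σ u, σ v, (vx_map h u).2 hu, (vx_map h v).2 hv, fun e => huv (σ.injective e),
      fun x hx => ?_⟩
    obtain ⟨x, rfl⟩ := σ.surjective x
    rw [h, σ.apply_eq_iff_eq, σ.apply_eq_iff_eq, σ.apply_eq_iff_eq]
    exact hw x ((vx_map h x).1 hx)
  · obtain ⟨a, rfl⟩ := σ.surjective a
    obtain ⟨b, rfl⟩ := σ.surjective b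
    obtain ⟨u, rfl⟩ := σ.surjective u
    obtain ⟨v, rfl⟩ := σ.surjective v
    rw [h, σ.apply_eq_iff_eq] at h2 h3 h4 h5
    rw [w.inj a b u v ((ed_map h p q a).1 ha) ((ed_map h p q b).1 hb) ((vx_map h u).1 hu)
      ((vx_map h v).1 hv) (fun e => h1 (by rw [e])) h2 h3 h4 h5]
  · have := w.inf
    exact Infinite.of_injective (fun u : {u // Vx y u} =>
      (⟨σ u, (vx_map h u).2 u.2⟩ : {u // Vx z u})) fun u v huv =>
        Subtype.ext (σ.injective (congrArg Subtype.val huv))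

end map

/-! ### extension of isomorphisms of graphs -/

/-- corresponding elements -/
def R (y : M → M → M) (z : N → N → N) (p q : M) (p' q' : N)
    (π : {u // Vx y u} ≃ {u // Vx z u}) (m : M) (m' : N) : Prop :=
  (∃ u : {u // Vx y u}, u.1 = m ∧ (π u).1 = m') ∨
  (¬ Vx y m ∧ ¬ Vx z m' ∧ (m = p ↔ m' = p') ∧ (m = q ↔ m' = q') ∧
    ∀ u : {u // Vx y u}, (y u m = q ↔ z (π u) m' = q'))

section ext

variable {y : M → M → M} {z : N → N → N} {p q : M} {p' q' : N}
  {π : {u // Vx y u} ≃ {u // Vx z u}}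

theorem R.symm {m : M} {m' : N} (h : R y z p q p' q' π m m') : R z y p' q' p q π.symm m' m := by
  rcases h with ⟨u, h1, h2⟩ | ⟨h1, h2, h3, h4, h5⟩
  · exact Or.inl ⟨π u, h2, by rw [π.symm_apply_apply, h1]⟩
  · refine Or.inr ⟨h2, h1, h3.symm, h4.symm, fun u => ?_⟩
    obtain ⟨u, rfl⟩ := π.surjective u
    rw [π.symm_apply_apply]
    exact (h5 u).symm

theorem R.fn (wz : W z p' q') {m : M} {m' m'' : N} (h : R y z p q p' q' π m m')
    (h' : R y z p q p' q' π m m'') : m' = m'' := by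
  rcases h with ⟨u, h1, h2⟩ | ⟨h1, h2, h3, h4, h5⟩
  · rcases h' with ⟨v, k1, k2⟩ | ⟨k1, -⟩
    · rw [← h2, ← k2, Subtype.ext (h1.trans k1.symm)]
    · exact absurd u.2 (by rw [h1]; exact k1)
  · rcases h' with ⟨v, k1, k2⟩ | ⟨-, k2, k3, k4, k5⟩
    · exact absurd v.2 (by rw [k1]; exact h1)
    · by_cases e1 : m' = p'
      · rw [e1, k3.1 (h3.2 e1)]
      · by_cases e2 : m' = q'
        · rw [e2, k4.1 (h4.2 e2)]
        · have e3 : m'' ≠ p' := fun e => e1 (h3.1 (k3.2 e))
          have e4 : m'' ≠ q' := fun e => e2 (h4.1 (k4.2 e))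
          obtain ⟨u, v, hu, hv, huv, hw⟩ := wz.two m' ⟨h2, e1, e2⟩
          have hall : ∀ x, Vx z x → (z x m' = q' ↔ z x m'' = q') := fun x hx => by
            obtain ⟨x', hx'⟩ := π.surjective ⟨x, hx⟩
            have h6 := h5 x'
            have h7 := k5 x'
            rw [hx'] at h6 h7
            exact h6.symm.trans h7
          have f1 := (hw u hu).2 (Or.inl rfl)
          have f2 := (hw v hv).2 (Or.inr rfl)
          exact wz.inj m' m'' u v ⟨h2, e1, e2⟩ ⟨k2, e3, e4⟩ hu hv huv f1 f2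
            ((hall u hu).1 f1) ((hall v hv).1 f2)

theorem R.pp (wy : W y p q) (wz : W z p' q') : R y z p q p' q' π p p' := by
  refine Or.inr ⟨wy.np, wz.np, by simp, ?_, fun u => ?_⟩
  · exact iff_of_false wy.ne wz.ne
  · rw [wy.vp u u.2, wz.vp _ (π u).2]
    exact iff_of_false wy.ne wz.ne

theorem R.qq (wy : W y p q) (wz : W z p' q') : R y z p q p' q' π q q' := by
  refine Or.inr ⟨wy.nq, wz.nq, ?_, by simp, fun u => ?_⟩
  · exact iff_of_false wy.ne.symm wz.ne.symm
  · rw [wy.vq u u.2, wz.vq _ (π u).2]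
    exact iff_of_false wy.ne wz.ne

/-- the two vertices of an edge -/
theorem W.ends (w : W y p q) {a : M} (ha : Ed y p q a) {u v : M} (hu : Vx y u) (hv : Vx y v)
    (huv : u ≠ v) (h1 : y u a = q) (h2 : y v a = q) (x : M) (hx : Vx y x) :
    y x a = q ↔ x = u ∨ x = v := by
  obtain ⟨s, t, -, -, -, hw⟩ := w.two a ha
  rw [hw x hx]
  rw [hw u hu] at h1
  rw [hw v hv] at h2
  rcases h1 with rfl | rfl
  · rcases h2 with rfl | rfl
    · exact absurd rfl huv
    · rfl
  · rcases h2 with rfl | rfl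
    · exact or_comm
    · exact absurd rfl huv

theorem R.ex (wy : W y p q) (wz : W z p' q')
    (hπ : ∀ u v : {u // Vx y u}, Aj y u v → Aj z (π u) (π v)) (m : M) :
    ∃ m', R y z p q p' q' π m m' := by
  by_cases hm : Vx y m
  · exact ⟨π ⟨m, hm⟩, Or.inl ⟨⟨m, hm⟩, rfl, rfl⟩⟩
  by_cases h1 : m = p
  · subst h1
    exact ⟨p', R.pp wy wz⟩
  by_cases h2 : m = q
  · subst h2
    exact ⟨q', R.qq wy wz⟩
  obtain ⟨u, v, hu, hv, huv, hw⟩ := wy.two m ⟨hm, h1, h2⟩
  have f1 := (hw u hu).2 (Or.inl rfl)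
  have f2 := (hw v hv).2 (Or.inr rfl)
  have hA : Aj y (⟨u, hu⟩ : {u // Vx y u}).1 (⟨v, hv⟩ : {u // Vx y u}).1 := by
    refine ⟨hu, hv, huv, m, p, hm, wy.vv u u hu hu, ?_, ?_⟩
    · show y u m ≠ p
      rw [f1]
      exact wy.ne.symm
    · show y v m ≠ p
      rw [f2]
      exact wy.ne.symm
  obtain ⟨hu', hv', huv', a, s, ha, h3, h4, h5⟩ := hπ _ _ hA
  rw [wz.vv _ _ hu' hu'] at h3
  subst h3
  have h6 := (wz.va _ a hu' ha).resolve_left h4
  have h7 := (wz.va _ a hv' ha).resolve_left h5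
  have e1 : a ≠ p' := by
    rintro rfl
    exact h4 (wz.vp _ hu')
  have e2 : a ≠ q' := by
    rintro rfl
    exact h4 (wz.vq _ hu')
  refine ⟨a, Or.inr ⟨hm, ha, iff_of_false h1 e1, iff_of_false h2 e2, fun w => ?_⟩⟩
  rw [hw w w.2, wz.ends ⟨ha, e1, e2⟩ hu' hv' huv' h6 h7 _ (π w).2]
  refine or_congr ?_ ?_
  · constructor
    · intro e
      rw [show w = ⟨u, hu⟩ from Subtype.ext e]
    · intro e
      exact congrArg Subtype.val (π.injective (Subtype.ext e))
  · constructor
    · intro e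
      rw [show w = ⟨v, hv⟩ from Subtype.ext e]
    · intro e
      exact congrArg Subtype.val (π.injective (Subtype.ext e))

theorem R.mul (wy : W y p q) (wz : W z p' q') {m n : M} {m' n' : N}
    (h : R y z p q p' q' π m m') (h' : R y z p q p' q' π n n') :
    R y z p q p' q' π (y m n) (z m' n') := by
  rcases h with ⟨u, rfl, rfl⟩ | ⟨h1, h2, h3⟩
  · rcases h' with ⟨v, rfl, rfl⟩ | ⟨k1, k2, k3, k4, k5⟩
    · rw [wy.vv _ _ u.2 v.2, wz.vv _ _ (π u).2 (π v).2]
      exact R.pp wy wz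
    · by_cases e : y u n = q
      · rw [e, (k5 u).1 e]
        exact R.qq wy wz
      · rw [(wy.va _ n u.2 k1).resolve_right e,
          (wz.va _ n' (π u).2 k2).resolve_right fun e' => e ((k5 u).2 e')]
        exact R.pp wy wz
  · rw [wy.lz m h1, wz.lz m' h2]
    exact Or.inr ⟨h1, h2, h3⟩

theorem lift_iso (wy : W y p q) (wz : W z p' q')
    (hπ : ∀ u v : {u // Vx y u}, Aj y u v ↔ Aj z (π u) (π v)) :
    ∃ σ : M ≃ N, ∀ m n, z (σ m) (σ n) = σ (y m n) := by
  obtain ⟨σ, hσ⟩ := equiv_of_rel (R y z p q p' q' π)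
    (R.ex wy wz fun u v => (hπ u v).1)
    (fun m' => by
      obtain ⟨m, hm⟩ := R.ex (π := π.symm) wz wy (fun u v h => by
        obtain ⟨u, rfl⟩ := π.surjective u
        obtain ⟨v, rfl⟩ := π.surjective v
        rw [π.symm_apply_apply, π.symm_apply_apply]
        exact (hπ u v).2 h) m'
      exact ⟨m, hm.symm⟩)
    (fun _ _ _ h h' => R.fn wz h h') (fun _ _ _ h h' => R.fn wy h.symm h'.symm)
  exact ⟨σ, fun m n => R.fn wz (R.mul wy wz (hσ m) (hσ n)) (hσ _)⟩

end ext

/-! ### measurability -/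

section meas

theorem bp_app (a b c : ℕ) : BP (fun o : Bin => o a b = c) := by
  have h : Measurable fun o : Bin => o a b := (measurable_pi_apply b).comp (measurable_pi_apply a)
  exact h (measurableSet_singleton c)

theorem bp_vx (u : ℕ) : BP (fun o : Bin => Vx o u) := (bp_app u u u).not

theorem bp_ed (p q a : ℕ) : BP (fun o : Bin => Ed o p q a) :=
  (bp_vx a).not.and ((BP.const _).and (BP.const _))

theorem bp_aj (u v : ℕ) : BP (fun o : Bin => Aj o u v) :=
  (bp_vx u).and <| (bp_vx v).and <| (BP.const _).and <| BP.ex fun a => BP.ex fun s =>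
    (bp_vx a).not.and <| (bp_app u u s).and <| (bp_app u a s).not.and (bp_app v a s).not

/-- well formed operations -/
def WF (o : Bin) : Prop := ∃ p q, W o p q

theorem bp_W (p q : ℕ) : BP (fun o : Bin => W o p q) := by
  have : BP (fun o : Bin => p ≠ q ∧ ¬ Vx o p ∧ ¬ Vx o q ∧ (∀ a, ¬ Vx o a → ∀ s, o a s = a) ∧
      (∀ u v, Vx o u → Vx o v → o u v = p) ∧ (∀ u, Vx o u → o u p = p) ∧
      (∀ u, Vx o u → o u q = p) ∧ (∀ u a, Vx o u → ¬ Vx o a → o u a = p ∨ o u a = q) ∧
      (∀ a, Ed o p q a → ∃ u v, Vx o u ∧ Vx o v ∧ u ≠ v ∧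
        ∀ w, Vx o w → (o w a = q ↔ w = u ∨ w = v)) ∧
      (∀ a b u v, Ed o p q a → Ed o p q b → Vx o u → Vx o v → u ≠ v → o u a = q → o v a = q →
        o u b = q → o v b = q → a = b) ∧ ∀ N, ∃ u, N ≤ u ∧ Vx o u) :=
    (BP.const _).and <| (bp_vx p).not.and <| (bp_vx q).not.and <|
    (BP.all fun a => (bp_vx a).not.imp <| BP.all fun s => bp_app a s a).and <|
    (BP.all fun u => BP.all fun v => (bp_vx u).imp <| (bp_vx v).imp (bp_app u v p)).and <|
    (BP.all fun u => (bp_vx u).imp (bp_app u p p)).and <|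
    (BP.all fun u => (bp_vx u).imp (bp_app u q p)).and <|
    (BP.all fun u => BP.all fun a => (bp_vx u).imp <| (bp_vx a).not.imp
      ((bp_app u a p).or (bp_app u a q))).and <|
    (BP.all fun a => (bp_ed p q a).imp <| BP.ex fun u => BP.ex fun v => (bp_vx u).and <|
      (bp_vx v).and <| (BP.const _).and <| BP.all fun w => (bp_vx w).imp <|
        (bp_app w a q).iff (BP.const _)).and <|
    (BP.all fun a => BP.all fun b => BP.all fun u => BP.all fun v => (bp_ed p q a).imp <|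
      (bp_ed p q b).imp <| (bp_vx u).imp <| (bp_vx v).imp <| (BP.const _).imp <|
      (bp_app u a q).imp <| (bp_app v a q).imp <| (bp_app u b q).imp <| (bp_app v b q).imp
      (BP.const _)).and <|
    BP.all fun N => BP.ex fun u => (BP.const _).and (bp_vx u)
  refine this.congr fun o => ⟨?_, ?_⟩
  · rintro ⟨h1, h2, h3, h4, h5, h6, h7, h8, h9, h10, h11⟩
    exact ⟨h1, h2, h3, h4, h5, h6, h7, h8, h9, h10, inf_of h11⟩
  · rintro ⟨h1, h2, h3, h4, h5, h6, h7, h8, h9, h10, h11⟩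
    exact ⟨h1, h2, h3, h4, h5, h6, h7, h8, h9, h10, of_inf h11⟩

theorem bp_WF : BP (fun o : Bin => WF o) := BP.ex fun p => BP.ex fun q => bp_W p q

end meas

/-! ### codes of graphs -/

section code

variable (g : BinStr)

/-- edges -/
abbrev Eg : Type := {e : ℕ × ℕ // e.1 < e.2 ∧ g e.1 e.2 = true}

/-- the elements of the code: vertices, edges, `p` (false) and `q` (true) -/
abbrev Cd : Type := ℕ ⊕ (Eg g ⊕ Bool)

open Classical in
/-- the code -/
noncomputable def op : Cd g → Cd g → Cd g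
  | .inl u, .inr (.inl e) => .inr (.inr (decide (u = e.1.1 ∨ u = e.1.2)))
  | .inl _, _ => .inr (.inr false)
  | .inr x, _ => .inr x

variable {g}

theorem vx_inl (u : ℕ) : Vx (op g) (.inl u) := by
  intro h
  simp [op] at h

theorem vx_inr (x : Eg g ⊕ Bool) : ¬ Vx (op g) (.inr x) := by
  intro h
  exact h rfl

theorem op_e (u : ℕ) (e : Eg g) :
    op g (.inl u) (.inr (.inl e)) = .inr (.inr true) ↔ (u = e.1.1 ∨ u = e.1.2) := by
  simp [op]

theorem op_W : W (op g) (.inr (.inr false)) (.inr (.inr true)) := by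
  refine ⟨by simp, vx_inr _, vx_inr _, fun a h1 s => ?_, fun u v hu hv => ?_, fun u hu => ?_,
    fun u hu => ?_, fun u a hu ha => ?_, fun a ha => ?_,
    fun a b u v ha hb hu hv h1 h2 h3 h4 h5 => ?_, ?_⟩
  · rcases a with a | a
    · exact absurd (vx_inl a) h1
    · rfl
  · rcases u with u | u
    · rcases v with v | v
      · rfl
      · exact absurd hv (vx_inr v)
    · exact absurd hu (vx_inr u)
  · rcases u with u | u
    · rfl
    · exact absurd hu (vx_inr u)
  · rcases u with u | u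
    · rfl
    · exact absurd hu (vx_inr u)
  · rcases u with u | u
    · rcases a with a | a | b
      · exact absurd (vx_inl a) ha
      · by_cases h : u = a.1.1 ∨ u = a.1.2
        · exact Or.inr ((op_e u a).2 h)
        · left
          simp [op, h]
      · exact Or.inl rfl
    · exact absurd hu (vx_inr u)
  · obtain ⟨ha, h1, h2⟩ := ha
    rcases a with a | a | b
    · exact absurd (vx_inl a) ha
    · refine ⟨.inl a.1.1, .inl a.1.2, vx_inl _, vx_inl _, fun e => ?_, fun w hw => ?_⟩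
      · have := a.2.1
        have h3 := Sum.inl.inj e
        omega
      · rcases w with w | w
        · rw [op_e, Sum.inl.injEq, Sum.inl.injEq]
        · exact absurd hw (vx_inr w)
    · rcases b with - | -
      · exact absurd rfl h1
      · exact absurd rfl h2
  · obtain ⟨ha, k1, k2⟩ := ha
    obtain ⟨hb, k3, k4⟩ := hb
    rcases a with a | a | c
    · exact absurd (vx_inl a) ha
    · rcases b with b | b | c
      · exact absurd (vx_inl b) hb
      · rcases u with u | u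
        · rcases v with v | v
          · rw [op_e] at h2 h3 h4 h5
            have huv : u ≠ v := fun e => h1 (by rw [e])
            have ea := a.2.1
            have eb := b.2.1
            have e1 : a.1.1 = b.1.1 := by omega
            have e2 : a.1.2 = b.1.2 := by omega
            rw [show a = b from Subtype.ext (Prod.ext e1 e2)]
          · exact absurd hv (vx_inr v)
        · exact absurd hu (vx_inr u)
      · rcases c with - | -
        · exact absurd rfl k3
        · exact absurd rfl k4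
    · rcases c with - | -
      · exact absurd rfl k1
      · exact absurd rfl k2
  · exact Infinite.of_injective (fun u : ℕ => (⟨.inl u, vx_inl u⟩ : {u // Vx (op g) u}))
      fun u v h => Sum.inl.inj (congrArg Subtype.val h)

theorem aj_op (hg : IsGraph g) (u v : ℕ) :
    Aj (op g) (.inl u) (.inl v) ↔ g u v = true := by
  constructor
  · rintro ⟨-, -, h1, a, s, ha, h2, h3, h4⟩
    have h1' : u ≠ v := fun e => h1 (by rw [e])
    have h2' : s = .inr (.inr false) := h2.symm
    subst h2'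
    rcases a with a | a | c
    · exact absurd (vx_inl a) ha
    · have h5 := (op_W (g := g)).va _ _ (vx_inl u) ha
      have h6 := (op_W (g := g)).va _ _ (vx_inl v) ha
      have h7 := (op_e u a).1 (h5.resolve_left h3)
      have h8 := (op_e v a).1 (h6.resolve_left h4)
      rcases h7 with h7 | h7 <;> rcases h8 with h8 | h8
      · omega
      · rw [h7, h8]
        exact a.2.2
      · rw [h7, h8]
        exact hg.symm _ _ a.2.2
      · omega
    · exact absurd rfl h3
  · intro h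
    have huv : u ≠ v := by
      rintro rfl
      rw [hg.irrefl u] at h
      exact absurd h (by decide)
    have key : ∀ (e : Eg g), (u = e.1.1 ∨ u = e.1.2) → (v = e.1.1 ∨ v = e.1.2) →
        Aj (op g) (.inl u) (.inl v) := fun e h1 h2 => by
      refine ⟨vx_inl u, vx_inl v, fun e => huv (Sum.inl.inj e), .inr (.inl e), _, vx_inr _, rfl,
        ?_, ?_⟩
      · rw [(op_e u e).2 h1]
        simp [op]
      · rw [(op_e v e).2 h2]
        simp [op]
    rcases lt_or_gt_of_ne huv with h1 | h1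
    · exact key ⟨(u, v), h1, h⟩ (Or.inl rfl) (Or.inr rfl)
    · exact key ⟨(v, u), h1, hg.symm _ _ h⟩ (Or.inr rfl) (Or.inl rfl)

end code

/-- the graph of an operation -/
noncomputable def gr : Bin → BinStr := dc (fun y u => Vx y u) (fun y u v => Aj y u v)

theorem WF.inf {y : Bin} (w : WF y) : ∀ N, ∃ u, N ≤ u ∧ Vx y u := by
  obtain ⟨p, q, w⟩ := w
  exact of_inf w.inf

theorem gr_iso {y z : Bin} (wy : WF y) (wz : WF z) : OIso y z ↔ BIso (gr y) (gr z) := by
  unfold gr
  rw [dc_iso (P := fun y u => Vx y u) (A := fun y u v => Aj y u v) wy.inf wz.inf]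
  constructor
  · rintro ⟨σ, h⟩
    exact ⟨σ.subtypeEquiv fun u => (vx_map h u).symm, fun u v => (aj_map h _ _).symm⟩
  · rintro ⟨π, hπ⟩
    obtain ⟨p, q, wy⟩ := wy
    obtain ⟨p', q', wz⟩ := wz
    exact lift_iso wy wz hπ

theorem gr_ex {g : BinStr} (hg : IsGraph g) : ∃ y : Bin, WF y ∧ BIso (gr y) g := by
  obtain ⟨σ⟩ : Nonempty (Cd g ≃ ℕ) := nonempty_equiv_of_countable
  let y : Bin := fun m n => σ (op g (σ.symm m) (σ.symm n))
  have h : ∀ m n, y (σ m) (σ n) = σ (op g m n) := fun m n => by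
    show σ (op g (σ.symm (σ m)) (σ.symm (σ n))) = _
    rw [σ.symm_apply_apply, σ.symm_apply_apply]
  have wy : WF y := ⟨_, _, (op_W (g := g)).map h⟩
  refine ⟨y, wy, ?_⟩
  have hV : ∀ v : ℕ, Vx y (σ (.inl v)) := fun v => (vx_map h _).2 (vx_inl v)
  have hb : Function.Bijective (fun v : ℕ => (⟨σ (.inl v), hV v⟩ : {u // Vx y u})) := by
    constructor
    · intro v v' hvv
      exact Sum.inl.inj (σ.injective (congrArg Subtype.val hvv))
    · rintro ⟨u, hu⟩
      obtain ⟨x, rfl⟩ := σ.surjective u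
      rcases x with x | x
      · exact ⟨x, rfl⟩
      · exact absurd ((vx_map h _).1 hu) (vx_inr x)
  refine dc_iso' (P := fun y u => Vx y u) (A := fun y u v => Aj y u v) wy.inf
    (Equiv.ofBijective _ hb) fun v v' => ?_
  show g v v' = true ↔ Aj y (σ (.inl v)) (σ (.inl v'))
  rw [aj_map h, aj_op hg]

end Pool.Agent.N649.SV.P

namespace Pool.Agent.N649.SV

open Pool.Agent.N649.SV.P in
theorem leaf_P : Leaf_P :=
  Pool.Agent.W889.SD.faithful_interp (K0 := Pool.Agent.W889.SD.K3)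
    Pool.Agent.W889.SD.target_K3.faithful (W := fun y : Bin => WF y) (δ := gr)
    (fun x y ⟨σ, h⟩ => ⟨σ.symm, fun m n => by
      obtain ⟨m, rfl⟩ := σ.surjective m
      obtain ⟨n, rfl⟩ := σ.surjective n
      rw [h, σ.symm_apply_apply, σ.symm_apply_apply, σ.symm_apply_apply]⟩)
    bp_WF (Pool.Agent.W889.SD.measurable_dc (fun u => bp_vx u) (fun u v => bp_aj u v))
    (fun _ _ ⟨_, h⟩ ⟨_, _, w⟩ => ⟨_, _, w.map h⟩) (fun _ _ wy wz => gr_iso wy wz)
    (fun g hg => gr_ex hg.1) fun _ ⟨_, _, w⟩ => w.kp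

end Pool.Agent.N649.SV
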