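import Pool.Agent.N649.SV.Stm
import Pool.Agent.W889.SD.Deg

set_option autoImplicit false

/-!
# Semigroups with `x y z = x z` are faithfully complete (helper774)

The code of a graph `g` on `ℕ`: an inflation of the rectangular band `ℕ × ℕ`; the cell of `(v, w)`
has `3` elements if `v = w`, `2` elements if `v` and `w` are adjacent, and `1` element otherwise.
-/

namespace Pool.Agent.N649.SV.RH

open Pool.Agent.N649.SV
open Pool.Agent.W889.VC (BinStr BIso Faithful BP IsGraph)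
open Pool.Agent.W889.SD (dc dc_iso dc_iso' measurable_dc equiv_of_rel nth_equiv faithful_interp K3
  target_K3 rel inf_of of_inf)

section gen

variable {M N : Type}

/-- the number of elements in the cell of the idempotent `e` -/
noncomputable def cs (o : M → M → M) (e : M) : ℕ := Nat.card {x // o x x = e}

/-- vertices -/
def PP (o : M → M → M) (u : M) : Prop := o u u = u ∧ cs o u = 3

/-- adjacency -/
def AA (o : M → M → M) (u v : M) : Prop := cs o (o u v) = 2

/-- well-formed codes -/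
structure WF (o : M → M → M) : Prop where
  kr : KR o
  row : ∀ e, o e e = e → ∃ u, PP o u ∧ o u e = e
  col : ∀ e, o e e = e → ∃ v, PP o v ∧ o e v = e
  ru : ∀ u v, PP o u → PP o v → o u v = v → u = v
  cu : ∀ u v, PP o u → PP o v → o u v = u → u = v
  size : ∀ u v, PP o u → PP o v → u = v ∨ cs o (o u v) = 2 ∨ cs o (o u v) = 1
  inf : Infinite {u // PP o u}

theorem KR.idem {o : M → M → M} (h : KR o) (x y : M) : o (o x y) (o x y) = o x y := by
  rw [h.1 x y (o x y), h.2 x x y]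

theorem KR.sq {o : M → M → M} (h : KR o) (x y : M) : o x y = o (o x x) (o y y) := by
  rw [h.1, h.2]

theorem KR.sq' {o : M → M → M} (h : KR o) (a b c d : M) : o (o a b) (o c d) = o a d := by
  rw [h.1, h.2]

/-- the cell of an element -/
theorem WF.cell {o : M → M → M} (w : WF o) (x : M) :
    ∃ u v : {u // PP o u}, o x x = o u v := by
  obtain ⟨u, hu, hu'⟩ := w.row (o x x) (KR.idem w.kr x x)
  obtain ⟨v, hv, hv'⟩ := w.col (o x x) (KR.idem w.kr x x)
  refine ⟨⟨u, hu⟩, ⟨v, hv⟩, ?_⟩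
  show o x x = o u v
  rw [← hu', ← hv', w.kr.2]

theorem WF.cell_inj {o : M → M → M} (w : WF o) {u v u' v' : {u // PP o u}}
    (h : o u v = o u' v') : u = u' ∧ v = v' := by
  constructor
  · apply Subtype.ext
    refine (w.ru u' u u'.2 u.2 ?_).symm
    have h1 : o (o u v) u = o (o u' v') u := by rw [h]
    rw [w.kr.1, w.kr.1, u.2.1] at h1
    exact h1.symm
  · apply Subtype.ext
    refine w.cu v v' v.2 v'.2 ?_
    have h1 : o v (o u v) = o v (o u' v') := by rw [h]
    rw [w.kr.2, w.kr.2, v.2.1] at h1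
    exact h1.symm

theorem WF.size_eq {o : M → M → M} {o' : N → N → N} (w : WF o) (w' : WF o')
    (π : {u // PP o u} ≃ {u // PP o' u})
    (hπ : ∀ u v : {u // PP o u}, AA o u v ↔ AA o' (π u) (π v)) (u v : {u // PP o u}) :
    cs o (o u v) = cs o' (o' (π u) (π v)) ∧ cs o (o u v) ≠ 0 := by
  by_cases h : u = v
  · subst h
    rw [u.2.1, (π u).2.1, u.2.2, (π u).2.2]
    exact ⟨rfl, by decide⟩
  · have h1 : (u : M) ≠ v := fun e => h (Subtype.ext e)
    have h2 : ((π u : {u // PP o' u}) : N) ≠ (π v : {u // PP o' u}) := fun e =>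
      h (π.injective (Subtype.ext e))
    have h3 := w.size u v u.2 v.2
    have h4 := w'.size (π u) (π v) (π u).2 (π v).2
    have h5 := hπ u v
    unfold AA at h5
    rcases h3 with h3 | h3 | h3
    · exact absurd h3 h1
    · rw [h3, h5.1 h3]
      exact ⟨rfl, by decide⟩
    · rcases h4 with h4 | h4 | h4
      · exact absurd h4 h2
      · have h6 := h5.2 h4
        omega
      · rw [h3, h4]
        exact ⟨rfl, by decide⟩

/-- isomorphic graphs of vertices give isomorphic semigroups -/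
theorem lift_iso {o : M → M → M} {o' : N → N → N} (w : WF o) (w' : WF o')
    (π : {u // PP o u} ≃ {u // PP o' u})
    (hπ : ∀ u v : {u // PP o u}, AA o u v ↔ AA o' (π u) (π v)) :
    ∃ σ : M ≃ N, ∀ x y, o' (σ x) (σ y) = σ (o x y) := by
  classical
  have h1 : ∀ u v : {u // PP o u}, ∃ ε : {x // o x x = o u v} ≃ {x // o' x x = o' (π u) (π v)},
      ε ⟨o u v, KR.idem w.kr _ _⟩ = ⟨o' (π u) (π v), KR.idem w'.kr _ _⟩ := by
    intro u v
    obtain ⟨h2, h3⟩ := w.size_eq w' π hπ u v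
    unfold cs at h2 h3
    have h4 : Finite {x // o x x = o u v} := Nat.finite_of_card_ne_zero h3
    have h5 : Finite {x // o' x x = o' (π u) (π v)} := Nat.finite_of_card_ne_zero (h2 ▸ h3)
    obtain ⟨ε⟩ := Finite.card_eq.1 h2
    refine ⟨ε.trans (Equiv.swap (ε ⟨o u v, KR.idem w.kr _ _⟩)
      ⟨o' (π u) (π v), KR.idem w'.kr _ _⟩), ?_⟩
    simp
  choose ε hε using h1
  let R : M → N → Prop := fun x x' => ∃ (u v : {u // PP o u}) (h : o x x = o u v),
    (ε u v ⟨x, h⟩ : N) = x'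
  have k3 : ∀ x x' x'', R x x' → R x x'' → x' = x'' := by
    rintro x x' x'' ⟨u, v, h, h'⟩ ⟨u1, v1, h2, h2'⟩
    obtain ⟨rfl, rfl⟩ := w.cell_inj (h.symm.trans h2)
    exact h'.symm.trans h2'
  have k4 : ∀ x y x', R x x' → R y x' → x = y := by
    rintro x y x' ⟨u, v, h, h'⟩ ⟨u1, v1, h2, h2'⟩
    have e1 := (ε u v ⟨x, h⟩).2
    have e2 := (ε u1 v1 ⟨y, h2⟩).2
    rw [h'] at e1
    rw [h2'] at e2
    obtain ⟨e3, e4⟩ := w'.cell_inj (e1.symm.trans e2)
    have e5 := π.injective e3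
    have e6 := π.injective e4
    subst e5 e6
    have e7 : ε u v ⟨x, h⟩ = ε u v ⟨y, h2⟩ := Subtype.ext (h'.trans h2'.symm)
    exact congrArg Subtype.val ((ε u v).injective e7)
  obtain ⟨σ, hσ⟩ := equiv_of_rel R
    (fun x => by
      obtain ⟨u, v, h⟩ := w.cell x
      exact ⟨_, u, v, h, rfl⟩)
    (fun x' => by
      obtain ⟨u', v', h⟩ := w'.cell x'
      obtain ⟨u, rfl⟩ := π.surjective u'
      obtain ⟨v, rfl⟩ := π.surjective v'
      refine ⟨((ε u v).symm ⟨x', h⟩).1, u, v, ((ε u v).symm ⟨x', h⟩).2, ?_⟩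
      rw [Subtype.coe_eta, Equiv.apply_symm_apply]) k3 k4
  refine ⟨σ, fun x y => ?_⟩
  obtain ⟨u, v, h, h'⟩ := hσ x
  obtain ⟨u1, v1, h2, h2'⟩ := hσ y
  have e1 := (ε u v ⟨x, h⟩).2
  have e2 := (ε u1 v1 ⟨y, h2⟩).2
  rw [h'] at e1
  rw [h2'] at e2
  have e3 : o x y = o u v1 := by
    rw [KR.sq w.kr x y, h, h2, KR.sq' w.kr]
  have e4 : o' (σ x) (σ y) = o' (π u) (π v1) := by
    rw [KR.sq w'.kr (σ x) (σ y), e1, e2, KR.sq' w'.kr]
  have e5 : R (o x y) (o' (π u) (π v1)) := by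
    rw [e3]
    exact ⟨u, v1, KR.idem w.kr _ _, by rw [hε]⟩
  rw [e4]
  exact k3 _ _ _ e5 (hσ _)

theorem cs_map {o : M → M → M} {z : N → N → N} {σ : M ≃ N}
    (h : ∀ x y, z (σ x) (σ y) = σ (o x y)) (e : M) : cs z (σ e) = cs o e := by
  unfold cs
  refine (Nat.card_congr (σ.subtypeEquiv fun x => ?_)).symm
  rw [h, σ.apply_eq_iff_eq]

theorem pp_map {o : M → M → M} {z : N → N → N} {σ : M ≃ N}
    (h : ∀ x y, z (σ x) (σ y) = σ (o x y)) (u : M) : PP z (σ u) ↔ PP o u := by
  unfold PP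
  rw [cs_map h, h, σ.apply_eq_iff_eq]

theorem aa_map {o : M → M → M} {z : N → N → N} {σ : M ≃ N}
    (h : ∀ x y, z (σ x) (σ y) = σ (o x y)) (u v : M) : AA z (σ u) (σ v) ↔ AA o u v := by
  unfold AA
  rw [h, cs_map h]

theorem WF.map {o : M → M → M} {z : N → N → N} {σ : M ≃ N}
    (h : ∀ x y, z (σ x) (σ y) = σ (o x y)) (w : WF o) : WF z := by
  refine ⟨⟨fun x y t => ?_, fun x y t => ?_⟩, fun e he => ?_, fun e he => ?_,
    fun u v hu hv huv => ?_, fun u v hu hv huv => ?_, fun u v hu hv => ?_, ?_⟩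
  · obtain ⟨x, rfl⟩ := σ.surjective x
    obtain ⟨y, rfl⟩ := σ.surjective y
    obtain ⟨t, rfl⟩ := σ.surjective t
    rw [h, h, h, w.kr.1]
  · obtain ⟨x, rfl⟩ := σ.surjective x
    obtain ⟨y, rfl⟩ := σ.surjective y
    obtain ⟨t, rfl⟩ := σ.surjective t
    rw [h, h, h, w.kr.2]
  · obtain ⟨e, rfl⟩ := σ.surjective e
    rw [h, σ.apply_eq_iff_eq] at he
    obtain ⟨u, hu, hu'⟩ := w.row e he
    exact ⟨σ u, (pp_map h u).2 hu, by rw [h, hu']⟩
  · obtain ⟨e, rfl⟩ := σ.surjective e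
    rw [h, σ.apply_eq_iff_eq] at he
    obtain ⟨u, hu, hu'⟩ := w.col e he
    exact ⟨σ u, (pp_map h u).2 hu, by rw [h, hu']⟩
  · obtain ⟨u, rfl⟩ := σ.surjective u
    obtain ⟨v, rfl⟩ := σ.surjective v
    rw [h, σ.apply_eq_iff_eq] at huv
    rw [w.ru u v ((pp_map h u).1 hu) ((pp_map h v).1 hv) huv]
  · obtain ⟨u, rfl⟩ := σ.surjective u
    obtain ⟨v, rfl⟩ := σ.surjective v
    rw [h, σ.apply_eq_iff_eq] at huv
    rw [w.cu u v ((pp_map h u).1 hu) ((pp_map h v).1 hv) huv]
  · obtain ⟨u, rfl⟩ := σ.surjective u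
    obtain ⟨v, rfl⟩ := σ.surjective v
    rw [h, cs_map h]
    rcases w.size u v ((pp_map h u).1 hu) ((pp_map h v).1 hv) with h1 | h1
    · exact Or.inl (by rw [h1])
    · exact Or.inr h1
  · have := w.inf
    exact Infinite.of_injective (fun u : {u // PP o u} =>
      (⟨σ u, (pp_map h u).2 u.2⟩ : {u // PP z u})) fun u v huv =>
        Subtype.ext (σ.injective (congrArg Subtype.val huv))

end gen

/-! ### The code of a graph -/

/-- the number of elements in a cell -/
def cn (g : BinStr) (v w : ℕ) : ℕ := if v = w then 3 else if g v w = true then 2 else 1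

theorem cn_pos (g : BinStr) (v w : ℕ) : 0 < cn g v w := by
  unfold cn
  split_ifs <;> decide

/-- the elements of the code -/
def Cd (g : BinStr) : Type := {t : ℕ × ℕ × ℕ // t.2.2 < cn g t.1 t.2.1}

/-- the idempotents -/
def ide (g : BinStr) (v w : ℕ) : Cd g := ⟨(v, w, 0), cn_pos g v w⟩

/-- the product of the code -/
def co (g : BinStr) (s t : Cd g) : Cd g := ide g s.1.1 t.1.2.1

theorem ide_inj {g : BinStr} {v w v' w' : ℕ} : ide g v w = ide g v' w' ↔ v = v' ∧ w = w' := by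
  constructor
  · intro h
    have h1 := congrArg Subtype.val h
    simp only [ide, Prod.mk.injEq] at h1
    exact ⟨h1.1, h1.2.1⟩
  · rintro ⟨rfl, rfl⟩
    rfl

theorem cs_ide (g : BinStr) (v w : ℕ) : cs (co g) (ide g v w) = cn g v w := by
  unfold cs
  have e : {x : Cd g // co g x x = ide g v w} ≃ Fin (cn g v w) :=
    { toFun := fun x => ⟨x.1.1.2.2, by
        have h1 := x.1.2
        have h2 := ide_inj.1 x.2
        rw [h2.1, h2.2] at h1
        exact h1⟩
      invFun := fun k => ⟨⟨(v, w, k), k.2⟩, rfl⟩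
      left_inv := fun x => by
        apply Subtype.ext
        apply Subtype.ext
        have h2 := ide_inj.1 x.2
        exact Prod.ext h2.1.symm (Prod.ext h2.2.symm rfl)
      right_inv := fun k => rfl }
  rw [Nat.card_congr e, Nat.card_fin]

theorem pp_iff {g : BinStr} {u : Cd g} : PP (co g) u ↔ ∃ v, u = ide g v v := by
  constructor
  · rintro ⟨h1, h2⟩
    have h3 : u = ide g u.1.1 u.1.2.1 := h1.symm
    rw [h3, cs_ide] at h2
    unfold cn at h2
    by_cases h4 : u.1.1 = u.1.2.1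
    · refine ⟨u.1.1, ?_⟩
      rw [← h4] at h3
      exact h3
    · rw [if_neg h4] at h2
      split_ifs at h2 <;> omega
  · rintro ⟨v, rfl⟩
    refine ⟨rfl, ?_⟩
    rw [cs_ide]
    simp [cn]

theorem wf_co (g : BinStr) : WF (co g) where
  kr := ⟨fun x y z => rfl, fun x y z => rfl⟩
  row := fun e he => ⟨ide g e.1.1 e.1.1, pp_iff.2 ⟨_, rfl⟩, he⟩
  col := fun e he => ⟨ide g e.1.2.1 e.1.2.1, pp_iff.2 ⟨_, rfl⟩, he⟩
  ru := fun u v hu hv h => by
    obtain ⟨a, rfl⟩ := pp_iff.1 hu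
    obtain ⟨b, rfl⟩ := pp_iff.1 hv
    exact congrArg (fun v => ide g v v) (ide_inj.1 h).1
  cu := fun u v hu hv h => by
    obtain ⟨a, rfl⟩ := pp_iff.1 hu
    obtain ⟨b, rfl⟩ := pp_iff.1 hv
    exact congrArg (fun v => ide g v v) (ide_inj.1 h).2.symm
  size := fun u v hu hv => by
    obtain ⟨a, rfl⟩ := pp_iff.1 hu
    obtain ⟨b, rfl⟩ := pp_iff.1 hv
    have h1 : co g (ide g a a) (ide g b b) = ide g a b := rfl
    rw [h1, cs_ide]
    unfold cn
    split_ifs with h2 h3
    · left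
      rw [h2]
    · exact Or.inr (Or.inl rfl)
    · exact Or.inr (Or.inr rfl)
  inf := Infinite.of_injective (fun v : ℕ => (⟨ide g v v, pp_iff.2 ⟨v, rfl⟩⟩ :
    {u // PP (co g) u})) fun v w h => (ide_inj.1 (congrArg Subtype.val h)).1

theorem aa_iff {g : BinStr} (hg : IsGraph g) (v w : ℕ) :
    AA (co g) (ide g v v) (ide g w w) ↔ g v w = true := by
  unfold AA
  have h1 : co g (ide g v v) (ide g w w) = ide g v w := rfl
  rw [h1, cs_ide]
  unfold cn
  split_ifs with h2 h3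
  · subst h2
    rw [hg.irrefl]
    decide
  · simp [h3]
  · simp [h3]

/-! ### Measurability -/

theorem bp_op (a b c : ℕ) : BP (fun o : Bin => o a b = c) := by
  have h : Measurable fun o : Bin => o a b := (measurable_pi_apply b).comp (measurable_pi_apply a)
  exact h (measurableSet_singleton c)

theorem card_iff {Q : ℕ → Prop} {k : ℕ} (hk : 0 < k) :
    Nat.card {x // Q x} = k ↔ ∃ s : Finset ℕ, s.card = k ∧ ∀ x, x ∈ s ↔ Q x := by
  constructor
  · intro h
    have hf : Finite {x // Q x} := Nat.finite_of_card_ne_zero (by omega)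
    have hf' : {x | Q x}.Finite := hf
    refine ⟨hf'.toFinset, ?_, fun x => by simp⟩
    rw [← h]
    exact (Nat.subtype_card _ fun x => by simp).symm
  · rintro ⟨s, h1, h2⟩
    rw [Nat.subtype_card s h2, h1]

theorem bp_cs (e k : ℕ) (hk : 0 < k) : BP (fun o : Bin => cs o e = k) := by
  have h : BP (fun o : Bin => ∃ s : Finset ℕ, s.card = k ∧ ∀ x, x ∈ s ↔ o x x = e) :=
    BP.ex fun s => (BP.const _).and <| BP.all fun x => (BP.const _).iff (bp_op _ _ _)
  exact h.congr fun o => (card_iff hk).symm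

theorem bp_pp (u : ℕ) : BP (fun o : Bin => PP o u) := (bp_op u u u).and (bp_cs u 3 (by decide))

theorem bp_cso (u v k : ℕ) (hk : 0 < k) : BP (fun o : Bin => cs o (o u v) = k) := by
  have h : BP (fun o : Bin => ∃ e, o u v = e ∧ cs o e = k) :=
    BP.ex fun e => (bp_op u v e).and (bp_cs e k hk)
  exact h.congr fun o => ⟨fun ⟨e, h1, h2⟩ => h1 ▸ h2, fun h => ⟨_, rfl, h⟩⟩

theorem bp_aa (u v : ℕ) : BP (fun o : Bin => AA o u v) := bp_cso u v 2 (by decide)

theorem bp_kr : BP (fun o : Bin => KR o) := by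
  have h : BP (fun o : Bin => (∀ x y z a b, o x y = a → o x z = b → o a z = b) ∧
      ∀ x y z a b, o y z = a → o x z = b → o x a = b) :=
    (BP.all fun x => BP.all fun y => BP.all fun z => BP.all fun a => BP.all fun b =>
      (bp_op x y a).imp ((bp_op x z b).imp (bp_op a z b))).and <|
    BP.all fun x => BP.all fun y => BP.all fun z => BP.all fun a => BP.all fun b =>
      (bp_op y z a).imp ((bp_op x z b).imp (bp_op x a b))
  refine h.congr fun o => ⟨fun ⟨h1, h2⟩ => ⟨fun x y z => h1 x y z _ _ rfl rfl,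
    fun x y z => h2 x y z _ _ rfl rfl⟩, fun h => ⟨?_, ?_⟩⟩
  · rintro x y z a b rfl rfl
    exact h.1 x y z
  · rintro x y z a b rfl rfl
    exact h.2 x y z

theorem inf_iff {P : ℕ → Prop} : Infinite {u // P u} ↔ ∀ N, ∃ u, N ≤ u ∧ P u :=
  ⟨of_inf, inf_of⟩

theorem bp_wf : BP (fun o : Bin => WF o) := by
  have h : BP (fun o : Bin => KR o ∧ (∀ e, o e e = e → ∃ u, PP o u ∧ o u e = e) ∧
      (∀ e, o e e = e → ∃ v, PP o v ∧ o e v = e) ∧
      (∀ u v, PP o u → PP o v → o u v = v → u = v) ∧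
      (∀ u v, PP o u → PP o v → o u v = u → u = v) ∧
      (∀ u v, PP o u → PP o v → u = v ∨ cs o (o u v) = 2 ∨ cs o (o u v) = 1) ∧
      ∀ N, ∃ u, N ≤ u ∧ PP o u) :=
    bp_kr.and <|
    (BP.all fun e => (bp_op e e e).imp <| BP.ex fun u => (bp_pp u).and (bp_op u e e)).and <|
    (BP.all fun e => (bp_op e e e).imp <| BP.ex fun v => (bp_pp v).and (bp_op e v e)).and <|
    (BP.all fun u => BP.all fun v => (bp_pp u).imp <| (bp_pp v).imp <| (bp_op u v v).imp
      (BP.const _)).and <|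
    (BP.all fun u => BP.all fun v => (bp_pp u).imp <| (bp_pp v).imp <| (bp_op u v u).imp
      (BP.const _)).and <|
    (BP.all fun u => BP.all fun v => (bp_pp u).imp <| (bp_pp v).imp <| (BP.const _).or <|
      (bp_cso u v 2 (by decide)).or (bp_cso u v 1 (by decide))).and <|
    BP.all fun N => BP.ex fun u => (BP.const _).and (bp_pp u)
  exact h.congr fun o => ⟨fun ⟨h1, h2, h3, h4, h5, h6, h7⟩ =>
    ⟨h1, h2, h3, h4, h5, h6, inf_iff.2 h7⟩, fun h =>
    ⟨h.kr, h.row, h.col, h.ru, h.cu, h.size, inf_iff.1 h.inf⟩⟩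

/-! ### Faithful completeness -/

/-- the graph of a code -/
noncomputable def gr : Bin → BinStr := dc (fun o u => PP o u) (fun o u v => AA o u v)

theorem oiso_symm {x y : Bin} (h : OIso x y) : OIso y x := by
  obtain ⟨σ, h⟩ := h
  refine ⟨σ.symm, fun m n => ?_⟩
  obtain ⟨m, rfl⟩ := σ.surjective m
  obtain ⟨n, rfl⟩ := σ.surjective n
  rw [h, σ.symm_apply_apply, σ.symm_apply_apply, σ.symm_apply_apply]

theorem gr_iso {y z : Bin} (wy : WF y) (wz : WF z) : OIso y z ↔ BIso (gr y) (gr z) := by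
  unfold gr
  rw [dc_iso (inf_iff.1 wy.inf) (inf_iff.1 wz.inf)]
  constructor
  · rintro ⟨σ, h⟩
    exact ⟨σ.subtypeEquiv fun u => (pp_map h u).symm, fun u v => (aa_map h _ _).symm⟩
  · rintro ⟨π, hπ⟩
    exact lift_iso wy wz π hπ

theorem gr_ex {g : BinStr} (hg : IsGraph g) : ∃ y : Bin, WF y ∧ BIso (gr y) g := by
  have w := wf_co g
  have hc : Countable (Cd g) := Subtype.countable
  have hi : Infinite (Cd g) := by
    have := w.inf
    exact Infinite.of_injective (fun u : {u // PP (co g) u} => u.1) Subtype.val_injective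
  obtain ⟨σ⟩ : Nonempty (Cd g ≃ ℕ) := nonempty_equiv_of_countable
  let y : Bin := fun m n => σ (co g (σ.symm m) (σ.symm n))
  have h : ∀ s t, y (σ s) (σ t) = σ (co g s t) := fun s t => by
    show σ (co g (σ.symm (σ s)) (σ.symm (σ t))) = _
    rw [σ.symm_apply_apply, σ.symm_apply_apply]
  have wy : WF y := w.map h
  refine ⟨y, wy, ?_⟩
  have hV : ∀ v, PP y (σ (ide g v v)) := fun v => (pp_map h _).2 (pp_iff.2 ⟨v, rfl⟩)
  have hb : Function.Bijective (fun v : ℕ => (⟨σ (ide g v v), hV v⟩ : {u // PP y u})) := by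
    constructor
    · intro v v' hvv
      exact (ide_inj.1 (σ.injective (congrArg Subtype.val hvv))).1
    · rintro ⟨u, hu⟩
      obtain ⟨s, rfl⟩ := σ.surjective u
      obtain ⟨v, rfl⟩ := pp_iff.1 ((pp_map h s).1 hu)
      exact ⟨v, rfl⟩
  unfold gr
  refine dc_iso' (inf_iff.1 wy.inf) (Equiv.ofBijective _ hb) fun v v' => ?_
  show g v v' = true ↔ AA y (σ _) (σ _)
  rw [aa_map h, aa_iff hg]

end Pool.Agent.N649.SV.RH

namespace Pool.Agent.N649.SV

open RH

/-- semigroups with `x y z = x z` are faithfully complete -/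
theorem leaf_R : Leaf_R :=
  Pool.Agent.W889.SD.faithful_interp (K0 := Pool.Agent.W889.SD.K3)
    Pool.Agent.W889.SD.target_K3.faithful (W := fun y => WF y) (δ := gr)
    (fun _ _ h => oiso_symm h) bp_wf
    (Pool.Agent.W889.SD.measurable_dc (fun u => bp_pp u) (fun u v => bp_aa u v))
    (fun _ _ ⟨_, h⟩ w => w.map h) (fun _ _ wy wz => gr_iso wy wz)
    (fun _ hg => gr_ex hg.1) fun _ w => w.kr

end Pool.Agent.N649.SV
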