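import Pool.Agent.N649.SG.Light
import Pool.Agent.W889.SD.Tgt

set_option autoImplicit false

/-!
# Vaught's conjecture for varieties of semigroups: statements of the leaves
-/

namespace Pool.Agent.N649.SV

open Pool.Agent.N649.SG.Light
open Pool.Agent.W889.VC (Faithful BP VCof)

/-- binary operations on `ℕ` -/
abbrev Bin : Type := ℕ → ℕ → ℕ

/-- isomorphism -/
def OIso (x y : Bin) : Prop := ∃ σ : Equiv.Perm ℕ, ∀ m n, y (σ m) (σ n) = σ (x m n)

/-- semigroups with `x y z = x y` -/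
def KP {M : Type} (o : M → M → M) : Prop :=
  (∀ x y z, o (o x y) z = o x y) ∧ ∀ x y z, o x (o y z) = o x y

/-- semigroups with `x y z = x z` -/
def KR {M : Type} (o : M → M → M) : Prop :=
  (∀ x y z, o (o x y) z = o x z) ∧ ∀ x y z, o x (o y z) = o x z

/-- commutative semigroups with `x y z = 0 = x x` -/
def KN {M : Type} (o : M → M → M) : Prop :=
  ∃ c : M, (∀ x y z, o (o x y) z = c) ∧ (∀ x, o x x = c) ∧ ∀ x y, o x y = o y x

/-- semilattices -/
def KS {M : Type} (o : M → M → M) : Prop := SG o ∧ (∀ x, o x x = x) ∧ ∀ x y, o x y = o y x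

/-- inflations of groups of exponent `p` -/
def KI (p : ℕ) {M : Type} (o : M → M → M) : Prop :=
  ∃ (G : Type) (_ : AddCommGroup G) (f : M → G) (g : G → M), (∀ a : G, p • a = 0) ∧
    (∀ a, f (g a) = a) ∧ ∀ x y, o x y = g (f x + f y)

/-- Rees matrix semigroups over `ZMod p` -/
def KC (p : ℕ) {M : Type} (o : M → M → M) : Prop :=
  ∃ (I K : Type) (P : K → I → ZMod p) (f : M ≃ I × ZMod p × K), ∀ x y, f (o x y) = rm p P (f x) (f y)

def Leaf_P : Prop := Faithful OIso (fun o => KP o)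
def Leaf_R : Prop := Faithful OIso (fun o => KR o)
def Leaf_N : Prop := Faithful OIso (fun o => KN o)
def Leaf_S : Prop := Faithful OIso (fun o => KS o)
def Leaf_I : Prop := ∀ p : ℕ, p.Prime → Faithful OIso (fun o => KI p o)
def Leaf_C : Prop := ∀ p : ℕ, p.Prime → Faithful OIso (fun o => KC p o)

/-- identities -/
def Leaf_id : Prop :=
  (∀ E : Set (T × T), Sa E t4 → ∀ (M : Type) (o : M → M → M), KN o → Sa E o) ∧
  (∀ E : Set (T × T), Sa E or → ∀ (M : Type) (o : M → M → M), KS o → Sa E o) ∧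
  (∀ (E : Set (T × T)) (p : ℕ), p.Prime → Sa E (fun x y : ZMod p => x + y) →
    Sa E (fun _ _ : Bool => false) → ∀ (M : Type) (o : M → M → M), KI p o → Sa E o)

/-- the dichotomy for `x y = x z` and `y x = z x` -/
def Leaf_U : Prop := VCof True OIso (fun o => SG o ∧ LU o) ∧ VCof True OIso (fun o => SG o ∧ RU o)

/-- groups -/
def Grp {M : Type} (o : M → M → M) : Prop := SG o ∧ ∀ a b : M, (∃ x, o a x = b) ∧ ∃ x, o x a = b

/-- rectangular groups -/
def Leaf_G : Prop := ∀ E : Set (T × T), VCof True OIso (fun o => Grp o ∧ Sa E o) →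
  VCof True OIso (fun o => RectGp o ∧ Sa E o)

end Pool.Agent.N649.SV
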