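import Pool.Agent.N649.SV.Stm

set_option autoImplicit false

/-!
# The dichotomy for rectangular groups follows from the dichotomy for groups (helper645)
-/

namespace Pool.Agent.N649.SV

open Pool.Agent.N649.SG.Light
open Pool.Agent.W889.VC (Faithful BP VCof Dich)

namespace GG

/-! ### rectangular groups -/

section alg

variable {S : Type} [Semigroup S]

def LL (e : S) : Type := {g : S // g * g = g ∧ g * e = g ∧ e * g = e}
def RR (e : S) : Type := {f : S // f * f = f ∧ e * f = f ∧ f * e = e}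
def HH (e : S) : Type := {h : S // e * h = h ∧ h * e = h}

theorem fg (hr : ∀ e f : S, e * e = e → f * f = f → e * f * e = e) {e : S} (f : RR e) (g : LL e) :
    f.1 * g.1 = e := by
  obtain ⟨f, hf1, hf2, hf3⟩ := f
  obtain ⟨g, hg1, hg2, hg3⟩ := g
  change f * g = e
  calc f * g = f * (g * e) := by rw [hg2]
    _ = f * (g * (f * e)) := by rw [hf3]
    _ = (f * g * f) * e := by simp only [mul_assoc]
    _ = f * e := by rw [hr f g hf1 hg1]
    _ = e := hf3

theorem inv (hreg : ∀ a : S, ∃ y, a * y * a = a)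
    (hr : ∀ e f : S, e * e = e → f * f = f → e * f * e = e) {e : S} (he : e * e = e) (h : HH e) :
    ∃ k : HH e, h.1 * k.1 = e ∧ k.1 * h.1 = e := by
  obtain ⟨h, h1, h2⟩ := h
  obtain ⟨y, hy⟩ := hreg h
  have key : ∀ z : S, z * z = z → e * z = z → z * e = z → z = e := by
    intro z hz h3 h4
    have h5 := hr e z he hz
    rw [h3, h4] at h5
    exact h5
  have h6 : h * (e * y * e) * h = h := by
    calc h * (e * y * e) * h = (h * e) * y * (e * h) := by simp only [mul_assoc]
      _ = h := by rw [h1, h2, hy]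
  refine ⟨⟨e * y * e, ?_, ?_⟩, ?_, ?_⟩
  · calc e * (e * y * e) = (e * e) * y * e := by simp only [mul_assoc]
      _ = e * y * e := by rw [he]
  · calc e * y * e * e = e * y * (e * e) := by simp only [mul_assoc]
      _ = e * y * e := by rw [he]
  · refine key _ ?_ ?_ ?_
    · calc h * (e * y * e) * (h * (e * y * e)) = (h * (e * y * e) * h) * (e * y * e) := by
            simp only [mul_assoc]
        _ = h * (e * y * e) := by rw [h6]
    · change e * (h * (e * y * e)) = h * (e * y * e)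
      rw [← mul_assoc, h1]
    · calc h * (e * y * e) * e = h * (e * y * (e * e)) := by simp only [mul_assoc]
        _ = h * (e * y * e) := by rw [he]
  · refine key _ ?_ ?_ ?_
    · calc e * y * e * h * (e * y * e * h) = (e * y * e) * (h * (e * y * e) * h) := by
            simp only [mul_assoc]
        _ = e * y * e * h := by rw [h6]
    · calc e * (e * y * e * h) = (e * e) * y * e * h := by simp only [mul_assoc]
        _ = e * y * e * h := by rw [he]
    · change e * y * e * h * e = e * y * e * h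
      rw [mul_assoc, h2]

theorem bij (hreg : ∀ a : S, ∃ y, a * y * a = a)
    (hr : ∀ e f : S, e * e = e → f * f = f → e * f * e = e) {e : S} (he : e * e = e) :
    Function.Bijective (fun u : LL e × HH e × RR e => u.1.1 * u.2.1.1 * u.2.2.1) := by
  constructor
  · rintro ⟨g, h, f⟩ ⟨g', h', f'⟩ h0
    simp only at h0
    -- the middle
    have e1 : ∀ (g : LL e) (h : HH e) (f : RR e), e * (g.1 * h.1 * f.1) * e = h.1 := by
      intro g h f
      calc e * (g.1 * h.1 * f.1) * e = (e * g.1) * h.1 * (f.1 * e) := by simp only [mul_assoc]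
        _ = h.1 := by rw [g.2.2.2, f.2.2.2, h.2.1, h.2.2]
    have e2 : h = h' := by
      apply Subtype.ext
      rw [← e1 g h f, h0, e1]
    subst e2
    obtain ⟨k, hk1, hk2⟩ := inv hreg hr he h
    have e3 : ∀ (g : LL e) (f : RR e), (g.1 * h.1 * f.1) * k.1 = g.1 := by
      intro g f
      calc (g.1 * h.1 * f.1) * k.1 = (g.1 * h.1 * f.1) * (e * k.1) := by rw [k.2.1]
        _ = g.1 * h.1 * (f.1 * e) * k.1 := by simp only [mul_assoc]
        _ = g.1 * (h.1 * e) * k.1 := by rw [f.2.2.2, mul_assoc g.1]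
        _ = g.1 * (h.1 * k.1) := by rw [h.2.2, mul_assoc]
        _ = g.1 := by rw [hk1, g.2.2.1]
    have e4 : ∀ (g : LL e) (f : RR e), k.1 * (g.1 * h.1 * f.1) = f.1 := by
      intro g f
      calc k.1 * (g.1 * h.1 * f.1) = (k.1 * e) * (g.1 * h.1 * f.1) := by rw [k.2.2]
        _ = k.1 * ((e * g.1) * h.1) * f.1 := by simp only [mul_assoc]
        _ = (k.1 * h.1) * f.1 := by rw [g.2.2.2, h.2.1]
        _ = f.1 := by rw [hk2, f.2.2.1]
    have e5 : g = g' := by
      apply Subtype.ext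
      rw [← e3 g f, h0, e3]
    have e6 : f = f' := by
      apply Subtype.ext
      rw [← e4 g f, h0, e4]
    rw [e5, e6]
  · intro a
    obtain ⟨y, hy⟩ := hreg a
    have hp : (a * y) * (a * y) = a * y := by
      rw [← mul_assoc, hy]
    have hq : (y * a) * (y * a) = y * a := by
      rw [mul_assoc, ← mul_assoc a y a, hy]
    have p1 := hr (a * y) e hp he
    have p2 := hr e (a * y) he hp
    have q1 := hr (y * a) e hq he
    have q2 := hr e (y * a) he hq
    refine ⟨(⟨a * y * e, ?_, ?_, ?_⟩, ⟨e * a * e, ?_, ?_⟩, ⟨e * (y * a), ?_, ?_, ?_⟩), ?_⟩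
    · calc a * y * e * (a * y * e) = (a * y * e * (a * y)) * e := by simp only [mul_assoc]
        _ = a * y * e := by rw [p1]
    · rw [mul_assoc, he]
    · calc e * (a * y * e) = e * (a * y) * e := by simp only [mul_assoc]
        _ = e := p2
    · calc e * (e * a * e) = (e * e) * a * e := by simp only [mul_assoc]
        _ = e * a * e := by rw [he]
    · calc e * a * e * e = e * a * (e * e) := by simp only [mul_assoc]
        _ = e * a * e := by rw [he]
    · calc e * (y * a) * (e * (y * a)) = e * (y * a * e * (y * a)) := by simp only [mul_assoc]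
        _ = e * (y * a) := by rw [q1]
    · rw [← mul_assoc, he]
    · exact q2
    · change a * y * e * (e * a * e) * (e * (y * a)) = a
      have r1 : e * a = e * a := rfl
      have r2 : a * y * e * a = a := by
        calc a * y * e * a = a * y * e * (a * y * a) := by rw [hy]
          _ = (a * y * e * (a * y)) * a := by simp only [mul_assoc]
          _ = a := by rw [p1, hy]
      have r3 : a * e * (y * a) = a := by
        calc a * e * (y * a) = (a * y * a) * e * (y * a) := by rw [hy]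
          _ = a * (y * a * e * (y * a)) := by simp only [mul_assoc]
          _ = a * (y * a) := by rw [q1]
          _ = a := by rw [← mul_assoc, hy]
      calc a * y * e * (e * a * e) * (e * (y * a)) = a * y * (e * e) * a * (e * e) * (y * a) := by
            simp only [mul_assoc]
        _ = (a * y * e * a) * e * (y * a) := by rw [he]
        _ = a := by rw [r2, r3]

theorem idem (hreg : ∀ a : S, ∃ y, a * y * a = a) (a : S) : ∃ e : S, e * e = e := by
  obtain ⟨y, hy⟩ := hreg a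
  exact ⟨a * y, by rw [← mul_assoc, hy]⟩

/-- the product of `HH` -/
def hm (e : S) (a b : HH e) : HH e :=
  ⟨a.1 * b.1, by rw [← mul_assoc, a.2.1], by rw [mul_assoc, b.2.2]⟩

theorem hm_grp (hreg : ∀ a : S, ∃ y, a * y * a = a)
    (hr : ∀ e f : S, e * e = e → f * f = f → e * f * e = e) {e : S} (he : e * e = e) :
    Grp (hm e) := by
  refine ⟨fun a b c => Subtype.ext (mul_assoc _ _ _), fun a b => ?_⟩
  obtain ⟨k, hk1, hk2⟩ := inv hreg hr he a
  refine ⟨⟨hm e k b, Subtype.ext ?_⟩, hm e b k, Subtype.ext ?_⟩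
  · change a.1 * (k.1 * b.1) = b.1
    rw [← mul_assoc, hk1, b.2.1]
  · change b.1 * k.1 * a.1 = b.1
    rw [mul_assoc, hk2, b.2.2]

end alg

/-- the operation is the product of a left zero band, `h`, and a right zero band -/
def PR (L H R : Type) (h : H → H → H) {M : Type} (x : M → M → M) : Prop :=
  ∃ φ : L × H × R ≃ M, ∀ u v, x (φ u) (φ v) = φ (u.1, h u.2.1 v.2.1, v.2.2)

theorem structS {S : Type} [Semigroup S] (hreg : ∀ a : S, ∃ y, a * y * a = a)
    (hr : ∀ e f : S, e * e = e → f * f = f → e * f * e = e) (e : S) (he : e * e = e) :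
    PR (LL e) (HH e) (RR e) (hm e) (fun a b : S => a * b) := by
  refine ⟨Equiv.ofBijective _ (bij hreg hr he), ?_⟩
  rintro ⟨g, h, f⟩ ⟨g', h', f'⟩
  change g.1 * h.1 * f.1 * (g'.1 * h'.1 * f'.1) = g.1 * (h.1 * h'.1) * f'.1
  calc g.1 * h.1 * f.1 * (g'.1 * h'.1 * f'.1) = g.1 * h.1 * (f.1 * g'.1) * h'.1 * f'.1 := by
        simp only [mul_assoc]
    _ = g.1 * (h.1 * e) * h'.1 * f'.1 := by rw [fg hr, mul_assoc g.1]
    _ = g.1 * (h.1 * h'.1) * f'.1 := by rw [h.2.2, mul_assoc g.1]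

/-- the structure of rectangular groups -/
theorem struct {x : Bin} (hx : RectGp x) : ∃ (L H R : Type) (h : H → H → H),
    Countable L ∧ Countable H ∧ Countable R ∧ Nonempty L ∧ Nonempty H ∧ Nonempty R ∧ Grp h ∧
      PR L H R h x := by
  obtain ⟨h1, h2, h3⟩ := hx
  obtain ⟨I, hI⟩ : ∃ I : Semigroup ℕ, ∀ a b : ℕ, x a b = I.mul a b :=
    ⟨@Semigroup.mk ℕ ⟨x⟩ h1, fun _ _ => rfl⟩
  have k2 : ∀ a : ℕ, ∃ y, I.mul (I.mul a y) a = a := by
    intro a
    obtain ⟨y, hy⟩ := h2 a
    exact ⟨y, by rw [← hI, ← hI, hy]⟩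
  have k3 : ∀ e f : ℕ, I.mul e e = e → I.mul f f = f → I.mul (I.mul e f) e = e := by
    intro e f he hf
    rw [← hI] at he hf
    rw [← hI, ← hI, h3 e f he hf]
  obtain ⟨e, he⟩ := @idem ℕ I k2 0
  have hne : Nonempty (@LL ℕ I e × @HH ℕ I e × @RR ℕ I e) :=
    ⟨(⟨e, he, he, he⟩, ⟨e, he, he⟩, ⟨e, he, he, he⟩)⟩
  refine ⟨@LL ℕ I e, @HH ℕ I e, @RR ℕ I e, @hm ℕ I e, ?_, ?_, ?_, ⟨hne.some.1⟩, ⟨hne.some.2.1⟩,
    ⟨hne.some.2.2⟩, @hm_grp ℕ I k2 k3 e he, ?_⟩
  · unfold LL; infer_instance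
  · unfold HH; infer_instance
  · unfold RR; infer_instance
  · have h5 := @structS ℕ I k2 k3 e he
    have h6 : x = fun a b => I.mul a b := by
      funext a b
      exact hI a b
    rw [h6]
    exact h5

/-! ### transport -/

theorem PR.iso {L H R : Type} {h : H → H → H} {x y : Bin} (hx : PR L H R h x)
    (hy : PR L H R h y) : OIso x y := by
  obtain ⟨φ, h1⟩ := hx
  obtain ⟨ψ, h2⟩ := hy
  refine ⟨φ.symm.trans ψ, fun m n => ?_⟩
  obtain ⟨u, rfl⟩ := φ.surjective m
  obtain ⟨v, rfl⟩ := φ.surjective n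
  simp only [Equiv.trans_apply, Equiv.symm_apply_apply]
  rw [h1, h2, Equiv.symm_apply_apply]

theorem PR.of_iso {L H R : Type} {h : H → H → H} {x y : Bin} (hx : PR L H R h x)
    (hxy : OIso x y) : PR L H R h y := by
  obtain ⟨φ, h1⟩ := hx
  obtain ⟨σ, h2⟩ := hxy
  refine ⟨φ.trans σ, fun u v => ?_⟩
  simp only [Equiv.trans_apply]
  rw [h2, h1]

theorem PR.map {L H R L' H' R' : Type} {h : H → H → H} {x : Bin} (hx : PR L H R h x)
    (eL : L ≃ L') (eH : H ≃ H') (eR : R ≃ R') :
    PR L' H' R' (fun a b => eH (h (eH.symm a) (eH.symm b))) x := by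
  obtain ⟨φ, h1⟩ := hx
  refine ⟨(eL.symm.prodCongr (eH.symm.prodCongr eR.symm)).trans φ, fun u v => ?_⟩
  simp [h1]

theorem Grp.map {H H' : Type} {h : H → H → H} (hh : Grp h) (eH : H ≃ H') :
    Grp (fun a b => eH (h (eH.symm a) (eH.symm b))) := by
  obtain ⟨h1, h2⟩ := hh
  refine ⟨fun a b c => ?_, fun a b => ?_⟩
  · simp only [Equiv.symm_apply_apply]
    rw [h1]
  · obtain ⟨⟨x, hx⟩, y, hy⟩ := h2 (eH.symm a) (eH.symm b)
    refine ⟨⟨eH x, ?_⟩, eH y, ?_⟩
    · change eH (h (eH.symm a) (eH.symm (eH x))) = b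
      rw [Equiv.symm_apply_apply, hx, Equiv.apply_symm_apply]
    · change eH (h (eH.symm (eH y)) (eH.symm a)) = b
      rw [Equiv.symm_apply_apply, hy, Equiv.apply_symm_apply]

theorem Sa.of_PR {E : Set (T × T)} {L H R : Type} {h : H → H → H} {x : Bin} (hx : PR L H R h x)
    (l0 : L) (r0 : R) (hE : Sa E x) : Sa E h := by
  obtain ⟨φ, h1⟩ := hx
  intro p hp v
  have h2 : ∀ (v : ℕ → ℕ) (t : T), (φ.symm (t.val x v)).2.1 =
      t.val h (fun n => (φ.symm (v n)).2.1) := by
    intro v t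
    induction t with
    | var n => rfl
    | mul s t hs ht =>
      change (φ.symm (x (s.val x v) (t.val x v))).2.1 = h _ _
      rw [← hs, ← ht]
      obtain ⟨u, hu⟩ := φ.surjective (s.val x v)
      obtain ⟨w, hw⟩ := φ.surjective (t.val x v)
      rw [← hu, ← hw, h1]
      simp
  have h3 : (fun n => (φ.symm ((fun n => φ (l0, v n, r0)) n)).2.1) = v := by
    funext n
    simp
  have h4 := hE p hp (fun n => φ (l0, v n, r0))
  have h5 := h2 (fun n => φ (l0, v n, r0)) p.1
  rw [h4, h2, h3] at h5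
  exact h5.symm

/-! ### groups -/

theorem Grp.one {M : Type} {g : M → M → M} (hg : Grp g) (m : M) :
    ∃ e, (∀ a, g e a = a) ∧ ∀ a, g a e = a := by
  obtain ⟨h1, h2⟩ := hg
  obtain ⟨e, he⟩ := (h2 m m).2
  obtain ⟨e', he'⟩ := (h2 m m).1
  have k1 : ∀ b, g e b = b := by
    intro b
    obtain ⟨c, hc⟩ := (h2 m b).1
    rw [← hc, ← h1, he]
  have k2 : ∀ b, g b e' = b := by
    intro b
    obtain ⟨c, hc⟩ := (h2 m b).2
    rw [← hc, h1, he']
  have k3 : e = e' := by rw [← k1 e', k2]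
  exact ⟨e, k1, fun a => by rw [k3, k2]⟩

theorem Grp.idem {M : Type} {g : M → M → M} (hg : Grp g) {e : M} (he : ∀ a, g e a = a)
    {u : M} (hu : g u u = u) : u = e := by
  obtain ⟨y, hy⟩ := (hg.2 u e).2
  calc u = g e u := (he u).symm
    _ = g (g y u) u := by rw [hy]
    _ = g y (g u u) := hg.1 _ _ _
    _ = e := by rw [hu, hy]

/-- the group is determined by the product -/
theorem grp_inj {L R : Type} (l0 : L) (r0 : R) {g g' : Bin} (hg : Grp g) (hg' : Grp g')
    (ψ : L × ℕ × R ≃ L × ℕ × R)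
    (h : ∀ u v : L × ℕ × R, ψ (u.1, g u.2.1 v.2.1, v.2.2) =
      ((ψ u).1, g' (ψ u).2.1 (ψ v).2.1, (ψ v).2.2)) : OIso g g' := by
  obtain ⟨e, he1, he2⟩ := Grp.one hg 0
  obtain ⟨e', he1', he2'⟩ := Grp.one hg' 0
  obtain ⟨w0, hw0⟩ : ∃ w0, w0 = ψ (l0, e, r0) := ⟨_, rfl⟩
  have hid : w0.2.1 = e' := by
    have h1 := h (l0, e, r0) (l0, e, r0)
    simp only [he1] at h1
    rw [← hw0] at h1
    exact Grp.idem hg' he1' (congrArg (fun z : L × ℕ × R => z.2.1) h1).symm
  have h1 : ∀ m, (ψ (l0, m, r0)).1 = w0.1 := by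
    intro m
    have h1 := h (l0, e, r0) (l0, m, r0)
    simp only [he1] at h1
    rw [← hw0] at h1
    have h3 := congrArg (fun z : L × ℕ × R => z.1) h1
    exact h3
  have h2 : ∀ m, (ψ (l0, m, r0)).2.2 = w0.2.2 := by
    intro m
    have h1 := h (l0, m, r0) (l0, e, r0)
    simp only [he2] at h1
    rw [← hw0] at h1
    have h3 := congrArg (fun z : L × ℕ × R => z.2.2) h1
    exact h3
  have hbij : Function.Bijective (fun m : ℕ => (ψ (l0, m, r0)).2.1) := by
    constructor
    · intro m n hmn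
      have h3 : ψ (l0, m, r0) = ψ (l0, n, r0) := by
        refine Prod.ext ?_ (Prod.ext hmn ?_)
        · rw [h1, h1]
        · rw [h2, h2]
      have h4 := ψ.injective h3
      exact congrArg (fun z : L × ℕ × R => z.2.1) h4
    · intro n
      obtain ⟨w, hw⟩ := ψ.surjective (w0.1, n, w0.2.2)
      have h3 := h (l0, e, r0) w
      rw [← hw0, hw, he1, hid, he1'] at h3
      have h4 := h (l0, w.2.1, w.2.2) (l0, e, r0)
      simp only at h4
      rw [← hw0, h3, he2, hid] at h4
      simp only [he2'] at h4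
      refine ⟨w.2.1, ?_⟩
      simp only
      rw [h4]
  refine ⟨Equiv.ofBijective _ hbij, fun m n => ?_⟩
  have h3 := h (l0, m, r0) (l0, n, r0)
  exact (congrArg (fun z : L × ℕ × R => z.2.1) h3).symm

theorem PR.inj {L R : Type} (l0 : L) (r0 : R) {g g' x : Bin} (hg : Grp g) (hg' : Grp g')
    (hx : PR L ℕ R g x) (hx' : PR L ℕ R g' x) : OIso g g' := by
  obtain ⟨φ, h1⟩ := hx
  obtain ⟨ψ, h2⟩ := hx'
  refine grp_inj l0 r0 hg hg' (φ.trans ψ.symm) fun u v => ?_
  simp only [Equiv.trans_apply]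
  rw [← h1]
  obtain ⟨a, ha⟩ := ψ.surjective (φ u)
  obtain ⟨b, hb⟩ := ψ.surjective (φ v)
  rw [← ha, ← hb, h2]
  simp

/-! ### codes -/

/-- countable nonempty types -/
def Ty : ℕ → Type
  | 0 => ℕ
  | a + 1 => Fin (a + 1)

instance Ty.ne (a : ℕ) : Nonempty (Ty a) := by
  cases a with
  | zero => exact ⟨(0 : ℕ)⟩
  | succ a => exact ⟨(0 : Fin (a + 1))⟩

instance Ty.ct (a : ℕ) : Countable (Ty a) := by
  cases a with
  | zero => exact inferInstanceAs (Countable ℕ)
  | succ a => exact inferInstanceAs (Countable (Fin (a + 1)))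

theorem exists_Ty (X : Type) [Countable X] [Nonempty X] : ∃ a, Nonempty (X ≃ Ty a) := by
  rcases finite_or_infinite X with h | h
  · obtain ⟨n, ⟨e⟩⟩ := Finite.exists_equiv_fin X
    cases n with
    | zero => exact (Fin.elim0 (e (Classical.arbitrary X)))
    | succ n => exact ⟨n + 1, ⟨e⟩⟩
  · obtain ⟨d⟩ := nonempty_denumerable X
    exact ⟨0, ⟨Denumerable.eqv X⟩⟩

/-- the bijection -/
noncomputable def bb (a c : ℕ) : Ty a × ℕ × Ty c ≃ ℕ :=
  haveI : Infinite (Ty a × ℕ × Ty c) := inferInstance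
  letI := (nonempty_denumerable (Ty a × ℕ × Ty c)).some
  Denumerable.eqv _

/-- the product with bands -/
noncomputable def iota (a c : ℕ) (g : Bin) : Bin := fun m n =>
  bb a c (((bb a c).symm m).1, g ((bb a c).symm m).2.1 ((bb a c).symm n).2.1, ((bb a c).symm n).2.2)

theorem iota_PR (a c : ℕ) (g : Bin) : PR (Ty a) ℕ (Ty c) g (iota a c g) := by
  refine ⟨bb a c, fun u v => ?_⟩
  unfold iota
  rw [Equiv.symm_apply_apply, Equiv.symm_apply_apply]

theorem iota_cont (a c : ℕ) : Continuous (iota a c) := by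
  refine continuous_pi fun m => continuous_pi fun n => ?_
  have h1 : Continuous (fun k : ℕ => bb a c (((bb a c).symm m).1, k, ((bb a c).symm n).2.2)) :=
    continuous_of_discreteTopology
  have h2 : Continuous (fun g : Bin => g ((bb a c).symm m).2.1 ((bb a c).symm n).2.1) :=
    (continuous_apply _).comp (continuous_apply _)
  exact h1.comp h2

/-! ### measurability -/

theorem mev (m n k : ℕ) : BP (fun g : Bin => g m n = k) := by
  have h2 : Measurable (fun g : Bin => g m n) := (measurable_pi_apply n).comp (measurable_pi_apply m)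
  exact h2 (measurableSet_singleton k)

theorem mSG : BP (fun g : Bin => SG g) := by
  have h : BP (fun g : Bin => ∀ x y z u v w, g x y = u → g y z = v → (g u z = w ↔ g x v = w)) :=
    BP.all fun x => BP.all fun y => BP.all fun z => BP.all fun u => BP.all fun v => BP.all fun w =>
      (mev x y u).imp ((mev y z v).imp ((mev u z w).iff (mev x v w)))
  refine h.congr fun g => ⟨fun h x y z => ?_, fun h x y z u v w hu hv => ?_⟩
  · exact ((h x y z _ _ _ rfl rfl).1 rfl).symm
  · rw [← hu, ← hv, h]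

theorem mGrp : BP (fun g : Bin => Grp g) := by
  have h : BP (fun g : Bin => ∀ a b : ℕ, (∃ x, g a x = b) ∧ ∃ x, g x a = b) :=
    BP.all fun a => BP.all fun b => (BP.ex fun x => mev a x b).and (BP.ex fun x => mev x a b)
  exact mSG.and h

/-! ### the dichotomy -/

theorem OIso.symm {x y : Bin} (h : OIso x y) : OIso y x := by
  obtain ⟨σ, h⟩ := h
  refine ⟨σ.symm, fun m n => ?_⟩
  obtain ⟨a, rfl⟩ := σ.surjective m
  obtain ⟨b, rfl⟩ := σ.surjective n
  rw [h]
  simp

theorem Grp.iso {g g' : Bin} (hg : Grp g) (h : OIso g g') : Grp g' := by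
  obtain ⟨σ, h⟩ := h
  have h1 := Grp.map hg σ
  have h2 : g' = fun a b => σ (g (σ.symm a) (σ.symm b)) := by
    funext a b
    rw [← h]
    simp
  rw [h2]
  exact h1

theorem PR.grp_iso {L R : Type} {g g' x : Bin} (h : OIso g g') (hx : PR L ℕ R g x) :
    PR L ℕ R g' x := by
  obtain ⟨σ, h⟩ := h
  have h1 := PR.map hx (Equiv.refl L) σ (Equiv.refl R)
  have h2 : g' = fun a b => σ (g (σ.symm a) (σ.symm b)) := by
    funext a b
    rw [← h]
    simp
  rw [h2]
  exact h1

theorem cnt {ι : Type} [Countable ι] {B : Set Bin} (R : ι → Bin → Prop) (h1 : ∀ x ∈ B, ∃ i, R i x)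
    (h2 : ∀ i, ∀ x ∈ B, ∀ y ∈ B, R i x → R i y → OIso x y) :
    ∃ f : ℕ → Bin, ∀ x ∈ B, ∃ n, OIso (f n) x := by
  classical
  rcases isEmpty_or_nonempty ι with hι | hι
  · refine ⟨fun _ _ _ => 0, fun x hx => ?_⟩
    obtain ⟨i, -⟩ := h1 x hx
    exact (hι.false i).elim
  · obtain ⟨e, he⟩ := exists_surjective_nat ι
    refine ⟨fun n => if h : ∃ x, x ∈ B ∧ R (e n) x then h.choose else fun _ _ => 0,
      fun x hx => ?_⟩
    obtain ⟨i, hi⟩ := h1 x hx
    obtain ⟨n, rfl⟩ := he i
    have h : ∃ x, x ∈ B ∧ R (e n) x := ⟨x, hx, hi⟩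
    refine ⟨n, ?_⟩
    simp only [dif_pos h]
    exact h2 (e n) _ h.choose_spec.1 x hx h.choose_spec.2 hi

end GG

open GG in
/-- **The dichotomy for rectangular groups follows from the dichotomy for groups.** -/
theorem leaf_G : Leaf_G := by
  intro E hG B hB hinv hcl
  obtain ⟨B', hB'⟩ : ∃ B' : ℕ → ℕ → Set Bin, B' = fun a c => {g | Grp g ∧ iota a c g ∈ B} :=
    ⟨_, rfl⟩
  have hmem : ∀ a c g, g ∈ B' a c ↔ Grp g ∧ iota a c g ∈ B := by
    intro a c g
    rw [hB']
    rfl
  have hmeas : ∀ a c, MeasurableSet (B' a c) := by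
    intro a c
    have h1 : BP (fun g : Bin => iota a c g ∈ B) := (iota_cont a c).measurable hB
    have h2 : BP (fun g : Bin => Grp g ∧ iota a c g ∈ B) := mGrp.and h1
    rw [hB']
    exact h2
  have hstep : ∀ a c x y, OIso x y → x ∈ B' a c → y ∈ B' a c := by
    intro a c x y hxy hx
    rw [hmem] at hx ⊢
    refine ⟨Grp.iso hx.1 hxy, ?_⟩
    have h1 : PR (Ty a) ℕ (Ty c) y (iota a c x) := PR.grp_iso hxy (iota_PR a c x)
    exact (hinv _ _ (PR.iso h1 (iota_PR a c y))).1 hx.2
  have hd : ∀ a c, Dich True OIso (B' a c) := by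
    intro a c
    refine hG (B' a c) (hmeas a c) (fun x y hxy => ⟨hstep a c x y hxy,
      hstep a c y x (OIso.symm hxy)⟩) (fun x hx => ?_)
    rw [hmem] at hx
    exact ⟨hx.1, Sa.of_PR (iota_PR a c x) (Classical.arbitrary (Ty a))
      (Classical.arbitrary (Ty c)) (hcl _ hx.2).2⟩
  by_cases key : ∃ a c, ∃ g : (ℕ → Bool) → Bin, (True → Continuous g) ∧ (∀ s, g s ∈ B' a c) ∧
      ∀ s t, OIso (g s) (g t) → s = t
  · right
    obtain ⟨a, c, g, h1, h2, h3⟩ := key
    refine ⟨fun s => iota a c (g s), fun _ => (iota_cont a c).comp (h1 trivial),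
      fun s => ((hmem _ _ _).1 (h2 s)).2, fun s t hst => h3 s t ?_⟩
    exact PR.inj (Classical.arbitrary (Ty a)) (Classical.arbitrary (Ty c))
      ((hmem _ _ _).1 (h2 s)).1 ((hmem _ _ _).1 (h2 t)).1
      (PR.of_iso (iota_PR a c (g s)) hst) (iota_PR a c (g t))
  · left
    have h0 : ∀ a c, ∃ f : ℕ → Bin, ∀ x ∈ B' a c, ∃ n, OIso (f n) x := by
      intro a c
      rcases hd a c with h | ⟨g, h⟩
      · exact h
      · exact absurd ⟨a, c, g, h⟩ key
    choose f hf using h0
    refine cnt (ι := (ℕ × ℕ) × (ℕ ⊕ (Σ k : ℕ, Fin k → Fin k → Fin k)))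
      (fun i x => Sum.elim (fun n => PR (Ty i.1.1) ℕ (Ty i.1.2) (f i.1.1 i.1.2 n) x)
        (fun q => PR (Ty i.1.1) (Fin q.1) (Ty i.1.2) q.2 x) i.2) ?_ ?_
    · intro x hx
      obtain ⟨L, H, R, h, cL, cH, cR, nL, nH, nR, hg, hP⟩ := struct (hcl x hx).1
      obtain ⟨a, ⟨eL⟩⟩ := exists_Ty L
      obtain ⟨c, ⟨eR⟩⟩ := exists_Ty R
      rcases finite_or_infinite H with hfin | hinf
      · obtain ⟨k, ⟨eH⟩⟩ := Finite.exists_equiv_fin H
        exact ⟨((a, c), Sum.inr ⟨k, fun a b => eH (h (eH.symm a) (eH.symm b))⟩),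
          PR.map hP eL eH eR⟩
      · obtain ⟨d⟩ := nonempty_denumerable H
        have eH : H ≃ ℕ := Denumerable.eqv H
        have h1 := PR.map hP eL eH eR
        have h2 := Grp.map hg eH
        obtain ⟨g, hgg⟩ : ∃ g : Bin, g = fun a b => eH (h (eH.symm a) (eH.symm b)) := ⟨_, rfl⟩
        rw [← hgg] at h1 h2
        have h3 : g ∈ B' a c := by
          rw [hmem]
          exact ⟨h2, (hinv _ _ (PR.iso (iota_PR a c g) h1)).2 hx⟩
        obtain ⟨n, hn⟩ := hf a c g h3
        exact ⟨((a, c), Sum.inl n), PR.grp_iso (OIso.symm hn) h1⟩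
    · rintro ⟨⟨a, c⟩, n | ⟨k, h⟩⟩ x hx y hy h1 h2
      · exact PR.iso h1 h2
      · exact PR.iso h1 h2

end Pool.Agent.N649.SV
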