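import Pool.Agent.N649.SV.Stm

set_option autoImplicit false

/-!
# Vaught's conjecture for varieties of semigroups: the leaf `Leaf_id` (identities)
Author: helper163.
-/

namespace Pool.Agent.N649.SV

open Pool.Agent.N649.SG.Light

namespace IdX

/-- the conditions `KN` with the zero `c` -/
structure KNc {M : Type} (o : M → M → M) (c : M) : Prop where
  h1 : ∀ x y z, o (o x y) z = c
  h2 : ∀ x, o x x = c
  h3 : ∀ x y, o x y = o y x

/-- terms with the value zero -/
def Zt (s : T) : Prop := ∀ (M : Type) (o : M → M → M) (c : M), KNc o c → ∀ v, s.val o v = c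

theorem trich (s : T) : (∃ n, s = .var n) ∨ (∃ m n, m ≠ n ∧ s = .mul (.var m) (.var n)) ∨ Zt s := by
  rcases s with n | ⟨a, b⟩
  · exact Or.inl ⟨n, rfl⟩
  · rcases a with m | ⟨a1, a2⟩
    · rcases b with n | ⟨b1, b2⟩
      · by_cases h : m = n
        · right; right
          subst h
          intro M o c hc v
          exact hc.h2 _
        · exact Or.inr (Or.inl ⟨m, n, h, rfl⟩)
      · right; right
        intro M o c hc v
        show o (v m) (o (b1.val o v) (b2.val o v)) = c
        rw [hc.h3, hc.h1]
    · right; right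
      intro M o c hc v
      exact hc.h1 _ _ _

theorem t4_KN : KNc t4 T4.o where
  h1 := by intro x y z; cases x <;> cases y <;> cases z <;> rfl
  h2 := by intro x; cases x <;> rfl
  h3 := by intro x y; cases x <;> cases y <;> rfl

theorem t4_ne_u (x y : T4) : t4 x y ≠ T4.u := by
  cases x <;> cases y <;> intro h <;> cases h

/-- the assignment with `u` at `m`, `w` at `n` -/
def as (m n i : ℕ) : T4 := if i = m then .u else if i = n then .w else .o

theorem as_m (m n : ℕ) : as m n m = .u := by simp [as]
theorem as_n {m n : ℕ} (h : m ≠ n) : as m n n = .w := by simp [as, Ne.symm h]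

theorem as_prod {m n i j : ℕ} (h : t4 (as m n i) (as m n j) = .a) :
    (i = m ∧ j = n) ∨ (i = n ∧ j = m) := by
  unfold as at h
  by_cases h1 : i = m
  · by_cases h2 : j = m
    · rw [if_pos h1, if_pos h2] at h; cases h
    · by_cases h3 : j = n
      · exact Or.inl ⟨h1, h3⟩
      · rw [if_pos h1, if_neg h2, if_neg h3] at h; cases h
  · by_cases h4 : i = n
    · by_cases h2 : j = m
      · exact Or.inr ⟨h4, h2⟩
      · by_cases h3 : j = n
        · rw [if_neg h1, if_pos h4, if_neg h2, if_pos h3] at h; cases h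
        · rw [if_neg h1, if_pos h4, if_neg h2, if_neg h3] at h; cases h
    · by_cases h2 : j = m
      · rw [if_neg h1, if_neg h4, if_pos h2] at h; cases h
      · by_cases h3 : j = n
        · rw [if_neg h1, if_neg h4, if_neg h2, if_pos h3] at h; cases h
        · rw [if_neg h1, if_neg h4, if_neg h2, if_neg h3] at h; cases h

theorem var_case (n : ℕ) (t : T) (h : ∀ v, (T.var n).val t4 v = t.val t4 v) : t = .var n := by
  rcases t with m | ⟨a, b⟩
  · by_contra hne
    have hne' : n ≠ m := fun h => hne (by rw [h])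
    have := h (as n m)
    rw [T.val, T.val, as_m, as_n hne'] at this
    cases this
  · exfalso
    have := h fun _ => .u
    rw [T.val, T.val] at this
    exact t4_ne_u _ _ this.symm

theorem good_case (m n : ℕ) (hmn : m ≠ n) (t : T)
    (h : ∀ v, (T.mul (.var m) (.var n)).val t4 v = t.val t4 v) :
    t = .mul (.var m) (.var n) ∨ t = .mul (.var n) (.var m) := by
  have h1 := h (as m n)
  have h2 : (T.mul (.var m) (.var n)).val t4 (as m n) = .a := by
    rw [T.val, T.val, T.val, as_m, as_n hmn]
    rfl
  rw [h2] at h1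
  rcases trich t with ⟨i, rfl⟩ | ⟨i, j, -, rfl⟩ | hz
  · exfalso
    have h3 := h fun _ => .u
    rw [T.val, T.val, T.val, T.val] at h3
    cases h3
  · rw [T.val, T.val, T.val] at h1
    rcases as_prod h1.symm with ⟨rfl, rfl⟩ | ⟨rfl, rfl⟩
    · exact Or.inl rfl
    · exact Or.inr rfl
  · exfalso
    rw [hz T4 t4 _ t4_KN] at h1
    cases h1

theorem part1 (E : Set (T × T)) (hE : Sa E t4) (M : Type) (o : M → M → M) (ho : KN o) : Sa E o := by
  obtain ⟨c, h1, h2, h3⟩ := ho
  have hc : KNc o c := ⟨h1, h2, h3⟩
  rintro ⟨s, t⟩ hst v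
  have h := hE _ hst
  dsimp only at h ⊢
  rcases trich s with ⟨n, rfl⟩ | ⟨m, n, hmn, rfl⟩ | hs
  · rw [var_case n t h]
  · rcases good_case m n hmn t h with rfl | rfl
    · rfl
    · exact h3 _ _
  · rcases trich t with ⟨n, rfl⟩ | ⟨m, n, hmn, rfl⟩ | ht
    · rw [var_case n s fun v => (h v).symm]
    · rcases good_case m n hmn s fun v => (h v).symm with rfl | rfl
      · rfl
      · exact h3 _ _
    · rw [hs M o c hc, ht M o c hc]

theorem le_iff {M : Type} {o : M → M → M} (ho : KS o) (a b y : M) :
    o (o a b) y = y ↔ o a y = y ∧ o b y = y := by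
  obtain ⟨has, hid, hco⟩ := ho
  constructor
  · intro h
    constructor
    · calc o a y = o a (o (o a b) y) := by rw [h]
        _ = o (o (o a a) b) y := by rw [← has, ← has]
        _ = y := by rw [hid, h]
    · calc o b y = o b (o (o a b) y) := by rw [h]
        _ = o b (o (o b a) y) := by rw [hco a b]
        _ = o (o (o b b) a) y := by rw [← has, ← has]
        _ = y := by rw [hid, hco b a, h]
  · rintro ⟨h1, h2⟩
    rw [has, h2, h1]

open Classical in
theorem le_iff' {M : Type} {o : M → M → M} (ho : KS o) (v : ℕ → M) (y : M) (s : T) :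
    o (s.val o v) y = y ↔ s.val or (fun n => decide (o (v n) y ≠ y)) = false := by
  induction s with
  | var n => simp [T.val]
  | mul a b iha ihb =>
    show o (o (a.val o v) (b.val o v)) y = y ↔ (a.val or _ || b.val or _) = false
    rw [le_iff ho, iha, ihb, Bool.or_eq_false_iff]

theorem part2 (E : Set (T × T)) (hE : Sa E or) (M : Type) (o : M → M → M) (ho : KS o) : Sa E o := by
  classical
  rintro ⟨s, t⟩ hst v
  have h := hE _ hst
  dsimp only at h ⊢
  have h1 : ∀ y, o (s.val o v) y = y ↔ o (t.val o v) y = y := by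
    intro y
    rw [le_iff' ho, le_iff' ho, h]
  have h2 : o (s.val o v) (t.val o v) = t.val o v := (h1 _).2 (ho.2.1 _)
  have h3 : o (t.val o v) (s.val o v) = s.val o v := (h1 _).1 (ho.2.1 _)
  rw [ho.2.2] at h3
  exact h3.symm.trans h2

theorem val_map {A B : Type} [AddCommMonoid A] [AddCommMonoid B] (φ : A →+ B) (s : T) (v : ℕ → A) :
    φ (s.val (fun x y => x + y) v) = s.val (fun x y => x + y) (fun n => φ (v n)) := by
  induction s with
  | var n => rfl
  | mul a b iha ihb =>
    show φ (a.val _ v + b.val _ v) = a.val _ _ + b.val _ _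
    rw [map_add, iha, ihb]

/-- the value in a group of exponent `p` -/
theorem grp_eq (p : ℕ) (s t : T)
    (h : ∀ v : ℕ → ZMod p, s.val (fun x y => x + y) v = t.val (fun x y => x + y) v)
    (G : Type) [AddCommGroup G] (hG : ∀ a : G, p • a = 0) (w : ℕ → G) :
    s.val (fun x y => x + y) w = t.val (fun x y => x + y) w := by
  letI : Module (ZMod p) G := AddCommGroup.zmodModule hG
  have h1 : s.val (fun x y => x + y) (fun n => (Finsupp.single n 1 : ℕ →₀ ZMod p)) =
      t.val (fun x y => x + y) (fun n => (Finsupp.single n 1 : ℕ →₀ ZMod p)) := by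
    ext i
    have h2 := val_map (Finsupp.applyAddHom i : (ℕ →₀ ZMod p) →+ ZMod p)
    have h3 := h2 s fun n => (Finsupp.single n 1 : ℕ →₀ ZMod p)
    have h4 := h2 t fun n => (Finsupp.single n 1 : ℕ →₀ ZMod p)
    rw [h, ← h4] at h3
    exact h3
  have h2 := val_map (Finsupp.linearCombination (ZMod p) w).toAddMonoidHom
  have h3 := h2 s fun n => (Finsupp.single n 1 : ℕ →₀ ZMod p)
  have h4 := h2 t fun n => (Finsupp.single n 1 : ℕ →₀ ZMod p)
  rw [h1, h4] at h3
  have h5 : (fun n => (Finsupp.linearCombination (ZMod p) w).toAddMonoidHom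
      (Finsupp.single n 1 : ℕ →₀ ZMod p)) = w := by
    funext n
    simp
  rw [h5] at h3
  exact h3.symm

theorem f_val {M G : Type} [AddCommGroup G] {o : M → M → M} {f : M → G} {g : G → M}
    (hfg : ∀ a, f (g a) = a) (ho : ∀ x y, o x y = g (f x + f y)) (s : T) (v : ℕ → M) :
    f (s.val o v) = s.val (fun x y => x + y) (fun n => f (v n)) := by
  induction s with
  | var n => rfl
  | mul a b iha ihb =>
    show f (o (a.val o v) (b.val o v)) = a.val _ _ + b.val _ _
    rw [ho, hfg, iha, ihb]

theorem g_val {M G : Type} [AddCommGroup G] {o : M → M → M} {f : M → G} {g : G → M}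
    (hfg : ∀ a, f (g a) = a) (ho : ∀ x y, o x y = g (f x + f y)) (a b : T) (v : ℕ → M) :
    (T.mul a b).val o v = g ((T.mul a b).val (fun x y => x + y) (fun n => f (v n))) := by
  rw [← f_val hfg ho]
  show o (a.val o v) (b.val o v) = g (f (o (a.val o v) (b.val o v)))
  rw [ho, hfg]

theorem part3 (E : Set (T × T)) (p : ℕ) (hE : Sa E (fun x y : ZMod p => x + y))
    (hN : Sa E (fun _ _ : Bool => false)) (M : Type) (o : M → M → M) (ho : KI p o) : Sa E o := by
  obtain ⟨G, _, f, g, hG, hfg, hog⟩ := ho
  rintro ⟨s, t⟩ hst v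
  have h := hE _ hst
  have hn := hN _ hst
  dsimp only at h hn ⊢
  have hs := grp_eq p s t h G hG
  rcases s with m | ⟨a, b⟩
  · rcases t with n | ⟨c, d⟩
    · by_cases hmn : m = n
      · rw [hmn]
      · exfalso
        have := hn fun i => decide (i = m)
        simp only [T.val] at this
        simp [Ne.symm hmn] at this
    · exfalso
      have := hn fun _ => true
      simp [T.val] at this
  · rcases t with n | ⟨c, d⟩
    · exfalso
      have := hn fun _ => true
      simp [T.val] at this
    · rw [g_val hfg hog, g_val hfg hog, hs]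

end IdX

theorem leaf_id : Leaf_id :=
  ⟨IdX.part1, IdX.part2, fun E p _ h1 h2 M o ho => IdX.part3 E p h1 h2 M o ho⟩

end Pool.Agent.N649.SV
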