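import Pool.Agent.N649.SV.Stm
import Pool.Agent.W889.SD.Deg

set_option autoImplicit false
set_option linter.unusedSectionVars false
set_option linter.constructorNameAsVariable false

/-!
# Nilpotent commutative semigroups and semilattices are faithfully complete

By helper565. The code of a graph and its reconstruction are adapted from `Pool/Agent/R377/LW/Flat`.
-/

namespace Pool.Agent.N649.SV.NS

open Pool.Agent.N649.SG.Light
open Pool.Agent.W889.VC (BinStr BIso Faithful BP IsGraph)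
open Pool.Agent.W889.SD (dc dc_iso dc_iso' measurable_dc nth_equiv faithful_interp K3 target_K3 rel
  Big inf_of of_inf)

/-- zero, vertices and edges -/
inductive Fl (X : Type) (G : X → X → Prop) : Type
  | z
  | v (x : X)
  | e (s : Sym2 X) (h : ∃ x y, s = s(x, y) ∧ G x y)

open Classical in
/-- the product -/
noncomputable def fOp (b : Bool) {X : Type} {G : X → X → Prop} : Fl X G → Fl X G → Fl X G
  | .v x, .v y => if h : ∃ x' y', s(x, y) = s(x', y') ∧ G x' y' then .e s(x, y) h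
      else if b = true ∧ x = y then .v x else .z
  | .v x, .e s h => if b = true ∧ x ∈ s then .e s h else .z
  | .e s h, .v x => if b = true ∧ x ∈ s then .e s h else .z
  | .e s h, .e s' _ => if b = true ∧ s = s' then .e s h else .z
  | _, _ => .z

/-- zeros -/
def Zr {M : Type} (o : M → M → M) (p : M) : Prop := ∀ x, o x p = p

/-- vertices -/
def Pv {M : Type} (o : M → M → M) (x : M) : Prop :=
  ¬ Zr o x ∧ ∀ y z, o y z = x → y = x ∧ z = x

/-- adjacency -/
def Ar {M : Type} (o : M → M → M) (x y : M) : Prop := x ≠ y ∧ ¬ Zr o (o x y)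

/-- the axioms -/
structure Good (b : Bool) {M : Type} (o : M → M → M) : Prop where
  comm : ∀ x y, o x y = o y x
  zero : ∃ p, Zr o p
  gen : ∀ e, Zr o e ∨ Pv o e ∨ ∃ x y, Pv o x ∧ Pv o y ∧ x ≠ y ∧ o x y = e
  uniq : ∀ x y x' y', Pv o x → Pv o y → x ≠ y → Pv o x' → Pv o y' → x' ≠ y' → o x y = o x' y' →
    ¬ Zr o (o x y) → (x = x' ∧ y = y') ∨ (x = y' ∧ y = x')
  sq : ∀ x, Pv o x → (b = true ∧ o x x = x) ∨ (b = false ∧ Zr o (o x x))
  ve : ∀ x y z, Pv o x → Pv o y → Pv o z → y ≠ z → ¬ Zr o (o y z) →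
    (b = true ∧ (x = y ∨ x = z) ∧ o x (o y z) = o y z) ∨
    (¬ (b = true ∧ (x = y ∨ x = z)) ∧ Zr o (o x (o y z)))
  ee : ∀ e e', ¬ Pv o e → ¬ Zr o e → ¬ Pv o e' → ¬ Zr o e' →
    (b = true ∧ e = e' ∧ o e e' = e) ∨ (¬ (b = true ∧ e = e') ∧ Zr o (o e e'))

section

variable {b : Bool} {X : Type} {G : X → X → Prop} (hirr : ∀ x, ¬ G x x)
  (hsym : ∀ x y, G x y → G y x)

include hirr hsym

omit hirr in
theorem ge_iff (x y : X) : (∃ x' y', s(x, y) = s(x', y') ∧ G x' y') ↔ G x y := by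
  constructor
  · rintro ⟨x', y', h, h'⟩
    rcases Sym2.eq_iff.1 h with ⟨rfl, rfl⟩ | ⟨rfl, rfl⟩
    · exact h'
    · exact hsym _ _ h'
  · intro h
    exact ⟨x, y, rfl, h⟩

theorem f_vv {x y : X} (h : G x y) :
    fOp b (.v x) (.v y) = Fl.e s(x, y) ((ge_iff hsym x y).2 h) := by
  simp only [fOp]
  rw [dif_pos ((ge_iff hsym x y).2 h)]

theorem f_vx {x : X} : fOp b (.v x) (.v x) = if b = true then Fl.v x else (Fl.z : Fl X G) := by
  simp only [fOp]
  rw [dif_neg fun h => hirr x ((ge_iff hsym x x).1 h)]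
  simp

theorem f_vz {x y : X} (h : ¬ G x y) (hne : x ≠ y) :
    fOp b (.v x) (.v y) = (Fl.z : Fl X G) := by
  simp only [fOp]
  rw [dif_neg fun h' => h ((ge_iff hsym x y).1 h')]
  simp [hne]

theorem f_comm (x y : Fl X G) : fOp b x y = fOp b y x := by
  classical
  rcases x with _ | x | ⟨s, h⟩ <;> rcases y with _ | y | ⟨s', h'⟩ <;> try rfl
  · by_cases hG : G x y
    · rw [f_vv hirr hsym hG, f_vv hirr hsym (hsym _ _ hG)]
      simp [Sym2.eq_swap]
    · by_cases hxy : x = y
      · rw [hxy]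
      · rw [f_vz hirr hsym hG hxy, f_vz hirr hsym (fun h => hG (hsym _ _ h)) (Ne.symm hxy)]
  · simp only [fOp]
    by_cases hss : s = s'
    · subst hss
      rfl
    · rw [if_neg fun h => hss h.2, if_neg fun h => hss h.2.symm]

omit hirr hsym in
theorem f_z (x : Fl X G) : fOp b x .z = .z := by
  rcases x with _ | x | ⟨s, h⟩ <;> rfl

omit hirr hsym in
theorem f_z' (x : Fl X G) : fOp b .z x = .z := by
  rcases x with _ | x | ⟨s, h⟩ <;> rfl

theorem f_eq_v {y t : Fl X G} {x : X} (h : fOp b y t = .v x) : y = .v x ∧ t = .v x := by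
  rcases y with _ | y | ⟨s, h1⟩ <;> rcases t with _ | t | ⟨s', h2⟩
  · cases h
  · cases h
  · cases h
  · cases h
  · by_cases hG : G y t
    · rw [f_vv hirr hsym hG] at h
      cases h
    · by_cases hyt : y = t
      · subst hyt
        rw [f_vx hirr hsym] at h
        split_ifs at h
        rw [Fl.v.inj h]
        exact ⟨rfl, rfl⟩
      · rw [f_vz hirr hsym hG hyt] at h
        cases h
  · simp only [fOp] at h
    split_ifs at h
  · cases h
  · simp only [fOp] at h
    split_ifs at h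
  · simp only [fOp] at h
    split_ifs at h

omit hirr hsym in
theorem zr_iff (p : Fl X G) : Zr (fOp b) p ↔ p = .z := by
  constructor
  · intro h
    rw [← h .z, f_z']
  · rintro rfl x
    exact f_z x

theorem pv_iff (p : Fl X G) : Pv (fOp b) p ↔ ∃ x, p = .v x := by
  constructor
  · rintro ⟨h1, h2⟩
    rcases p with _ | x | ⟨s, h⟩
    · exact absurd ((zr_iff _).2 rfl) h1
    · exact ⟨x, rfl⟩
    · exfalso
      have h' := h
      obtain ⟨x, y, rfl, hG⟩ := h'
      have h3 := (h2 (.v x) (.v y) (f_vv hirr hsym hG)).1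
      cases h3
  · rintro ⟨x, rfl⟩
    refine ⟨fun h => ?_, fun y z h => f_eq_v hirr hsym h⟩
    rw [zr_iff] at h
    cases h

theorem ar_iff (x y : X) : Ar (fOp b) (.v x : Fl X G) (.v y) ↔ G x y := by
  constructor
  · rintro ⟨h1, h3⟩
    by_contra hG
    apply h3
    rw [zr_iff]
    exact f_vz hirr hsym hG fun h => h1 (h ▸ rfl)
  · intro hG
    refine ⟨fun h => ?_, ?_⟩
    · rw [Fl.v.inj h] at hG
      exact hirr y hG
    · rw [zr_iff, f_vv hirr hsym hG]
      exact fun h => by cases h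

theorem good_fl : Good b (fOp b : Fl X G → Fl X G → Fl X G) where
  comm x y := f_comm hirr hsym x y
  zero := ⟨.z, (zr_iff _).2 rfl⟩
  gen e := by
    rcases e with _ | x | ⟨s, h⟩
    · exact Or.inl ((zr_iff _).2 rfl)
    · exact Or.inr (Or.inl ((pv_iff hirr hsym _).2 ⟨x, rfl⟩))
    · have h' := h
      obtain ⟨x, y, rfl, hG⟩ := h'
      refine Or.inr (Or.inr ⟨.v x, .v y, (pv_iff hirr hsym _).2 ⟨x, rfl⟩,
        (pv_iff hirr hsym _).2 ⟨y, rfl⟩, fun h => ?_, f_vv hirr hsym hG⟩)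
      rw [Fl.v.inj h] at hG
      exact hirr y hG
  uniq x y x' y' hx hy hxy hx' hy' hxy' h1 h3 := by
    obtain ⟨a, rfl⟩ := (pv_iff hirr hsym x).1 hx
    obtain ⟨c, rfl⟩ := (pv_iff hirr hsym y).1 hy
    obtain ⟨a', rfl⟩ := (pv_iff hirr hsym x').1 hx'
    obtain ⟨c', rfl⟩ := (pv_iff hirr hsym y').1 hy'
    rw [zr_iff] at h3
    have g1 : G a c := by
      by_contra hG
      exact h3 (f_vz hirr hsym hG fun h => hxy (h ▸ rfl))
    have g2 : G a' c' := by
      by_contra hG
      exact h3 (h1.trans (f_vz hirr hsym hG fun h => hxy' (h ▸ rfl)))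
    rw [f_vv hirr hsym g1, f_vv hirr hsym g2] at h1
    rcases Sym2.eq_iff.1 (Fl.e.inj h1) with ⟨rfl, rfl⟩ | ⟨rfl, rfl⟩
    · exact Or.inl ⟨rfl, rfl⟩
    · exact Or.inr ⟨rfl, rfl⟩
  sq x hx := by
    obtain ⟨a, rfl⟩ := (pv_iff hirr hsym x).1 hx
    rw [f_vx hirr hsym, zr_iff]
    cases b
    · exact Or.inr ⟨rfl, by simp⟩
    · exact Or.inl ⟨rfl, by simp⟩
  ve x y z hx hy hz hyz h2 := by
    obtain ⟨a, rfl⟩ := (pv_iff hirr hsym x).1 hx
    obtain ⟨c, rfl⟩ := (pv_iff hirr hsym y).1 hy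
    obtain ⟨d, rfl⟩ := (pv_iff hirr hsym z).1 hz
    rw [zr_iff] at h2
    have g1 : G c d := by
      by_contra hG
      exact h2 (f_vz hirr hsym hG fun h => hyz (h ▸ rfl))
    rw [f_vv hirr hsym g1, zr_iff]
    have h6 : (Fl.v a = (Fl.v c : Fl X G) ∨ Fl.v a = (Fl.v d : Fl X G)) ↔ a ∈ s(c, d) := by
      rw [Sym2.mem_iff]
      constructor
      · rintro (h | h)
        · exact Or.inl (Fl.v.inj h)
        · exact Or.inr (Fl.v.inj h)
      · rintro (h | h)
        · exact Or.inl (h ▸ rfl)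
        · exact Or.inr (h ▸ rfl)
    rw [h6]
    simp only [fOp]
    split_ifs with h7
    · exact Or.inl ⟨h7.1, h7.2, rfl⟩
    · exact Or.inr ⟨h7, rfl⟩
  ee e e' h1 h2 h3 h4 := by
    rw [zr_iff] at h2 h4
    rw [pv_iff hirr hsym] at h1 h3
    rcases e with _ | x | ⟨s, h⟩
    · exact absurd rfl h2
    · exact absurd ⟨x, rfl⟩ h1
    rcases e' with _ | x | ⟨s', h'⟩
    · exact absurd rfl h4
    · exact absurd ⟨x, rfl⟩ h3
    have h7 : (Fl.e s h : Fl X G) = Fl.e s' h' ↔ s = s' := by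
      constructor
      · intro h
        exact Fl.e.inj h
      · rintro rfl
        rfl
    rw [h7, zr_iff]
    simp only [fOp]
    split_ifs with h8
    · exact Or.inl ⟨h8.1, h8.2, rfl⟩
    · exact Or.inr ⟨h8, rfl⟩

omit hirr hsym in
/-- without idempotents the products are zero or edges -/
theorem f_false (x y : Fl X G) : fOp false x y = .z ∨ ∃ s h, fOp false x y = .e s h := by
  rcases x with _ | x | ⟨s, h⟩ <;> rcases y with _ | y | ⟨s', h'⟩
  · exact Or.inl rfl
  · exact Or.inl rfl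
  · exact Or.inl rfl
  · exact Or.inl rfl
  · by_cases h1 : ∃ x' y', s(x, y) = s(x', y') ∧ G x' y'
    · refine Or.inr ⟨s(x, y), h1, ?_⟩
      simp only [fOp]
      rw [dif_pos h1]
    · left
      simp only [fOp]
      rw [dif_neg h1]
      simp
  · simp [fOp]
  · exact Or.inl rfl
  · simp [fOp]
  · simp [fOp]

omit hirr hsym in
theorem f_false_e (s : Sym2 X) (h : ∃ x y, s = s(x, y) ∧ G x y) (x : Fl X G) :
    fOp false (.e s h) x = .z ∧ fOp false x (.e s h) = .z := by
  rcases x with _ | x | ⟨s', h'⟩ <;> simp [fOp]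

theorem kn_fl : KN (fOp false : Fl X G → Fl X G → Fl X G) := by
  refine ⟨.z, fun x y z => ?_, fun x => ?_, f_comm hirr hsym⟩
  · rcases f_false x y with h | ⟨s, h, h'⟩
    · rw [h, f_z']
    · rw [h']
      exact (f_false_e s h z).1
  · rcases x with _ | x | ⟨s, h⟩
    · rfl
    · rw [f_vx hirr hsym]
      simp
    · exact (f_false_e s h _).1

/-- the code of an element by a set -/
def D : Fl X G → Set (X ⊕ Sym2 X)
  | .z => ∅
  | .v x => {t | t = Sum.inl x ∨ ∃ s, t = Sum.inr s ∧ x ∈ s ∧ ∃ x y, s = s(x, y) ∧ G x y}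
  | .e s _ => {Sum.inr s}

omit hirr hsym in
theorem D_inj : Function.Injective (D : Fl X G → Set (X ⊕ Sym2 X)) := by
  intro x y hxy
  have hv : ∀ a : X, Sum.inl a ∈ D (.v a : Fl X G) := fun a => Or.inl rfl
  have he : ∀ (s : Sym2 X) (h : ∃ x y, s = s(x, y) ∧ G x y), Sum.inr s ∈ D (.e s h : Fl X G) :=
    fun s h => rfl
  rcases x with _ | x | ⟨s, h⟩ <;> rcases y with _ | y | ⟨s', h'⟩
  · rfl
  · exact absurd (hxy ▸ hv y) (Set.notMem_empty _)
  · exact absurd (hxy ▸ he s' h') (Set.notMem_empty _)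
  · exact absurd (hxy ▸ hv x) (Set.notMem_empty _)
  · have h1 : Sum.inl x ∈ D (.v y : Fl X G) := hxy ▸ hv x
    rcases h1 with h1 | ⟨s, h1, -⟩
    · rw [Sum.inl.inj h1]
    · cases h1
  · have h1 : Sum.inl x ∈ D (.e s' h' : Fl X G) := hxy ▸ hv x
    have h2 : (Sum.inl x : X ⊕ Sym2 X) = Sum.inr s' := h1
    cases h2
  · exact absurd (hxy ▸ he s h) (Set.notMem_empty _)
  · have h1 : Sum.inl y ∈ D (.e s h : Fl X G) := hxy ▸ hv y
    have h2 : (Sum.inl y : X ⊕ Sym2 X) = Sum.inr s := h1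
    cases h2
  · have h1 : Sum.inr s ∈ D (.e s' h' : Fl X G) := hxy ▸ he s h
    have h2 : (Sum.inr s : X ⊕ Sym2 X) = Sum.inr s' := h1
    have h3 := Sum.inr.inj h2
    subst h3
    rfl

theorem D_op (x y : Fl X G) : D (fOp true x y) = D x ∩ D y := by
  classical
  have hve : ∀ (x : X) (s : Sym2 X) (h : ∃ x y, s = s(x, y) ∧ G x y),
      D (fOp true (.v x) (.e s h) : Fl X G) = D (.v x : Fl X G) ∩ D (.e s h : Fl X G) := by
    intro x s h
    simp only [fOp]
    split_ifs with h1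
    · ext t
      constructor
      · intro ht
        have ht' : t = Sum.inr s := ht
        exact ⟨Or.inr ⟨s, ht', h1.2, h⟩, ht⟩
      · exact fun ht => ht.2
    · ext t
      constructor
      · exact fun ht => absurd ht (Set.notMem_empty _)
      · rintro ⟨ht1, ht2⟩
        exfalso
        have ht' : t = Sum.inr s := ht2
        subst ht'
        rcases ht1 with ht1 | ⟨s', ht1, ht3, -⟩
        · cases ht1
        · rw [Sum.inr.inj ht1] at h1
          exact h1 ⟨by simp, ht3⟩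
  rcases x with _ | x | ⟨s, h⟩
  · rw [f_z']
    exact (Set.empty_inter _).symm
  · rcases y with _ | y | ⟨s', h'⟩
    · exact (Set.inter_empty _).symm
    · by_cases hG : G x y
      · have hne : x ≠ y := fun h => hirr y (h ▸ hG)
        rw [f_vv hirr hsym hG]
        ext t
        constructor
        · intro ht
          have ht' : t = Sum.inr s(x, y) := ht
          exact ⟨Or.inr ⟨_, ht', Sym2.mem_mk_left _ _, x, y, rfl, hG⟩,
            Or.inr ⟨_, ht', Sym2.mem_mk_right _ _, x, y, rfl, hG⟩⟩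
        · rintro ⟨ht1, ht2⟩
          show t = Sum.inr s(x, y)
          rcases ht1 with rfl | ⟨s, rfl, h1, -⟩
          · rcases ht2 with ht2 | ⟨s, ht2, -⟩
            · exact absurd (Sum.inl.inj ht2) hne
            · cases ht2
          · rcases ht2 with ht2 | ⟨s', ht2, h2, -⟩
            · cases ht2
            · rw [← Sum.inr.inj ht2] at h2
              rw [(Sym2.mem_and_mem_iff hne).1 ⟨h1, h2⟩]
      · by_cases hxy : x = y
        · subst hxy
          rw [f_vx hirr hsym, if_pos rfl, Set.inter_self]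
        · rw [f_vz hirr hsym hG hxy]
          ext t
          constructor
          · exact fun ht => absurd ht (Set.notMem_empty _)
          · rintro ⟨ht1, ht2⟩
            exfalso
            rcases ht1 with rfl | ⟨s, rfl, h1, h3⟩
            · rcases ht2 with ht2 | ⟨s, ht2, -⟩
              · exact hxy (Sum.inl.inj ht2)
              · cases ht2
            · rcases ht2 with ht2 | ⟨s', ht2, h2, -⟩
              · cases ht2
              · rw [← Sum.inr.inj ht2] at h2
                rw [(Sym2.mem_and_mem_iff hxy).1 ⟨h1, h2⟩, ge_iff hsym] at h3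
                exact hG h3
    · exact hve x s' h'
  · rcases y with _ | y | ⟨s', h'⟩
    · exact (Set.inter_empty _).symm
    · rw [f_comm hirr hsym, hve y s h, Set.inter_comm]
    · simp only [fOp]
      split_ifs with h1
      · have h2 := h1.2
        subst h2
        exact (Set.inter_self _).symm
      · ext t
        constructor
        · exact fun ht => absurd ht (Set.notMem_empty _)
        · rintro ⟨ht1, ht2⟩
          exfalso
          have e1 : t = Sum.inr s := ht1
          have e2 : t = Sum.inr s' := ht2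
          exact h1 ⟨by simp, Sum.inr.inj (e1.symm.trans e2)⟩

theorem ks_fl : KS (fOp true : Fl X G → Fl X G → Fl X G) := by
  refine ⟨fun x y z => D_inj ?_, fun x => D_inj ?_, f_comm hirr hsym⟩
  · rw [D_op hirr hsym, D_op hirr hsym, D_op hirr hsym, D_op hirr hsym, Set.inter_assoc]
  · rw [D_op hirr hsym, Set.inter_self]

end

/-! ## Reconstruction -/

section recon

variable {b : Bool} {M : Type} {o : M → M → M}

theorem Good.zu (h : Good b o) {p q : M} (hp : Zr o p) (hq : Zr o q) : p = q := by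
  rw [← hp q, h.comm q p, hq p]

theorem ar_symm (h : Good b o) {x y : M} (hxy : Ar o x y) : Ar o y x :=
  ⟨hxy.1.symm, by rw [h.comm]; exact hxy.2⟩

/-- **A good structure is the semigroup of its graph.** -/
theorem recon (h : Good b o) {X : Type} {G : X → X → Prop} (π : X ≃ {x // Pv o x})
    (hG : ∀ x y, G x y ↔ Ar o (π x).1 (π y).1) :
    ∃ F : Fl X G ≃ M, (∀ x y, F (fOp b x y) = o (F x) (F y)) ∧ ∀ x, F (.v x) = (π x).1 := by
  obtain ⟨p0, hp0⟩ := h.zero
  have hsym : ∀ x y : X, G x y → G y x := fun x y hxy =>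
    (hG y x).2 (ar_symm h ((hG x y).1 hxy))
  have hirr : ∀ x : X, ¬ G x x := fun x hx => ((hG x x).1 hx).1 rfl
  have hπ : ∀ {x y : X}, (π x).1 = (π y).1 → x = y := fun hxy =>
    π.injective (Subtype.ext hxy)
  let pr : Sym2 X → M := Sym2.lift ⟨fun x y => o (π x).1 (π y).1, fun x y => h.comm _ _⟩
  have hpr : ∀ x y : X, pr s(x, y) = o (π x).1 (π y).1 := fun x y => rfl
  let F : Fl X G → M := fun t => match t with
    | .z => p0
    | .v x => (π x).1
    | .e s _ => pr s
  have hAr : ∀ x y : X, G x y → ¬ Zr o (o (π x).1 (π y).1) := fun x y hxy => ((hG x y).1 hxy).2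
  have hne : ∀ x y : X, G x y → (π x).1 ≠ (π y).1 := fun x y hxy => ((hG x y).1 hxy).1
  have hnp : ∀ x y : X, G x y → ¬ Pv o (o (π x).1 (π y).1) := by
    rintro x y hxy ⟨-, h4⟩
    obtain ⟨h5, h6⟩ := h4 (π x).1 (π y).1 rfl
    exact hne x y hxy (h5.trans h6.symm)
  have hz0 : ∀ x y, ¬ Ar o x y → x ≠ y → o x y = p0 := by
    intro x y hxy hne
    apply h.zu _ hp0
    by_contra h1
    exact hxy ⟨hne, h1⟩
  have hmul : ∀ x y, F (fOp b x y) = o (F x) (F y) := by
    have hv0 : ∀ x, o x p0 = p0 := fun x => hp0 x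
    have ve : ∀ (x : X) (s : Sym2 X) (hs : ∃ x y, s = s(x, y) ∧ G x y),
        F (fOp b (.v x) (.e s hs)) = o (π x).1 (pr s) := by
      intro x s hs
      have hs' := hs
      obtain ⟨y, t, rfl, hyt⟩ := hs'
      have h1 := h.ve (π x).1 (π y).1 (π t).1 (π x).2 (π y).2 (π t).2 (hne _ _ hyt)
        (hAr _ _ hyt)
      have h2 : ((π x).1 = (π y).1 ∨ (π x).1 = (π t).1) ↔ x ∈ s(y, t) := by
        rw [Sym2.mem_iff]
        constructor
        · rintro (h | h)
          · exact Or.inl (hπ h)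
          · exact Or.inr (hπ h)
        · rintro (rfl | rfl)
          · exact Or.inl rfl
          · exact Or.inr rfl
      rw [h2] at h1
      rw [hpr]
      simp only [fOp]
      split_ifs with h3
      · rcases h1 with ⟨-, -, h4⟩ | ⟨h4, -⟩
        · rw [h4]
          exact hpr y t
        · exact absurd h3 h4
      · rcases h1 with ⟨h4, h5, -⟩ | ⟨-, h4⟩
        · exact absurd ⟨h4, h5⟩ h3
        · exact h.zu hp0 h4
    intro x y
    rcases x with _ | x | ⟨s, hs⟩
    · have h1 : o (F .z) (F y) = p0 := by rw [h.comm]; exact hv0 _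
      rw [h1, f_z']
    · rcases y with _ | y | ⟨s, hs⟩
      · exact (hv0 _).symm
      · by_cases hxy : G x y
        · rw [f_vv hirr hsym hxy]
          exact hpr x y
        · by_cases hxy' : x = y
          · subst hxy'
            rw [f_vx hirr hsym]
            rcases h.sq (π x).1 (π x).2 with ⟨h1, h2⟩ | ⟨h1, h2⟩
            · rw [if_pos h1]
              exact h2.symm
            · rw [if_neg (by rw [h1]; simp)]
              exact h.zu hp0 h2
          · rw [f_vz hirr hsym hxy hxy']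
            exact (hz0 _ _ (fun h => hxy ((hG x y).2 h)) fun h => hxy' (hπ h)).symm
      · exact ve x s hs
    · rcases y with _ | y | ⟨s', hs'⟩
      · exact (hv0 _).symm
      · rw [f_comm hirr hsym, ve y s hs, h.comm]
      · have g1 := hs
        have g2 := hs'
        obtain ⟨x, y, rfl, hxy⟩ := g1
        obtain ⟨x', y', rfl, hxy'⟩ := g2
        have h1 := h.ee (o (π x).1 (π y).1) (o (π x').1 (π y').1) (hnp _ _ hxy)
          (hAr _ _ hxy) (hnp _ _ hxy') (hAr _ _ hxy')
        have h2 : o (π x).1 (π y).1 = o (π x').1 (π y').1 ↔ s(x, y) = s(x', y') := by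
          constructor
          · intro h3
            rcases h.uniq _ _ _ _ (π x).2 (π y).2 (hne _ _ hxy) (π x').2 (π y').2 (hne _ _ hxy')
              h3 (hAr _ _ hxy) with ⟨h5, h6⟩ | ⟨h5, h6⟩
            · exact Sym2.eq_iff.2 (Or.inl ⟨hπ h5, hπ h6⟩)
            · exact Sym2.eq_iff.2 (Or.inr ⟨hπ h5, hπ h6⟩)
          · intro h3
            rw [← hpr, ← hpr, h3]
        rw [h2] at h1
        change F (fOp b _ _) = o (o (π x).1 (π y).1) (o (π x').1 (π y').1)
        simp only [fOp]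
        split_ifs with h3
        · rcases h1 with ⟨-, -, h4⟩ | ⟨h4, -⟩
          · rw [h4]
            exact hpr x y
          · exact absurd h3 h4
        · rcases h1 with ⟨h4, h5, -⟩ | ⟨-, h4⟩
          · exact absurd ⟨h4, h5⟩ h3
          · exact h.zu hp0 h4
  have hinj : Function.Injective F := by
    have c1 : ∀ x : X, p0 ≠ (π x).1 := fun x hx => (π x).2.1 (hx ▸ hp0)
    have c2 : ∀ s (hs : ∃ x y, s = s(x, y) ∧ G x y), p0 ≠ pr s := by
      rintro s ⟨x, y, rfl, hxy⟩ hp
      have h9 : p0 = o (π x).1 (π y).1 := hp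
      exact hAr x y hxy (by rw [← h9]; exact hp0)
    have c3 : ∀ (t : X) s (hs : ∃ x y, s = s(x, y) ∧ G x y), (π t).1 ≠ pr s := by
      rintro t s ⟨x, y, rfl, hxy⟩ hp
      have h9 : (π t).1 = o (π x).1 (π y).1 := hp
      exact hnp x y hxy (by rw [← h9]; exact (π t).2)
    intro x y hxy
    rcases x with _ | x | ⟨s, hs⟩ <;> rcases y with _ | y | ⟨s', hs'⟩
    · rfl
    · exact absurd hxy (c1 y)
    · exact absurd hxy (c2 s' hs')
    · exact absurd hxy.symm (c1 x)
    · rw [hπ hxy]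
    · exact absurd hxy (c3 x s' hs')
    · exact absurd hxy.symm (c2 s hs)
    · exact absurd hxy.symm (c3 y s hs)
    · have g1 := hs
      have g2 := hs'
      obtain ⟨x, y, rfl, hxy1⟩ := g1
      obtain ⟨x', y', rfl, hxy'⟩ := g2
      have h3 : o (π x).1 (π y).1 = o (π x').1 (π y').1 := hxy
      rcases h.uniq _ _ _ _ (π x).2 (π y).2 (hne _ _ hxy1) (π x').2 (π y').2 (hne _ _ hxy')
        h3 (hAr _ _ hxy1) with ⟨h5, h6⟩ | ⟨h5, h6⟩
      · obtain rfl : x = x' := hπ h5
        obtain rfl : y = y' := hπ h6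
        rfl
      · obtain rfl : x = y' := hπ h5
        obtain rfl : y = x' := hπ h6
        simp [Sym2.eq_swap]
  have hsur : Function.Surjective F := by
    intro a
    by_cases ha : Zr o a
    · exact ⟨.z, h.zu hp0 ha⟩
    · rcases h.gen a with h1 | h1 | ⟨x, y, hx, hy, hxy, hR'⟩
      · exact absurd h1 ha
      · refine ⟨.v (π.symm ⟨a, h1⟩), ?_⟩
        show (π (π.symm ⟨a, h1⟩)).1 = a
        rw [π.apply_symm_apply]
      · obtain ⟨x', hx'⟩ := π.surjective ⟨x, hx⟩
        obtain ⟨y', hy'⟩ := π.surjective ⟨y, hy⟩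
        have e1 : (π x').1 = x := by rw [hx']
        have e2 : (π y').1 = y := by rw [hy']
        refine ⟨.e s(x', y') ⟨_, _, rfl, (hG _ _).2 ⟨?_, ?_⟩⟩, ?_⟩
        · rw [e1, e2]
          exact hxy
        · rw [e1, e2, hR']
          exact ha
        · show o (π x').1 (π y').1 = a
          rw [e1, e2]
          exact hR'
  exact ⟨Equiv.ofBijective F ⟨hinj, hsur⟩, hmul, fun x => rfl⟩

/-- good structures are in the classes -/
theorem good_KN {o : M → M → M} (h : Good false o) : KN o := by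
  obtain ⟨F, hF, -⟩ := recon h (Equiv.refl _) (G := fun x y => Ar o x.1 y.1) fun _ _ => Iff.rfl
  obtain ⟨c, h1, h2, h3⟩ := kn_fl (X := {x // Pv o x}) (G := fun x y => Ar o x.1 y.1)
    (fun x hx => hx.1 rfl) (fun x y hxy => ar_symm h hxy)
  refine ⟨F c, fun x y z => ?_, fun x => ?_, h.comm⟩
  · obtain ⟨x, rfl⟩ := F.surjective x
    obtain ⟨y, rfl⟩ := F.surjective y
    obtain ⟨z, rfl⟩ := F.surjective z
    rw [← hF, ← hF, h1]
  · obtain ⟨x, rfl⟩ := F.surjective x
    rw [← hF, h2]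

theorem good_KS {o : M → M → M} (h : Good true o) : KS o := by
  obtain ⟨F, hF, -⟩ := recon h (Equiv.refl _) (G := fun x y => Ar o x.1 y.1) fun _ _ => Iff.rfl
  obtain ⟨h1, h2, h3⟩ := ks_fl (X := {x // Pv o x}) (G := fun x y => Ar o x.1 y.1)
    (fun x hx => hx.1 rfl) (fun x y hxy => ar_symm h hxy)
  refine ⟨fun x y z => ?_, fun x => ?_, h.comm⟩
  · obtain ⟨x, rfl⟩ := F.surjective x
    obtain ⟨y, rfl⟩ := F.surjective y
    obtain ⟨z, rfl⟩ := F.surjective z
    rw [← hF, ← hF, ← hF, ← hF, h1]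
  · obtain ⟨x, rfl⟩ := F.surjective x
    rw [← hF, h2]

end recon

/-! ## Invariance -/

section map

variable {M N : Type} {y : M → M → M} {z : N → N → N} {σ : M ≃ N}

theorem zr_map (h : ∀ m n, z (σ m) (σ n) = σ (y m n)) (p : M) : Zr z (σ p) ↔ Zr y p := by
  constructor
  · intro h1 x
    have := h1 (σ x)
    rw [h] at this
    exact σ.injective this
  · intro h1 x
    obtain ⟨x, rfl⟩ := σ.surjective x
    rw [h, h1 x]

theorem pv_map (h : ∀ m n, z (σ m) (σ n) = σ (y m n)) (p : M) : Pv z (σ p) ↔ Pv y p := by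
  unfold Pv
  rw [zr_map h]
  refine and_congr Iff.rfl ?_
  constructor
  · intro h1 a c hac
    obtain ⟨h2, h3⟩ := h1 (σ a) (σ c) (by rw [h, hac])
    exact ⟨σ.injective h2, σ.injective h3⟩
  · intro h1 a c hac
    obtain ⟨a, rfl⟩ := σ.surjective a
    obtain ⟨c, rfl⟩ := σ.surjective c
    rw [h] at hac
    obtain ⟨h2, h3⟩ := h1 a c (σ.injective hac)
    exact ⟨by rw [h2], by rw [h3]⟩

theorem ar_map (h : ∀ m n, z (σ m) (σ n) = σ (y m n)) (p q : M) :
    Ar z (σ p) (σ q) ↔ Ar y p q := by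
  unfold Ar
  rw [h, zr_map h, σ.injective.ne_iff]

theorem Good.map {b : Bool} (h : ∀ m n, z (σ m) (σ n) = σ (y m n)) (g : Good b y) :
    Good b z where
  comm x x' := by
    obtain ⟨x, rfl⟩ := σ.surjective x
    obtain ⟨x', rfl⟩ := σ.surjective x'
    rw [h, h, g.comm]
  zero := by
    obtain ⟨p, hp⟩ := g.zero
    exact ⟨σ p, (zr_map h p).2 hp⟩
  gen e := by
    obtain ⟨e, rfl⟩ := σ.surjective e
    rcases g.gen e with h1 | h1 | ⟨a, c, h1, h2, h3, h4⟩
    · exact Or.inl ((zr_map h e).2 h1)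
    · exact Or.inr (Or.inl ((pv_map h e).2 h1))
    · refine Or.inr (Or.inr ⟨σ a, σ c, (pv_map h a).2 h1, (pv_map h c).2 h2,
        fun h5 => h3 (σ.injective h5), ?_⟩)
      rw [h, h4]
  uniq a c a' c' h1 h2 h3 h4 h5 h6 h7 h8 := by
    obtain ⟨a, rfl⟩ := σ.surjective a
    obtain ⟨c, rfl⟩ := σ.surjective c
    obtain ⟨a', rfl⟩ := σ.surjective a'
    obtain ⟨c', rfl⟩ := σ.surjective c'
    rw [pv_map h] at h1 h2 h4 h5
    rw [h, h] at h7
    rw [h, zr_map h] at h8
    rcases g.uniq a c a' c' h1 h2 (fun e => h3 (by rw [e])) h4 h5 (fun e => h6 (by rw [e]))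
      (σ.injective h7) h8 with ⟨e1, e2⟩ | ⟨e1, e2⟩
    · exact Or.inl ⟨by rw [e1], by rw [e2]⟩
    · exact Or.inr ⟨by rw [e1], by rw [e2]⟩
  sq x hx := by
    obtain ⟨x, rfl⟩ := σ.surjective x
    rw [pv_map h] at hx
    rw [h, zr_map h, σ.apply_eq_iff_eq]
    exact g.sq x hx
  ve a c d h1 h2 h3 h4 h5 := by
    obtain ⟨a, rfl⟩ := σ.surjective a
    obtain ⟨c, rfl⟩ := σ.surjective c
    obtain ⟨d, rfl⟩ := σ.surjective d
    rw [pv_map h] at h1 h2 h3
    rw [h, zr_map h] at h5
    rw [h, h, zr_map h, σ.apply_eq_iff_eq, σ.apply_eq_iff_eq, σ.apply_eq_iff_eq]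
    exact g.ve a c d h1 h2 h3 (fun e => h4 (by rw [e])) h5
  ee e e' h1 h2 h3 h4 := by
    obtain ⟨e, rfl⟩ := σ.surjective e
    obtain ⟨e', rfl⟩ := σ.surjective e'
    rw [pv_map h] at h1 h3
    rw [zr_map h] at h2 h4
    rw [h, zr_map h, σ.apply_eq_iff_eq, σ.apply_eq_iff_eq]
    exact g.ee e e' h1 h2 h3 h4

end map

/-! ## Measurability -/

theorem bp_app (m n k : ℕ) : BP (fun o : Bin => o m n = k) := by
  have h : Measurable fun o : Bin => o m n := (measurable_pi_apply n).comp (measurable_pi_apply m)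
  exact h (measurableSet_singleton k)

theorem bp_zr (p : ℕ) : BP (fun o : Bin => Zr o p) := BP.all fun x => bp_app x p p

theorem bp_pv (p : ℕ) : BP (fun o : Bin => Pv o p) :=
  (bp_zr p).not.and <| BP.all fun x => BP.all fun y => (bp_app x y p).imp (BP.const _)

/-- a predicate of a product -/
theorem bp_at {q : ℕ → Bin → Prop} (h : ∀ k, BP (q k)) (m n : ℕ) :
    BP (fun o : Bin => q (o m n) o) := by
  have h1 : BP (fun o : Bin => ∃ k, o m n = k ∧ q k o) :=
    BP.ex fun k => (bp_app m n k).and (h k)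
  exact h1.congr fun o => ⟨fun ⟨k, e, h2⟩ => e ▸ h2, fun h => ⟨_, rfl, h⟩⟩

theorem bp_ar (p q : ℕ) : BP (fun o : Bin => Ar o p q) :=
  (BP.const _).and (bp_at bp_zr p q).not

theorem bp_good (b : Bool) : BP (fun o : Bin => Good b o) := by
  have : BP (fun o : Bin => (∀ x y, o x y = o y x) ∧ (∃ p, Zr o p) ∧
      (∀ e, Zr o e ∨ Pv o e ∨ ∃ x y, Pv o x ∧ Pv o y ∧ x ≠ y ∧ o x y = e) ∧
      (∀ x y x' y', Pv o x → Pv o y → x ≠ y → Pv o x' → Pv o y' → x' ≠ y' → o x y = o x' y' →
        ¬ Zr o (o x y) → (x = x' ∧ y = y') ∨ (x = y' ∧ y = x')) ∧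
      (∀ x, Pv o x → (b = true ∧ o x x = x) ∨ (b = false ∧ Zr o (o x x))) ∧
      (∀ x y z, Pv o x → Pv o y → Pv o z → y ≠ z → ¬ Zr o (o y z) →
        (b = true ∧ (x = y ∨ x = z) ∧ o x (o y z) = o y z) ∨
        (¬ (b = true ∧ (x = y ∨ x = z)) ∧ Zr o (o x (o y z)))) ∧
      (∀ e e', ¬ Pv o e → ¬ Zr o e → ¬ Pv o e' → ¬ Zr o e' →
        (b = true ∧ e = e' ∧ o e e' = e) ∨ (¬ (b = true ∧ e = e') ∧ Zr o (o e e')))) :=
    (BP.all fun x => BP.all fun y => bp_at (q := fun k o => o x y = k) (fun k => bp_app x y k)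
      y x).and <|
    (BP.ex fun p => bp_zr p).and <|
    (BP.all fun e => (bp_zr e).or <| (bp_pv e).or <| BP.ex fun x => BP.ex fun y =>
      (bp_pv x).and <| (bp_pv y).and <| (BP.const _).and (bp_app x y e)).and <|
    (BP.all fun x => BP.all fun y => BP.all fun x' => BP.all fun y' => (bp_pv x).imp <|
      (bp_pv y).imp <| (BP.const _).imp <| (bp_pv x').imp <| (bp_pv y').imp <|
      (BP.const _).imp <| (bp_at (q := fun k o => o x y = k) (fun k => bp_app x y k)
        x' y').imp <| (bp_at bp_zr x y).not.imp (BP.const _)).and <|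
    (BP.all fun x => (bp_pv x).imp <| ((BP.const _).and (bp_app x x x)).or
      ((BP.const _).and (bp_at bp_zr x x))).and <|
    (BP.all fun x => BP.all fun y => BP.all fun z => (bp_pv x).imp <| (bp_pv y).imp <|
      (bp_pv z).imp <| (BP.const _).imp <| (bp_at bp_zr y z).not.imp <|
      ((BP.const _).and <| (BP.const _).and <|
        bp_at (q := fun k o => o x k = k) (fun k => bp_app x k k) y z).or <|
      (BP.const _).and <| bp_at (q := fun k o => Zr o (o x k)) (fun k => bp_at bp_zr x k)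
        y z).and <|
    (BP.all fun e => BP.all fun e' => (bp_pv e).not.imp <| (bp_zr e).not.imp <|
      (bp_pv e').not.imp <| (bp_zr e').not.imp <|
      ((BP.const _).and <| (BP.const _).and (bp_app e e' e)).or <|
      (BP.const _).and (bp_at bp_zr e e'))
  exact this.congr fun o => ⟨fun ⟨h1, h2, h3, h4, h5, h6, h7⟩ => ⟨h1, h2, h3, h4, h5, h6, h7⟩,
    fun ⟨h1, h2, h3, h4, h5, h6, h7⟩ => ⟨h1, h2, h3, h4, h5, h6, h7⟩⟩

/-! ## The theorem -/

/-- the codes -/
def WG (b : Bool) (o : Bin) : Prop := Good b o ∧ ∀ N, ∃ u, N ≤ u ∧ Pv o u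

/-- the graph -/
noncomputable def gr : Bin → BinStr := dc (fun o u => Pv o u) (fun o u v => Ar o u v)

theorem OIso.symm {x y : Bin} (h : OIso x y) : OIso y x := by
  obtain ⟨σ, h⟩ := h
  refine ⟨σ.symm, fun m n => ?_⟩
  obtain ⟨m, rfl⟩ := σ.surjective m
  obtain ⟨n, rfl⟩ := σ.surjective n
  rw [h, σ.symm_apply_apply, σ.symm_apply_apply, σ.symm_apply_apply]

theorem wg_inv {b : Bool} {y z : Bin} (h : OIso y z) (w : WG b y) : WG b z := by
  obtain ⟨σ, h⟩ := h
  refine ⟨w.1.map h, of_inf ?_⟩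
  have := inf_of w.2
  exact Infinite.of_injective (fun u : {u // Pv y u} =>
    (⟨σ u, (pv_map h u.1).2 u.2⟩ : {u // Pv z u})) fun u v huv =>
      Subtype.ext (σ.injective (congrArg Subtype.val huv))

theorem gr_iso {b : Bool} {y z : Bin} (wy : WG b y) (wz : WG b z) :
    OIso y z ↔ BIso (gr y) (gr z) := by
  unfold gr
  rw [dc_iso wy.2 wz.2]
  constructor
  · rintro ⟨σ, h⟩
    refine ⟨σ.subtypeEquiv fun u => (pv_map h u).symm, fun u v => ?_⟩
    exact (ar_map h _ _).symm
  · rintro ⟨π, hπ⟩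
    obtain ⟨F, hF, -⟩ := recon wy.1 (Equiv.refl _) (G := fun x y' => Ar y x.1 y'.1)
      fun _ _ => Iff.rfl
    obtain ⟨F', hF', -⟩ := recon wz.1 π (G := fun x y' => Ar y x.1 y'.1) hπ
    refine ⟨F.symm.trans F', fun m n => ?_⟩
    obtain ⟨m, rfl⟩ := F.surjective m
    obtain ⟨n, rfl⟩ := F.surjective n
    simp only [Equiv.trans_apply, Equiv.symm_apply_apply]
    rw [← hF', ← hF, F.symm_apply_apply]

theorem gr_ex {b : Bool} {g : BinStr} (hg : IsGraph g) : ∃ y : Bin, WG b y ∧ BIso (gr y) g := by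
  have hs : ∀ u v, rel g u v → rel g v u := hg.symm
  have hi : ∀ u, ¬ rel g u u := fun u h => by
    unfold rel at h
    rw [hg.irrefl u] at h
    exact absurd h (by decide)
  have w : Good b (fOp b : Fl ℕ (rel g) → _ → _) := good_fl hi hs
  have hc : Countable (Fl ℕ (rel g)) := by
    refine Function.Injective.countable (f := fun t : Fl ℕ (rel g) => (match t with
      | .z => Sum.inl none
      | .v x => Sum.inl (some x)
      | .e s _ => Sum.inr s : Option ℕ ⊕ Sym2 ℕ)) ?_
    intro x y hxy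
    rcases x with _ | x | ⟨s, h⟩ <;> rcases y with _ | y | ⟨s', h'⟩ <;> simp at hxy
    · rfl
    · rw [hxy]
    · subst hxy
      rfl
  have hinf : Infinite (Fl ℕ (rel g)) :=
    Infinite.of_injective (fun x : ℕ => (Fl.v x : Fl ℕ (rel g))) fun x y h => Fl.v.inj h
  obtain ⟨σ⟩ : Nonempty (Fl ℕ (rel g) ≃ ℕ) := nonempty_equiv_of_countable
  let y : Bin := fun m n => σ (fOp b (σ.symm m) (σ.symm n))
  have h : ∀ m n, y (σ m) (σ n) = σ (fOp b m n) := fun m n => by
    show σ (fOp b (σ.symm (σ m)) (σ.symm (σ n))) = _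
    rw [σ.symm_apply_apply, σ.symm_apply_apply]
  have hV : ∀ v : ℕ, Pv y (σ (.v v)) := fun v => (pv_map h _).2 ((pv_iff hi hs _).2 ⟨v, rfl⟩)
  have wy : WG b y := by
    refine ⟨w.map h, of_inf ?_⟩
    exact Infinite.of_injective (fun v : ℕ => (⟨σ (.v v), hV v⟩ : {u // Pv y u}))
      fun u v huv => Fl.v.inj (σ.injective (congrArg Subtype.val huv))
  refine ⟨y, wy, ?_⟩
  have hb : Function.Bijective (fun v : ℕ => (⟨σ (.v v), hV v⟩ : {u // Pv y u})) := by
    constructor
    · intro u v huv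
      exact Fl.v.inj (σ.injective (congrArg Subtype.val huv))
    · rintro ⟨u, hu⟩
      obtain ⟨t, rfl⟩ := σ.surjective u
      obtain ⟨x, rfl⟩ := (pv_iff hi hs t).1 ((pv_map h t).1 hu)
      exact ⟨x, rfl⟩
  unfold gr
  refine dc_iso' wy.2 (Equiv.ofBijective _ hb) fun v v' => ?_
  show rel g v v' ↔ Ar y (σ (.v v)) (σ (.v v'))
  rw [ar_map h, ar_iff hi hs]

theorem faithful_good (b : Bool) {K : Bin → Prop} (hK : ∀ o, Good b o → K o) :
    Faithful OIso K :=
  faithful_interp (K0 := K3) target_K3.faithful (W := WG b) (δ := gr) (fun _ _ h => OIso.symm h)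
    ((bp_good b).and (BP.all fun N => BP.ex fun u => (BP.const (N ≤ u)).and (bp_pv u)))
    (measurable_dc (fun u => bp_pv u) (fun u v => bp_ar u v))
    (fun _ _ h w => wg_inv h w) (fun _ _ wy wz => gr_iso wy wz)
    (fun _ hg => gr_ex hg.1) fun o w => hK o w.1

end Pool.Agent.N649.SV.NS

namespace Pool.Agent.N649.SV

/-- nilpotent commutative semigroups are faithfully complete -/
theorem leaf_N : Leaf_N := NS.faithful_good false fun _ h => NS.good_KN h

/-- semilattices are faithfully complete -/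
theorem leaf_S : Leaf_S := NS.faithful_good true fun _ h => NS.good_KS h

end Pool.Agent.N649.SV
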