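import Pool.Agent.N649.SV.Stm
import Pool.Agent.N649.KA.Pos

set_option autoImplicit false

/-!
# The dichotomy for the semigroups with `x y = x z` and with `y x = z x` (helper196)

They are the sets with one idempotent unary function, that is, the acts of the monoid `{1, f}`
with `f f = f` (the multiplicative monoid of `ZMod 2`, with `f = 0`).
-/

namespace Pool.Agent.N649.SV

open Pool.Agent.N649.SG.Light
open Pool.Agent.W889.VC (Dich VCof)
open Pool.Agent.Y561.AC (XS SIso)

/-- a class of operations given by idempotent unary functions -/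
theorem vcof_idem (d : (ℕ → ℕ) → Bin) (hc : Continuous d) (hm : Measurable d)
    (hd : ∀ (σ : Equiv.Perm ℕ) (F G : ℕ → ℕ),
      (∀ m n, d G (σ m) (σ n) = σ (d F m n)) ↔ ∀ m, G (σ m) = σ (F m))
    (K : Bin → Prop) (hK : ∀ x, K x → ∃ F : ℕ → ℕ, (∀ m, F (F m) = F m) ∧ x = d F) :
    VCof True OIso K := by
  intro B hB hinv hBK
  let B' : Set (XS (ZMod 2)) := {y | ((∀ m, y.1 1 m = m) ∧ (∀ m, y.1 0 (y.1 0 m) = y.1 0 m)) ∧
    (∀ i m, y.2 i m = false) ∧ d (y.1 0) ∈ B}
  have m0 : ∀ (s : ZMod 2) (m : ℕ), Measurable fun y : XS (ZMod 2) => y.1 s m := fun s m =>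
    (measurable_pi_apply m).comp ((measurable_pi_apply s).comp measurable_fst)
  have m1 : MeasurableSet {y : XS (ZMod 2) | ∀ m, y.1 1 m = m} := by
    rw [Set.ofPred_forall]
    exact MeasurableSet.iInter fun m => m0 1 m (measurableSet_singleton m)
  have m2 : MeasurableSet {y : XS (ZMod 2) | ∀ m, y.1 0 (y.1 0 m) = y.1 0 m} := by
    rw [Set.ofPred_forall]
    refine MeasurableSet.iInter fun m => ?_
    have : {y : XS (ZMod 2) | y.1 0 (y.1 0 m) = y.1 0 m} =
        ⋃ k : ℕ, ({y : XS (ZMod 2) | y.1 0 m = k} ∩ {y : XS (ZMod 2) | y.1 0 k = k}) := by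
      ext y
      simp only [Set.mem_ofPred_eq, Set.mem_iUnion, Set.mem_inter_iff]
      constructor
      · intro h
        exact ⟨_, rfl, h⟩
      · rintro ⟨k, h, h'⟩
        rw [h]
        exact h'
    rw [this]
    exact MeasurableSet.iUnion fun k => (m0 0 m (measurableSet_singleton k)).inter
      (m0 0 k (measurableSet_singleton k))
  have m3 : MeasurableSet {y : XS (ZMod 2) | ∀ i m, y.2 i m = false} := by
    rw [Set.ofPred_forall]
    refine MeasurableSet.iInter fun i => ?_
    rw [Set.ofPred_forall]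
    refine MeasurableSet.iInter fun m => ?_
    have h2 : Measurable fun x : XS (ZMod 2) => x.2 i m :=
      (measurable_pi_apply m).comp ((measurable_pi_apply i).comp measurable_snd)
    exact h2 (measurableSet_singleton false)
  have m4 : MeasurableSet {y : XS (ZMod 2) | d (y.1 0) ∈ B} :=
    (hm.comp ((measurable_pi_apply (0 : ZMod 2)).comp measurable_fst)) hB
  have hB' : MeasurableSet B' := (m1.inter m2).inter (m3.inter m4)
  have h01 : ∀ s : ZMod 2, s = 0 ∨ s = 1 := by decide
  have hCA : ∀ y ∈ B', Pool.Agent.N649.KA.CA y := by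
    rintro y ⟨⟨h1, h2⟩, -, -⟩
    refine ⟨h1, fun s t m => ?_, fun s t m => ?_⟩
    · rcases h01 s with rfl | rfl
      · rcases h01 t with rfl | rfl
        · rw [mul_zero, h2]
        · rw [mul_one, h1]
      · rw [one_mul, h1]
    · rcases h01 s with rfl | rfl
      · rcases h01 t with rfl | rfl
        · exact ⟨1, Or.inl (h1 _).symm⟩
        · exact ⟨0, Or.inr (by rw [h1])⟩
      · exact ⟨t, Or.inl (by rw [h1])⟩
  have hi : ∀ y ∈ B', ∀ (z : XS (ZMod 2)) (σ : Equiv.Perm ℕ), SIso σ y z → z ∈ B' := by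
    rintro y ⟨⟨h1, h2⟩, h3, h4⟩ z σ ⟨e1, e2⟩
    refine ⟨⟨fun m => ?_, fun m => ?_⟩, fun i m => ?_, ?_⟩
    · obtain ⟨m, rfl⟩ := σ.surjective m
      rw [e1, h1]
    · obtain ⟨m, rfl⟩ := σ.surjective m
      rw [e1, e1, h2]
    · obtain ⟨m, rfl⟩ := σ.surjective m
      rw [e2, h3]
    · exact (hinv _ _ ⟨σ, (hd σ (y.1 0) (z.1 0)).2 (e1 0)⟩).1 h4
  rcases Pool.Agent.N649.KA.vaught_ca B' hB' hCA hi with ⟨f, hf⟩ | ⟨c, c1, c2, c3⟩
  · left
    refine ⟨fun n => d ((f n).1 0), fun x hx => ?_⟩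
    obtain ⟨F, hF, rfl⟩ := hK x (hBK x hx)
    obtain ⟨n, σ, e1, -⟩ := hf (fun s m => if s = 0 then F m else m, fun _ _ => false)
      ⟨⟨fun m => by simp, fun m => by simp [hF]⟩, fun _ _ => rfl, by simpa using hx⟩
    refine ⟨n, σ, (hd σ _ _).2 fun m => ?_⟩
    have := e1 0 m
    simpa using this
  · right
    refine ⟨fun a => d ((c a).1 0), fun _ => ?_, fun a => (c2 a).2.2, fun a b h => ?_⟩
    · exact hc.comp ((continuous_apply (0 : ZMod 2)).comp (continuous_fst.comp c1))
    · obtain ⟨σ, h⟩ := h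
      refine c3 a b ⟨σ, fun s m => ?_, fun i m => ?_⟩
      · rcases h01 s with rfl | rfl
        · exact (hd σ _ _).1 h m
        · rw [(c2 b).1.1, (c2 a).1.1]
      · rw [(c2 b).2.1, (c2 a).2.1]

theorem leaf_U : Leaf_U := by
  refine ⟨vcof_idem (fun F m _ => F m) ?_ ?_ ?_ _ ?_, vcof_idem (fun F _ m => F m) ?_ ?_ ?_ _ ?_⟩
  · exact continuous_pi fun m => continuous_pi fun _ => continuous_apply m
  · exact measurable_pi_lambda _ fun m => measurable_pi_lambda _ fun _ => measurable_pi_apply m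
  · exact fun σ F G => ⟨fun h m => h m m, fun h m _ => h m⟩
  · rintro x ⟨h1, h2⟩
    refine ⟨fun m => x m m, fun m => ?_, funext fun m => funext fun n => h2 m n m⟩
    show x (x m m) (x m m) = x m m
    rw [h2 (x m m) (x m m) m, h1]
    exact h2 _ _ _
  · exact continuous_pi fun _ => continuous_pi fun m => continuous_apply m
  · exact measurable_pi_lambda _ fun _ => measurable_pi_lambda _ fun m => measurable_pi_apply m
  · exact fun σ F G => ⟨fun h m => h m m, fun h _ m => h m⟩
  · rintro x ⟨h1, h2⟩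
    refine ⟨fun m => x m m, fun m => ?_, funext fun m => funext fun n => h2 n m n⟩
    show x (x m m) (x m m) = x m m
    rw [h2 (x m m) (x m m) m, ← h1]
    exact h2 _ _ _

end Pool.Agent.N649.SV
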