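import Pool.Agent.N649.SG.Cls
import Pool.Agent.N649.SV.P
import Pool.Agent.N649.SV.R
import Pool.Agent.N649.SV.NS
import Pool.Agent.N649.SV.I
import Pool.Agent.N649.SV.C
import Pool.Agent.N649.SV.Id
import Pool.Agent.N649.SV.U
import Pool.Agent.N649.SV.G

set_option autoImplicit false

/-!
# Varieties of semigroups: the dichotomy of Vaught's conjecture
-/

namespace Pool.Agent.N649.SV

open Pool.Agent.N649.SG.Light
open Pool.Agent.W889.VC (Faithful BP VCof)

theorem val_inj {M N : Type} {o : M → M → M} {o' : N → N → N} (f : M → N)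
    (hf : ∀ x y, f (o x y) = o' (f x) (f y)) (v : ℕ → M) (t : T) :
    f (t.val o v) = t.val o' (fun n => f (v n)) := by
  induction t with
  | var n => rfl
  | mul s t ihs iht =>
    simp only [T.val]
    rw [hf, ihs, iht]

theorem sa_inj {E : Set (T × T)} {M N : Type} {o : M → M → M} {o' : N → N → N}
    (f : M → N) (hi : Function.Injective f) (hf : ∀ x y, f (o x y) = o' (f x) (f y))
    (h : Sa E o') : Sa E o := fun p hp v => hi (by
  rw [val_inj f hf, val_inj f hf]
  exact h p hp _)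

/-- the reversed term -/
def rev : T → T
  | .var n => .var n
  | .mul s t => .mul (rev t) (rev s)

/-- the reversed identities -/
def revE (E : Set (T × T)) : Set (T × T) := (fun p => (rev p.1, rev p.2)) '' E

theorem rev_val {M : Type} (o : M → M → M) (v : ℕ → M) (t : T) :
    (rev t).val o v = t.val (fun x y => o y x) v := by
  induction t with
  | var n => rfl
  | mul s t ihs iht =>
    simp only [rev, T.val]
    rw [ihs, iht]

theorem sa_rev {E : Set (T × T)} {M : Type} {o : M → M → M} :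
    Sa (revE E) o ↔ Sa E (fun x y => o y x) := by
  constructor
  · intro h p hp v
    have := h _ ⟨p, hp, rfl⟩ v
    simp only [rev_val] at this
    exact this
  · rintro h _ ⟨p, hp, rfl⟩ v
    have := h p hp v
    simp only [rev_val]
    exact this

/-- the opposite operation -/
def fl (o : Bin) : Bin := fun x y => o y x

theorem measurable_fl : Measurable fl := by
  refine measurable_pi_iff.2 fun x => measurable_pi_iff.2 fun y => ?_
  exact (measurable_pi_apply x).comp (measurable_pi_apply y)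

theorem fl_iso {x y : Bin} : OIso (fl x) (fl y) ↔ OIso x y := by
  constructor
  · rintro ⟨σ, h⟩
    exact ⟨σ, fun m n => h n m⟩
  · rintro ⟨σ, h⟩
    exact ⟨σ, fun m n => h n m⟩

theorem faithful_fl {K : Bin → Prop} (h : Faithful OIso K) :
    Faithful OIso (fun o => K (fl o)) := by
  intro a B hB hinv
  obtain ⟨B', F, h1, h2, h3, h4, h5, h6, h7⟩ := h a B hB hinv
  refine ⟨fl ⁻¹' B', fun o => F (fl o), measurable_fl h1, fun y z hyz => ?_, fun y hy => h3 _ hy,
    h4.comp measurable_fl, fun y hy => h5 _ hy, fun y hy z hz => ?_, fun x hx => ?_⟩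
  · exact h2 _ _ (fl_iso.2 hyz)
  · rw [← h6 _ hy _ hz, fl_iso]
  · obtain ⟨y, hy, hxy⟩ := h7 x hx
    exact ⟨fl y, hy, hxy⟩

/-- the variety -/
def Vr (E : Set (T × T)) (o : Bin) : Prop := SG o ∧ Sa E o

theorem kp_sg {M : Type} {o : M → M → M} (h : KP o) : SG o := fun x y z =>
  (h.1 x y z).trans (h.2 x y z).symm

theorem kr_sg {M : Type} {o : M → M → M} (h : KR o) : SG o := fun x y z =>
  (h.1 x y z).trans (h.2 x y z).symm

theorem kn_sg {M : Type} {o : M → M → M} (h : KN o) : SG o := by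
  obtain ⟨c, h1, -, h3⟩ := h
  intro x y z
  rw [h1, h3 x, h1]

theorem ki_sg {p : ℕ} {M : Type} {o : M → M → M} (h : KI p o) : SG o := by
  obtain ⟨G, _, f, g, -, h2, h3⟩ := h
  intro x y z
  simp only [h3, h2, add_assoc]

theorem kc_sg {p : ℕ} {M : Type} {o : M → M → M} (h : KC p o) : SG o := by
  obtain ⟨I, K, P, f, hf⟩ := h
  intro x y z
  apply f.injective
  rw [hf, hf, hf, hf]
  simp only [rm, Prod.mk.injEq, true_and, and_true]
  ring

theorem faithful (E : Set (T × T)) :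
    Faithful OIso (Vr E) ∨
    (∀ (M : Type) (o : M → M → M), SG o → Sa E o → LU o) ∨
    (∀ (M : Type) (o : M → M → M), SG o → Sa E o → RU o) ∨
    (∀ (M : Type) (o : M → M → M), SG o → Sa E o → RectGp o) := by
  rcases SG.Cls.classify E with h | h | h | h | ⟨h1, h2, h3⟩ | ⟨p, hp, h1, h2⟩ | ⟨p, hp, h⟩ | h
  · exact Or.inl (leaf_S.mono fun o ho => ⟨ho.1, leaf_id.2.1 E h ℕ o ho⟩)
  · exact Or.inl (leaf_N.mono fun o ho => ⟨kn_sg ho, leaf_id.1 E h ℕ o ho⟩)
  · exact Or.inl (leaf_P.mono fun o ho => ⟨kp_sg ho, Pool.Agent.N649.SG.D.leaf_A0 E h ℕ o ho.1 ho.2⟩)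
  · refine Or.inl ((faithful_fl leaf_P).mono fun o ho => ⟨fun x y z => ?_, ?_⟩)
    · exact (kp_sg ho z y x).symm
    · exact sa_rev.1 (Pool.Agent.N649.SG.D.leaf_A0 _ (sa_rev.2 h) ℕ (fl o) ho.1 ho.2)
  · exact Or.inl (leaf_R.mono fun o ho => ⟨kr_sg ho, Pool.Agent.N649.SG.D.leaf_B0 E h1 h2 h3 ℕ o ho.1 ho.2⟩)
  · exact Or.inl ((Pool.Agent.N649.SV.I.leaf_I p hp).mono fun o ho => ⟨ki_sg ho, leaf_id.2.2 E p hp h1 h2 ℕ o ho⟩)
  · refine Or.inl ((leaf_C p hp).mono fun o ho => ⟨kc_sg ho, ?_⟩)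
    obtain ⟨I, K, P, f, hf⟩ := ho
    exact sa_inj f f.injective hf (Pool.Agent.N649.SG.D.leaf_D p E h I K P)
  · exact Or.inr h

end Pool.Agent.N649.SV
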